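import Pool.Agent.MP_536a45_ag_b.Defs1
import Mathlib

section

/-!
Top differential forms, abstractly.
-/

noncomputable section

namespace Pool.Agent.MP_536a45_ag_b

open MvPolynomial Matrix

/-- Top differential forms. -/
abbrev TopForm (k R : Type) [Field k] [CommRing R] [Algebra k R] (d : ℕ) : Type :=
  ⋀[R]^d (KaehlerDifferential k R)

namespace OmGen

variable {k R B n : Type} [Field k] [CommRing R] [Algebra k R] [CommRing B] [Algebra k B]
  [Algebra R B] [IsScalarTower k R B] [Fintype n] [DecidableEq n] {d : ℕ}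

abbrev dd (k R : Type) [Field k] [CommRing R] [Algebra k R] :
    Derivation k R (KaehlerDifferential k R) := KaehlerDifferential.D k R

def wedge (k : Type) [Field k] [Algebra k R] (e : Fin d ≃ n) (h : n → R) : TopForm k R d :=
  exteriorPower.ιMulti R _ fun i => dd k R (h (e i))

def jacB (e : Fin d ≃ n) (δ : n → Derivation k R B) : TopForm k R d →ₗ[R] B :=
  exteriorPower.alternatingMapLinearEquiv
    ((AlternatingMap.mk ((detRowAlternating (n := n) (R := B)).toMultilinearMap.restrictScalars R)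
    (fun v _ _ h hij => (detRowAlternating (n := n) (R := B)).map_eq_zero_of_eq v h hij)
    |>.compLinearMap (LinearMap.pi fun j => (δ j).liftKaehlerDifferential)).domDomCongr e.symm)

lemma jacB_wedge (e : Fin d ≃ n) (δ : n → Derivation k R B) (h : n → R) :
    jacB e δ (wedge k e h) = (of fun i j => δ j (h i)).det := by
  rw [jacB, wedge, exteriorPower.alternatingMapLinearEquiv_apply_ιMulti]
  change Matrix.det _ = Matrix.det _
  congr 1
  ext i j : 2
  simp

omit [Fintype n] [DecidableEq n] in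
lemma span_wedge (e : Fin d ≃ n) {α : Type} (f : α → R)
    (hf : Submodule.span R (Set.range fun a => dd k R (f a)) = ⊤) :
    Submodule.span R (Set.range fun S : n → α => wedge k e (f ∘ S)) = ⊤ := by
  rw [eq_top_iff, ← exteriorPower.ιMulti_span_of_span R _ _ hf]
  refine Submodule.span_mono ?_
  rintro _ ⟨v, hv, rfl⟩
  choose S hS using fun i => hv (Set.mem_range_self i)
  refine ⟨S ∘ e.symm, ?_⟩
  simp only [wedge, Function.comp_apply, Equiv.symm_apply_apply]
  congr 1
  exact funext hS

omit [Fintype n] [DecidableEq n] in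
lemma span_wedge' (e : Fin d ≃ n) : Submodule.span R (Set.range (wedge (R := R) k e)) = ⊤ :=
  span_wedge e id (KaehlerDifferential.span_range_derivation k R)

lemma dd_mem_span {α : Type} (f : α → R) {h : R} (hh : h ∈ Algebra.adjoin k (Set.range f)) :
    dd k R h ∈ Submodule.span R (Set.range fun a => dd k R (f a)) := by
  induction hh using Algebra.adjoin_induction with
  | mem x hx => obtain ⟨a, rfl⟩ := hx; exact Submodule.subset_span ⟨a, rfl⟩
  | algebraMap c => simp
  | add x y _ _ hx hy => rw [map_add]; exact add_mem hx hy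
  | mul x y _ _ hx hy =>
    rw [Derivation.leibniz]
    exact add_mem (Submodule.smul_mem _ _ hy) (Submodule.smul_mem _ _ hx)

lemma span_dd {α : Type} (f : α → R) (hf : Algebra.adjoin k (Set.range f) = ⊤) :
    Submodule.span R (Set.range fun a => dd k R (f a)) = ⊤ := by
  rw [eq_top_iff, ← KaehlerDifferential.span_range_derivation, Submodule.span_le]
  rintro _ ⟨h, rfl⟩
  exact dd_mem_span f (by rw [hf]; trivial)

lemma torsion_dd {α : Type} {f0 : α → R} {μ : R} (hμ : μ ∈ Algebra.adjoin k (Set.range f0))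
    (ht : ∀ h, ∃ M : ℕ, μ ^ M * h ∈ Algebra.adjoin k (Set.range f0))
    (w : KaehlerDifferential k R) :
    ∃ M : ℕ, μ ^ M • w ∈ Submodule.span R (Set.range fun i => dd k R (f0 i)) := by
  have : w ∈ Submodule.span R (Set.range (dd k R)) := by
    rw [KaehlerDifferential.span_range_derivation]; trivial
  induction this using Submodule.span_induction with
  | zero => exact ⟨0, by simp⟩
  | add x y _ _ hx hy =>
    obtain ⟨M, h⟩ := hx
    obtain ⟨M', h'⟩ := hy
    refine ⟨M + M', ?_⟩
    rw [smul_add]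
    refine add_mem ?_ ?_
    · rw [pow_add, mul_comm, mul_smul]; exact Submodule.smul_mem _ _ h
    · rw [pow_add, mul_smul]; exact Submodule.smul_mem _ _ h'
  | smul a x _ hx =>
    obtain ⟨M, h⟩ := hx
    exact ⟨M, by rw [smul_comm]; exact Submodule.smul_mem _ _ h⟩
  | mem x hx =>
    obtain ⟨h, rfl⟩ := hx
    obtain ⟨M, h1⟩ := ht h
    have h2 := dd_mem_span _ h1
    rw [Derivation.leibniz] at h2
    exact ⟨M, (Submodule.add_mem_iff_left _ (Submodule.smul_mem _ _
      (dd_mem_span _ (pow_mem hμ M)))).1 h2⟩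

lemma dual_rel [IsDomain R] (e : Fin d ≃ n) {f0 : n → R} {μ : R} (hμ0 : μ ≠ 0)
    (hμ : μ ∈ Algebra.adjoin k (Set.range f0))
    (ht : ∀ h, ∃ M : ℕ, μ ^ M * h ∈ Algebra.adjoin k (Set.range f0))
    (χ ψ : Module.Dual R (TopForm k R d)) (w : TopForm k R d) :
    χ (wedge k e f0) * ψ w = ψ (wedge k e f0) * χ w := by
  have : w ∈ Submodule.span R (Set.range (wedge (R := R) k e)) := by rw [span_wedge']; trivial
  induction this using Submodule.span_induction with
  | zero => simp
  | add x y _ _ hx hy => simp only [map_add, mul_add, hx, hy]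
  | smul a x _ hx => simp only [map_smul, smul_eq_mul]; linear_combination a * hx
  | mem x hx =>
    obtain ⟨h, rfl⟩ := hx
    let L := Fintype.linearCombination R fun i => dd k R (f0 (e i))
    have key : ∀ (χ : Module.Dual R (TopForm k R d)) (a : Fin d → Fin d → R),
        χ (exteriorPower.ιMulti R _ fun i => L (a i)) = χ (wedge k e f0) * (of a).det := by
      intro χ a
      have := congrArg (· a) (AlternatingMap.eq_smul_basis_det (Pi.basisFun R _)
        ((χ.compAlternatingMap (exteriorPower.ιMulti R _)).compLinearMap L))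
      simp only [L] at this
      simp [Pi.basisFun_det_apply] at this
      exact this
    choose M hM using fun i => torsion_dd hμ ht (dd k R (h (e i)))
    have hM' : ∀ i, ∃ a, L a = μ ^ M i • dd k R (h (e i)) := fun i => by
      have := hM i
      rw [← e.surjective.range_comp] at this
      exact (Submodule.mem_span_range_iff_exists_fun R).1 this
    choose a ha using hM'
    have h1 := key ψ a
    have h2 := key χ a
    simp only [ha, AlternatingMap.map_smul_univ, map_smul, smul_eq_mul] at h1 h2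
    refine mul_left_cancel₀ (Finset.prod_ne_zero_iff.2 fun i (_ : i ∈ Finset.univ) =>
      pow_ne_zero (M i) hμ0) ?_
    change _ * ψ (wedge k e h) = _ at h1
    change _ * χ (wedge k e h) = _ at h2
    linear_combination χ (wedge k e f0) * h1 - ψ (wedge k e f0) * h2

theorem omega [IsDomain R] (e : Fin d ≃ n) (δ : n → Derivation k R B)
    (hinj : Function.Injective (algebraMap R B)) (J : (n → R) → R)
    (hJ : ∀ h, algebraMap R B (J h) = (of fun i j => δ j (h i)).det)
    {f0 f1 : n → R} {μ : R} (hμ0 : μ ≠ 0) (hμ : μ ∈ Algebra.adjoin k (Set.range f0))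
    (ht : ∀ h, ∃ M : ℕ, μ ^ M * h ∈ Algebra.adjoin k (Set.range f0)) (h0 : J f0 ≠ 0)
    (hc : ∀ r s, J f0 * r = s * J f1 → J f0 ∣ s) :
    Nonempty (Module.Dual R (Module.Dual R (TopForm k R d)) ≃ₗ[R] R) ∧
    Ideal.span (Set.range J) • (⊤ : Submodule R (Module.Dual R (Module.Dual R (TopForm k R d)))) =
      LinearMap.range (Module.Dual.eval R (TopForm k R d)) ∧
    ∀ (α : Type) (f : α → R), Algebra.adjoin k (Set.range f) = ⊤ →
      Ideal.span (Set.range J) = Ideal.span (Set.range fun S : n → α => J (f ∘ S)) := by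
  have hle : LinearMap.range (jacB e δ) ≤ LinearMap.range (Algebra.linearMap R B) := by
    rw [LinearMap.range_eq_map, ← span_wedge' e, Submodule.map_span, Submodule.span_le]
    rintro _ ⟨_, ⟨h, rfl⟩, rfl⟩
    exact ⟨J h, by rw [jacB_wedge, ← hJ]; rfl⟩
  let jac : TopForm k R d →ₗ[R] R :=
    (LinearEquiv.ofInjective (Algebra.linearMap R B) hinj).symm.toLinearMap ∘ₗ
      (jacB e δ).codRestrict _ fun w => hle ⟨w, rfl⟩
  have hj : ∀ h, jac (wedge k e h) = J h := fun h => by
    simp only [jac, LinearMap.comp_apply, LinearEquiv.coe_coe, LinearEquiv.symm_apply_eq]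
    apply Subtype.ext
    simp [jacB_wedge, hJ]
  have hs : ∀ ψ : Module.Dual R (TopForm k R d), ∃ r : R, r • jac = ψ := fun ψ => by
    have h1 := dual_rel e hμ0 hμ ht jac ψ
    obtain ⟨r, hr⟩ := hc _ _ (by simpa only [hj] using h1 (wedge k e f1))
    refine ⟨r, LinearMap.ext fun w => mul_left_cancel₀ h0 ?_⟩
    rw [← hj, h1, hr, hj, LinearMap.smul_apply, smul_eq_mul, mul_assoc]
  let E : R ≃ₗ[R] Module.Dual R (TopForm k R d) :=
    LinearEquiv.ofBijective (LinearMap.toSpanSingleton R _ jac) ⟨(injective_iff_map_eq_zero _).2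
      fun r hr => by
        have := LinearMap.congr_fun hr (wedge k e f0)
        simpa [hj, h0] using this, hs⟩
  let E' := E.dualMap.trans (LinearMap.ringLmapEquivSelf R R R)
  have hI : ∀ (α : Type) (f : α → R), Algebra.adjoin k (Set.range f) = ⊤ →
      LinearMap.range jac = Ideal.span (Set.range fun S : n → α => J (f ∘ S)) := by
    intro α f hf
    rw [LinearMap.range_eq_map, ← span_wedge e f (span_dd f hf), Submodule.map_span,
      ← Set.range_comp]
    simp [Function.comp_def, ← hj]
  have hI' : LinearMap.range jac = Ideal.span (Set.range J) := hI R id (by simp)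
  refine ⟨⟨E'⟩, ?_, fun α f hf => hI'.symm.trans (hI α f hf)⟩
  apply Submodule.map_injective_of_injective (f := E'.toLinearMap) E'.injective
  rw [Submodule.map_smul'', Submodule.map_top, LinearEquiv.range, ← LinearMap.range_comp]
  have : E'.toLinearMap ∘ₗ Module.Dual.eval R _ = jac := LinearMap.ext fun w => by simp [E', E]
  rw [this, smul_eq_mul, Ideal.mul_top, hI']

theorem relation [IsDomain B] (δ : n → Derivation k R B)
    (hinj : Function.Injective (algebraMap R B))
    {f0 : n → R} {μ : R} (hμ : μ ∈ Algebra.adjoin k (Set.range f0))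
    (ht : ∀ h, ∃ M : ℕ, μ ^ M * h ∈ Algebra.adjoin k (Set.range f0))
    (h0 : (of fun i j => δ j (f0 i)).det ≠ 0) {m : ℕ} (f : Fin m → R)
    (hf : Algebra.adjoin k (Set.range f) = ⊤) (c : Fin m → R)
    (hc : ∀ q, ∑ i, algebraMap R B (c i) * δ q (f i) = 0) :
    ∃ (M : ℕ) (G : MvPolynomial (Fin m) k), aeval f G = 0 ∧
      ∀ i, aeval f (pderiv i G) = μ ^ M * c i := by
  let w : KaehlerDifferential k R := ∑ i, c i • dd k R (f i)
  obtain ⟨M, hM⟩ := torsion_dd hμ ht w
  obtain ⟨a, ha⟩ := (Submodule.mem_span_range_iff_exists_fun R).1 hM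
  have ha0 : (fun i => algebraMap R B (a i)) = 0 := by
    refine Matrix.eq_zero_of_vecMul_eq_zero h0 (funext fun q => ?_)
    have := congrArg (δ q).liftKaehlerDifferential ha
    simp only [w, map_sum, map_smul, Derivation.liftKaehlerDifferential_comp_D,
      Algebra.smul_def, hc, mul_zero] at this
    simpa [vecMul, dotProduct] using this
  have hw0 : μ ^ M • w = 0 := by
    rw [← ha]
    exact Finset.sum_eq_zero fun i _ => by
      rw [show a i = 0 from hinj (by simpa using congrFun ha0 i), zero_smul]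
  let P := Algebra.Generators.ofSurjective (R := k) f (by
    rw [← AlgHom.range_eq_top, ← Algebra.adjoin_range_eq_range_aeval, hf])
  let u : P.toExtension.CotangentSpace := μ ^ M • ∑ i, c i • P.cotangentSpaceBasis i
  have hu : P.toExtension.toKaehler u = 0 := by
    simp only [u, map_smul, map_sum, Algebra.Generators.toKaehler_cotangentSpaceBasis]
    exact hw0
  obtain ⟨x, hx⟩ := (P.toExtension.exact_cotangentComplex_toKaehler u).1 hu
  obtain ⟨G, rfl⟩ := Algebra.Extension.Cotangent.mk_surjective x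
  refine ⟨M, G.1, G.2, fun i => ?_⟩
  have := congrArg (fun y => P.cotangentSpaceBasis.repr y i) hx
  simp only [Algebra.Extension.cotangentComplex_mk] at this
  refine (P.cotangentSpaceBasis_repr_one_tmul G.1 i).symm.trans (this.trans ?_)
  simp [u, Finsupp.single_apply]

end OmGen

end Pool.Agent.MP_536a45_ag_b

end
end

section

/-!
The index of a matrix of power series.
-/

noncomputable section

namespace Pool.Agent.MP_536a45_ag_b

open PowerSeries Matrix Module

variable {k : Type} [Field k]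

lemma finrank_quot_ps {a : k⟦X⟧} {e : ℕ} (ha : a.order = e) :
    Nonempty ((k⟦X⟧ ⧸ Ideal.span {a}) ≃ₗ[k] (Fin e → k)) := by
  let tr : k⟦X⟧ →ₗ[k] (Fin e → k) := LinearMap.pi fun i => coeff (i : ℕ)
  have hs : Function.Surjective tr := fun c =>
    ⟨PowerSeries.mk fun i => if h : i < e then c ⟨i, h⟩ else 0, funext fun i => by simp [tr]⟩
  have hk : LinearMap.ker tr = (Ideal.span {a}).restrictScalars k := by
    ext w
    have h1 : (X : k⟦X⟧) ^ e ∣ w ↔ a ∣ w := by
      have := (X_pow_order_mul_divXPowOrder (f := a))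
      rw [ha, ENat.toNat_natCast] at this
      rw [← this]
      exact (IsUnit.mul_right_dvd (isUnit_divided_by_X_pow_order (by
        rintro rfl; simp at ha))).symm
    simp only [LinearMap.mem_ker, Submodule.restrictScalars_mem, Ideal.mem_span_singleton, ← h1,
      X_pow_dvd_iff, funext_iff, tr, LinearMap.pi_apply, Pi.zero_apply]
    exact ⟨fun h m hm => h ⟨m, hm⟩, fun h i => h i i.2⟩
  exact ⟨(Submodule.Quotient.restrictScalarsEquiv k _).symm.trans
    ((Submodule.quotEquivOfEq _ _ hk.symm).trans (tr.quotKerEquivOfSurjective hs))⟩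

variable {n : Type} [Fintype n] [DecidableEq n]

lemma finrank_coker {D : Matrix n n k⟦X⟧} {e : ℕ} (hD : D.det.order = e) :
    finrank k ((n → k⟦X⟧) ⧸ LinearMap.range D.mulVecLin) = e := by
  have h0 : D.det ≠ 0 := by rintro h; simp [h] at hD
  have hinj : Function.Injective D.mulVecLin := (injective_iff_map_eq_zero _).2 fun v hv =>
    Matrix.eq_zero_of_mulVec_eq_zero h0 hv
  let E := LinearEquiv.ofInjective _ hinj
  have h : finrank k⟦X⟧ (LinearMap.range D.mulVecLin) = finrank k⟦X⟧ (n → k⟦X⟧) :=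
    E.symm.finrank_eq
  let b := Pi.basisFun k⟦X⟧ n
  let a := Submodule.smithNormalFormCoeffs b h
  let b' := Submodule.smithNormalFormTopBasis b h
  let ab := Submodule.smithNormalFormBotBasis b h
  have ha0 : ∀ i, a i ≠ 0 := Submodule.smithNormalFormCoeffs_ne_zero b h
  have hdet : Associated D.det (∏ i, a i) := by
    have h1 := LinearMap.associated_det_comp_equiv (LinearMap.range D.mulVecLin).subtype E
      (b'.equiv ab (Equiv.refl _))
    have h2 : (LinearMap.range D.mulVecLin).subtype ∘ₗ E.toLinearMap = D.mulVecLin := rfl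
    have h3 : (LinearMap.range D.mulVecLin).subtype ∘ₗ (b'.equiv ab (Equiv.refl _)).toLinearMap =
        Matrix.toLin b' b' (diagonal a) := b'.ext fun i => by
      simp [ab, a, b', Matrix.toLin_self, diagonal_apply]
    rwa [h2, h3, LinearMap.det_toLin, det_diagonal, ← Matrix.toLin'_apply',
      LinearMap.det_toLin'] at h1
  have ha : ∀ i, (a i).order = ((a i).order.toNat : ℕ) := fun i => (coe_toNat_order (ha0 i)).symm
  have hF := fun i => (finrank_quot_ps (ha i)).some
  have : ∀ i, Module.Finite k (k⟦X⟧ ⧸ Ideal.span {a i}) := fun i => Module.Finite.equiv (hF i).symm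
  rw [Submodule.finrank_quotient_eq_sum k b h]
  have h4 : ∀ i, finrank k (k⟦X⟧ ⧸ Ideal.span {a i}) = (a i).order.toNat := fun i => by
    rw [(hF i).finrank_eq]; simp
  have h5 : D.det.order = (∏ i, a i).order := by
    obtain ⟨u, hu⟩ := hdet
    rw [← hu, order_mul, order_zero_of_unit u.isUnit, add_zero]
  rw [hD, order_prod, Finset.sum_congr rfl fun i _ => ha i] at h5
  exact (Finset.sum_congr rfl fun i _ => h4 i).trans (by exact_mod_cast h5.symm)

/-- Polynomial lift of a truncated vector. -/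
def liftP (T : ℕ) : (n × Fin T → k) →ₗ[k] n → k⟦X⟧ :=
  LinearMap.pi fun q => ∑ i : Fin T, (monomial (i : ℕ)).comp (LinearMap.proj (q, i))

omit [Fintype n] [DecidableEq n] in
lemma coeff_liftP {T : ℕ} (η : n × Fin T → k) (q : n) (i : ℕ) :
    coeff i (liftP T η q) = if h : i < T then η (q, ⟨i, h⟩) else 0 := by
  simp only [liftP, LinearMap.pi_apply, LinearMap.sum_apply, LinearMap.comp_apply,
    LinearMap.proj_apply, map_sum, coeff_monomial]
  split_ifs with h
  · rw [Finset.sum_eq_single ⟨i, h⟩]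
    · simp
    · intro j _ hj; exact if_neg fun h' => hj (Fin.ext h'.symm)
    · simp
  · exact Finset.sum_eq_zero fun j _ => if_neg fun (h' : i = j) => h (h' ▸ j.2)

def trP (T : ℕ) : (n → k⟦X⟧) →ₗ[k] n × Fin T → k :=
  LinearMap.pi fun p => (coeff (p.2 : ℕ)).comp (LinearMap.proj p.1)

omit [Fintype n] [DecidableEq n] in
lemma trP_apply (T : ℕ) (w : n → k⟦X⟧) (p : n × Fin T) : trP T w p = coeff p.2 (w p.1) := rfl

omit [Fintype n] [DecidableEq n] in
lemma trP_liftP (T : ℕ) (η : n × Fin T → k) : trP T (liftP T η) = η := by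
  ext p; simp [trP_apply, coeff_liftP]

omit [Fintype n] [DecidableEq n] in
lemma trP_eq_zero {T : ℕ} {w : n → k⟦X⟧} : trP T w = 0 ↔ ∃ w', w = (X : k⟦X⟧) ^ T • w' := by
  constructor
  · intro h
    choose w' hw' using fun q => (X_pow_dvd_iff (φ := w q) (n := T)).2 fun m hm =>
      congrFun h (q, ⟨m, hm⟩)
    exact ⟨w', funext hw'⟩
  · rintro ⟨w', rfl⟩
    ext p
    exact X_pow_dvd_iff.1 (dvd_mul_right _ _) _ p.2.2

theorem finrank_index {D : Matrix n n k⟦X⟧} {e T : ℕ} (hD : D.det.order = e) (hT : e ≤ T) :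
    finrank k (LinearMap.ker (trP T ∘ₗ D.mulVecLin.restrictScalars k ∘ₗ liftP T)) = e := by
  set Φ := trP T ∘ₗ D.mulVecLin.restrictScalars k ∘ₗ liftP T
  have h1 := Φ.finrank_range_add_finrank_ker
  have h2 := (LinearMap.range Φ).finrank_quotient_add_finrank
  rw [← finrank_coker hD]
  let π := (LinearMap.range Φ).mkQ ∘ₗ trP T
  have hs : Function.Surjective π := (Submodule.mkQ_surjective _).comp fun η => ⟨_, trP_liftP T η⟩
  have hk : LinearMap.ker π = (LinearMap.range D.mulVecLin).restrictScalars k := by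
    ext w
    simp only [π, LinearMap.mem_ker, LinearMap.comp_apply, Submodule.mkQ_apply,
      Submodule.Quotient.mk_eq_zero, LinearMap.mem_range, Submodule.restrictScalars_mem,
      mulVecLin_apply]
    constructor
    · rintro ⟨η, hη⟩
      obtain ⟨w', hw'⟩ := trP_eq_zero.1 (show trP T (w - D *ᵥ liftP T η) = 0 by
        rw [map_sub, ← hη]; exact sub_self _)
      obtain ⟨c, hc⟩ : D.det ∣ (X : k⟦X⟧) ^ T := by
        have := (X_pow_order_mul_divXPowOrder (f := D.det))
        rw [hD, ENat.toNat_natCast] at this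
        rw [← this]
        exact (IsUnit.mul_right_dvd (isUnit_divided_by_X_pow_order (by
          intro h; simp [h] at hD))).2 (pow_dvd_pow _ hT)
      refine ⟨liftP T η + c • D.adjugate *ᵥ w', ?_⟩
      rw [mulVec_add, mulVec_smul, mulVec_mulVec, mul_adjugate, smul_mulVec, one_mulVec, smul_smul,
        mul_comm, ← hc, ← hw', add_sub_cancel]
    · rintro ⟨w', rfl⟩
      refine ⟨trP T w', ?_⟩
      obtain ⟨w'', hw''⟩ := trP_eq_zero.1 (show trP T (liftP T (trP T w') - w') = 0 by
        rw [map_sub, trP_liftP, sub_self])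
      rw [← sub_eq_zero]
      change trP T (D *ᵥ _) - _ = 0
      rw [← map_sub, ← mulVec_sub, hw'', mulVec_smul]
      exact trP_eq_zero.2 ⟨_, rfl⟩
  have h3 := ((Submodule.Quotient.restrictScalarsEquiv k _).symm.trans
    ((Submodule.quotEquivOfEq _ _ hk.symm).trans (π.quotKerEquivOfSurjective hs))).finrank_eq
  omega

end Pool.Agent.MP_536a45_ag_b

end
end

section

/-!
Stable cylinders have a well defined measure; convergence in the completion.
-/

noncomputable section

namespace Pool.Agent.MP_536a45_ag_b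

open MvPolynomial Filter Topology

variable {k : Type} [Field k] {b : Bool} {ρ : ℕ}

section
variable {R : Type} [CommRing R] [Algebra k R] {m : ℕ}

lemma cut_jet (f : Fin m → R) (n : ℕ) (γ : R →ₐ[k] PowerSeries k) :
    cut (jet f (n + 1) γ) = jet f n γ := by
  ext p; simp [cut, jet]

lemma IsStable.cls_succ {δ : Type} [Finite δ] {f : Fin m → R} {A : Set (R →ₐ[k] PowerSeries k)}
    {n₀ n : ℕ} (h : IsStable δ f A n₀) (hn : n₀ ≤ n) :
    cls b (jet f (n + 1) '' A) =
      cls b (jet f n '' A) * cls b (Set.univ : Set (Unit → k)) ^ Nat.card δ := by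
  obtain ⟨-, -, s, hs, hd, hU, hS⟩ := h n hn
  lift s to Finset (Set (Fin m × Fin (n + 1) → k)) using hs
  have h1 : jet f (n + 1) '' A = ⋃ S ∈ s, (jet f (n + 1) '' A ∩ cut ⁻¹' S) := by
    ext z
    simp only [Set.mem_iUnion, Set.mem_inter_iff, Set.mem_preimage, exists_prop]
    refine ⟨fun hz => ?_, fun ⟨S, _, h, _⟩ => h⟩
    obtain ⟨γ, hγ, rfl⟩ := hz
    have : cut (jet f (n + 1) γ) ∈ ⋃₀ (s : Set (Set _)) := by
      rw [hU, cut_jet]; exact ⟨γ, hγ, rfl⟩
    obtain ⟨S, hS, h⟩ := this
    exact ⟨S, hS, ⟨γ, hγ, rfl⟩, h⟩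
  have h2 : jet f n '' A = ⋃ S ∈ s, S := by rw [← hU, Set.sUnion_eq_biUnion]; rfl
  rw [h1, cls_biUnion, h2, cls_biUnion _ _ (fun S hS' => (hS S hS').1.isCons) hd]
  · refine (Finset.sum_congr rfl fun S hS' => ?_).trans (Finset.sum_mul _ _ _).symm
    obtain ⟨hLC, φ, hφ, -⟩ := hS S hS'
    rw [cls_iso hφ, cls_prod hLC.isCons isCons_univ, cls_univ]
  · intro S hS'
    obtain ⟨-, φ, hφ, -⟩ := hS S hS'
    exact hφ.1.isCons
  · intro S hS S' hS' hne
    exact ((hd hS hS' hne).preimage cut).mono Set.inter_subset_right Set.inter_subset_right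

lemma IsStable.cl_eq {δ : Type} [Finite δ] {f : Fin m → R} {A : Set (R →ₐ[k] PowerSeries k)}
    {n₀ n : ℕ} (h : IsStable δ f A n₀) (hn : n₀ ≤ n) (a : ℤ) :
    cl b ρ (jet f n '' A) (ρ * (a - n * Nat.card δ)) =
      cl b ρ (jet f n₀ '' A) (ρ * (a - n₀ * Nat.card δ)) := by
  induction n, hn using Nat.le_induction with
  | base => rfl
  | succ n hn ih =>
    rw [← ih, Pool.Agent.MP_536a45_ag_b.cl_eq, Pool.Agent.MP_536a45_ag_b.cl_eq, h.cls_succ hn]
    simp only [map_mul, map_pow, mkM_lef]
    rw [mul_assoc, ← map_pow, ← map_mul, LaurentPolynomial.T_pow, ← LaurentPolynomial.T_add]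
    congr 3
    push_cast; ring

end

lemma nhds_basis : (𝓝 (0 : Mot k b ρ)).HasBasis (fun _ => True) fun s : ℤ => Fil k b ρ s :=
  RingSubgroupsBasis.hasBasis_nhds_zero (B := Fil k b ρ) (fil_basis k b ρ)

lemma summable_of_Fil (t : ℕ → Mot k b ρ) (h : ∀ s, ∀ᶠ a in atTop, t a ∈ Fil k b ρ s) :
    Summable fun a => (t a : MotHat k b ρ) := by
  refine NonarchimedeanAddGroup.summable_of_tendsto_cofinite_zero ?_
  rw [Nat.cofinite_eq_atTop]
  have : Tendsto t atTop (𝓝 0) := nhds_basis.tendsto_right_iff.2 fun s _ => h s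
  have h2 := ((UniformSpace.Completion.continuous_coe (Mot k b ρ)).tendsto 0).comp this
  rwa [UniformSpace.Completion.coe_zero] at h2

lemma tendsto_zero_of_coe {x : ℕ → Mot k b ρ}
    (h : Tendsto (fun a => (x a : MotHat k b ρ)) atTop (𝓝 0)) (s : ℤ) :
    ∀ᶠ a in atTop, x a ∈ Fil k b ρ s := by
  have : Tendsto x atTop (𝓝 0) := by
    rw [(UniformSpace.Completion.isUniformInducing_coe (Mot k b ρ)).isInducing.tendsto_nhds_iff,
      UniformSpace.Completion.coe_zero]
    exact h
  exact nhds_basis.tendsto_right_iff.1 this s trivial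

lemma coe_aeval (x : Mot k b ρ) (P : Polynomial ℤ) :
    P.eval₂ (Int.castRingHom _) (x : MotHat k b ρ) =
      ((P.eval₂ (Int.castRingHom _) x : Mot k b ρ) : MotHat k b ρ) := by
  have := Polynomial.hom_eval₂ P (Int.castRingHom _)
    (UniformSpace.Completion.coeRingHom (α := Mot k b ρ)) x
  rw [Subsingleton.elim (RingHom.comp _ _) (Int.castRingHom _)] at this
  exact this.symm

lemma of_isRatFun {t : ℕ → Mot k b ρ} {M : MotHat k b ρ} {j : ℤ}
    (h : HasSum (fun a => (t a : MotHat k b ρ)) M) (hM : IsRatFun b ρ j M) :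
    (∀ s, (1 : Mot k b ρ) ∈ Fil k b ρ s) ∨ ∃ P Q : Polynomial ℤ, Q ≠ 0 ∧ ∀ s, ∀ᶠ A in atTop,
      Q.eval₂ (Int.castRingHom _) (cl b ρ (Set.univ : Set (Empty → k)) j) *
        ∑ a ∈ Finset.range A, t a -
        P.eval₂ (Int.castRingHom _) (cl b ρ (Set.univ : Set (Empty → k)) j) ∈ Fil k b ρ s := by
  obtain ⟨P, Q, hu, hM⟩ := hM
  by_cases hQ : Q = 0
  · left
    intro s
    have : (1 : MotHat k b ρ) = 0 := by
      have hu := hu.resolve_right (not_not.2 hQ)
      rw [hQ, Polynomial.eval₂_zero, isUnit_zero_iff] at hu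
      exact hu.symm
    refine (tendsto_zero_of_coe (x := fun _ => 1) ?_ s).exists.choose_spec
    rw [UniformSpace.Completion.coe_one, this]
    exact tendsto_const_nhds
  right
  refine ⟨P, Q, hQ, fun s => tendsto_zero_of_coe ?_ s⟩
  have h1 := (h.tendsto_sum_nat.const_mul (Q.eval₂ (Int.castRingHom _)
    ((cl b ρ (Set.univ : Set (Empty → k)) j : Mot k b ρ) : MotHat k b ρ))).sub_const
    (P.eval₂ (Int.castRingHom _)
    ((cl b ρ (Set.univ : Set (Empty → k)) j : Mot k b ρ) : MotHat k b ρ))
  rw [hM, sub_self] at h1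
  refine h1.congr fun A => ?_
  rw [UniformSpace.Completion.coe_sub, UniformSpace.Completion.coe_mul, ← coe_aeval, ← coe_aeval]
  congr 2
  exact (map_sum (UniformSpace.Completion.coeRingHom (α := Mot k b ρ)) _ _).symm

end Pool.Agent.MP_536a45_ag_b

end
end
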