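import Pool.Agent.MP_536a45_ag_b.Dim
import Pool.Agent.MP_536a45_ag_b.Defs1

section

/-!
Frobenius fixed points in the algebraic closure of the field with two elements.
-/

noncomputable section

namespace Pool.Agent.MP_536a45_ag_b

open MvPolynomial Filter

abbrev K : Type := AlgebraicClosure (ZMod 2)

def fr (j : ℕ) : K →+* K := iterateFrobenius K 2 j.factorial

def qq (j : ℕ) : ℕ := 2 ^ j.factorial

lemma fr_apply (j : ℕ) (x : K) : fr j x = x ^ qq j := rfl

lemma two_le_qq (j : ℕ) : 2 ≤ qq j := by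
  have := Nat.factorial_pos j
  calc 2 = 2 ^ 1 := rfl
    _ ≤ 2 ^ j.factorial := Nat.pow_le_pow_right (by norm_num) this

def Fq (j : ℕ) : Set K := {x | fr j x = x}

lemma Fq_eq (j : ℕ) : Fq j = (Polynomial.X ^ 2 ^ j.factorial - Polynomial.X : Polynomial K).rootSet K := by
  ext x
  rw [Polynomial.mem_rootSet_of_ne
    (FiniteField.X_pow_card_pow_sub_X_ne_zero K (Nat.factorial_ne_zero j) one_lt_two)]
  simp [Fq, fr_apply, qq, sub_eq_zero]

lemma finite_Fq (j : ℕ) : (Fq j).Finite := by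
  rw [Fq_eq]; exact Polynomial.rootSet_finite _ _

lemma ncard_Fq (j : ℕ) : (Fq j).ncard = qq j := by
  rw [Fq_eq, ← Nat.card_coe_set_eq, Nat.card_eq_fintype_card, Polynomial.card_rootSet_eq_natDegree
    (galois_poly_separable 2 _ (dvd_pow_self 2 (Nat.factorial_ne_zero j))) (IsAlgClosed.splits _),
    FiniteField.X_pow_card_pow_sub_X_natDegree_eq K (Nat.factorial_ne_zero j) one_lt_two]
  rfl

lemma ev_fix (x : K) : ∀ᶠ j in atTop, fr j x = x := by
  have hx : IsIntegral (ZMod 2) x := Algebra.IsIntegral.isIntegral x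
  let F := IntermediateField.adjoin (ZMod 2) {x}
  have : FiniteDimensional (ZMod 2) F := IntermediateField.adjoin.finiteDimensional hx
  have : Finite F := Module.finite_of_finite (ZMod 2)
  have := Fintype.ofFinite F
  have hc : Fintype.card F = 2 ^ Module.finrank (ZMod 2) F := by
    rw [Module.card_eq_pow_finrank (K := ZMod 2), ZMod.card]
  have hpos : 0 < Module.finrank (ZMod 2) F := Module.finrank_pos
  filter_upwards [eventually_ge_atTop (Module.finrank (ZMod 2) F)] with j hj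
  obtain ⟨c, hc'⟩ := Nat.dvd_factorial hpos hj
  have := FiniteField.pow_card_pow c (⟨x, IntermediateField.mem_adjoin_simple_self _ x⟩ : F)
  rw [hc, ← pow_mul, ← hc'] at this
  exact congrArg Subtype.val this

variable {ι κ : Type}

lemma ev_fix_poly (p : MvPolynomial ι K) : ∀ᶠ j in atTop, MvPolynomial.map (fr j) p = p := by
  have : ∀ᶠ j in atTop, ∀ m ∈ p.support, fr j (p.coeff m) = p.coeff m :=
    (eventually_all_finset _).2 fun m _ => ev_fix _
  filter_upwards [this] with j hj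
  ext m
  rw [coeff_map]
  by_cases hm : m ∈ p.support
  · exact hj m hm
  · rw [notMem_support_iff.1 hm, map_zero]

lemma fr_aeval {j : ℕ} {p : MvPolynomial ι K} (hp : MvPolynomial.map (fr j) p = p) (z : ι → K) :
    aeval (fr j ∘ z) p = fr j (aeval z p) := by
  conv_lhs => rw [← hp]
  rw [aeval_eq_eval, aeval_eq_eval, MvPolynomial.eval_map, ← MvPolynomial.eval₂_id,
    MvPolynomial.eval₂_comp_left]
  rfl

/-- Frobenius fixed points. -/
def fixs (j : ℕ) (ι : Type) : Set (ι → K) := {z | fr j ∘ z = z}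

lemma fixs_eq (j : ℕ) : fixs j ι = Set.univ.pi fun _ => Fq j := by
  ext z; simp [fixs, Fq, funext_iff]

lemma finite_fixs [Finite ι] (j : ℕ) : (fixs j ι).Finite := by
  rw [fixs_eq]; exact Set.Finite.pi fun _ => finite_Fq j

lemma ncard_fixs [Finite ι] (j : ℕ) : (fixs j ι).ncard = qq j ^ Nat.card ι := by
  have := Fintype.ofFinite ι
  rw [fixs_eq, ← Nat.card_coe_set_eq, Nat.card_congr (Equiv.Set.univPi _), Nat.card_pi]
  simp [ncard_Fq]

/-- The number of Frobenius fixed points. -/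
def cnt (j : ℕ) (C : Set (ι → K)) : ℕ := (C ∩ fixs j ι).ncard

lemma IsCons.ev_stable [Finite ι] {C : Set (ι → K)} (hC : IsCons C) :
    ∀ᶠ j in atTop, ∀ z ∈ C, fr j ∘ z ∈ C := by
  obtain ⟨P, hP, hS⟩ := hC.exists_sat
  filter_upwards [(eventually_all_finite hP).2 fun p _ => ev_fix_poly p] with j hj z hz
  refine hS z _ (fun p hp => ?_) hz
  rw [fr_aeval (hj p hp), map_eq_zero (fr j)]

lemma IsReg.ev_comm [Finite ι] [Finite κ] {C : Set (ι → K)} {φ : (ι → K) → κ → K}
    (h : IsReg C φ) (hC : IsCons C) :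
    ∀ᶠ j in atTop, ∀ z ∈ C, φ (fr j ∘ z) = fr j ∘ φ z := by
  choose! p q hq hpq using h
  obtain ⟨s, hs, hspan⟩ := (Submodule.fg_span_iff_fg_span_finset_subset (q '' C)).1
    (IsNoetherian.noetherian (Submodule.span (MvPolynomial ι K) (q '' C)))
  choose! x hx hxq using fun r (hr : r ∈ s) => hs hr
  have h1 : ∀ᶠ j in atTop, ∀ r ∈ s, MvPolynomial.map (fr j) r = r ∧
      ∀ i, MvPolynomial.map (fr j) (p (x r) i) = p (x r) i :=
    (eventually_all_finset _).2 fun r _ =>
      (ev_fix_poly r).and (eventually_all.2 fun i => ev_fix_poly _)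
  filter_upwards [h1, hC.ev_stable] with j hj hst z hz
  obtain ⟨r, hr, hrz⟩ : ∃ r ∈ s, aeval z r ≠ 0 := by
    by_contra! h
    have : q z ∈ Submodule.span (MvPolynomial ι K) (s : Set (MvPolynomial ι K)) :=
      hspan ▸ Submodule.subset_span ⟨z, hz, rfl⟩
    have h2 : z ∈ zeroLocus K (Ideal.span (s : Set (MvPolynomial ι K))) := by
      rw [zeroLocus_span]; exact h
    exact hq z hz (h2 _ this)
  have hr' : q (x r) = r := hxq r hr
  ext i
  have e1 := hpq (x r) (hx r hr) z hz (by rwa [hr']) i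
  have e2 := hpq (x r) (hx r hr) _ (hst z hz) (by
    rw [hr', fr_aeval (hj r hr).1]; simpa using hrz) i
  rw [e2, Function.comp_apply, e1, hr', fr_aeval (hj r hr).1, fr_aeval ((hj r hr).2 i), map_div₀]

lemma cnt_le_of_dimLE [Finite ι] {C : Set (ι → K)} {D : ℕ} (h : DimLE C D) :
    ∃ c : ℕ, ∀ᶠ j in atTop, cnt j C ≤ c * qq j ^ D := by
  classical
  rcases C.eq_empty_or_nonempty with rfl | hC
  · exact ⟨0, by simp [cnt]⟩
  obtain ⟨s, hs, y, hy⟩ := h.exists_finOver hC
  choose P hP hP' using hy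
  have := Fintype.ofFinite ι
  refine ⟨∏ i, (P i).natDegree, ?_⟩
  filter_upwards [eventually_all.2 fun i => ev_fix_poly (y i)] with j hj
  have hf : (C ∩ fixs j ι).Finite := (finite_fixs j).inter_of_right _
  have := Finset.card_le_mul_card_image_of_maps_to (f := pmap y) (s := hf.toFinset)
    (t := (finite_fixs (ι := Fin s) j).toFinset) (fun z hz => by
      simp only [Set.Finite.mem_toFinset] at hz ⊢
      ext i
      rw [Function.comp_apply, pmap, ← fr_aeval (hj i), hz.2]) (∏ i, (P i).natDegree)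
    (fun w _ => by
      refine (Finset.card_le_card (t := Fintype.piFinset fun i =>
        ((P i).map (aeval w : MvPolynomial (Fin s) K →ₐ[K] K).toRingHom).roots.toFinset)
        fun z hz => ?_).trans ?_
      · simp only [Finset.mem_filter, Set.Finite.mem_toFinset] at hz
        simp only [Fintype.mem_piFinset, Multiset.mem_toFinset]
        intro i
        rw [Polynomial.mem_roots ((hP i).map _).ne_zero, Polynomial.IsRoot, Polynomial.eval_map,
          ← hz.2]
        exact hP' i z hz.1.1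
      · rw [Fintype.card_piFinset]
        refine Finset.prod_le_prod' fun i _ => (Multiset.toFinset_card_le _).trans
          ((Polynomial.card_roots' _).trans Polynomial.natDegree_map_le))
  rw [← Set.ncard_eq_toFinset_card _ hf, ← Set.ncard_eq_toFinset_card _ (finite_fixs j),
    ncard_fixs] at this
  refine this.trans (Nat.mul_le_mul_left _ (Nat.pow_le_pow_right ?_ (by simpa using hs)))
  have := two_le_qq j; omega

/-- Pivot coordinates of a subspace. -/
lemma exists_pivot {k : Type} [Field k] [Fintype ι] (W : Submodule k (ι → k)) :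
    ∃ E : Finset ι, E.card = Module.finrank k W ∧ (∀ w ∈ W, (∀ i ∈ E, w i = 0) → w = 0) ∧
      ∀ c : ι → k, ∃ w ∈ W, ∀ i ∈ E, w i = c i := by
  classical
  obtain ⟨E, hE, hmin⟩ := exists_minimal_of_wellFoundedLT
    (fun E : Finset ι => ∀ w ∈ W, (∀ i ∈ E, w i = 0) → w = 0)
    ⟨Finset.univ, fun w _ h => funext fun i => h i (Finset.mem_univ i)⟩
  have hsingle : ∀ i ∈ E, ∃ w ∈ W, w i = 1 ∧ ∀ i' ∈ E, i' ≠ i → w i' = 0 := by
    intro i hi
    have : ¬ ∀ w ∈ W, (∀ i' ∈ E.erase i, w i' = 0) → w = 0 := fun h =>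
      (Finset.notMem_erase i E) (hmin h (Finset.erase_subset i E) hi)
    push Not at this
    obtain ⟨w, hw, h0, hne⟩ := this
    have hwi : w i ≠ 0 := fun h => hne (hE w hw fun i' hi' => by
      by_cases h' : i' = i
      · rw [h', h]
      · exact h0 i' (Finset.mem_erase.2 ⟨h', hi'⟩))
    refine ⟨(w i)⁻¹ • w, W.smul_mem _ hw, by simp [hwi], fun i' hi' h' => ?_⟩
    simp [h0 i' (Finset.mem_erase.2 ⟨h', hi'⟩)]
  choose! w hw hw1 hw0 using hsingle
  have hsurj : ∀ c : ι → k, ∃ w ∈ W, ∀ i ∈ E, w i = c i := by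
    intro c
    refine ⟨∑ i ∈ E, c i • w i, W.sum_mem fun i hi => W.smul_mem _ (hw i hi), fun i hi => ?_⟩
    rw [Finset.sum_apply, Finset.sum_eq_single i]
    · simp [hw1 i hi]
    · intro i' hi' h; simp [hw0 i' hi' i hi h.symm]
    · exact fun h => absurd hi h
  refine ⟨E, ?_, hE, hsurj⟩
  let f : W →ₗ[k] (E → k) := (LinearMap.funLeft k k Subtype.val).comp W.subtype
  have hf : Function.Bijective f := by
    refine ⟨(injective_iff_map_eq_zero f).2 fun x hx => Subtype.ext
      (hE x x.2 fun i hi => congrFun hx ⟨i, hi⟩), fun c => ?_⟩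
    obtain ⟨w, hw, h⟩ := hsurj fun i => if h : i ∈ E then c ⟨i, h⟩ else 0
    exact ⟨⟨w, hw⟩, funext fun i => by simpa [f, i.2] using h i i.2⟩
  rw [(LinearEquiv.ofBijective f hf).finrank_eq]
  simp

/-- Fixed points in a Frobenius stable affine subspace. -/
lemma cnt_affine [Fintype ι] (j : ℕ) (W : Submodule K (ι → K)) (z : ι → K)
    (h : ∀ y, y - z ∈ W → fr j ∘ y - z ∈ W) :
    cnt j {y | y - z ∈ W} = qq j ^ Module.finrank K W := by
  classical
  obtain ⟨E, hE, hinj, hsurj⟩ := exists_pivot W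
  have : qq j ^ Module.finrank K W = (fixs j E).ncard := by rw [ncard_fixs, ← hE]; simp
  rw [this]
  have hinj' : ∀ y y', y - z ∈ W → y' - z ∈ W → (∀ i ∈ E, y i = y' i) → y = y' := by
    intro y y' hy hy' he
    have := hinj _ (W.sub_mem hy hy') fun i hi => by simp [he i hi]
    simpa [sub_eq_zero] using this
  refine Set.ncard_congr (fun y _ => y ∘ Subtype.val) (fun y hy => ?_) (fun y y' hy hy' he => ?_)
    (fun c hc => ?_)
  · ext i; exact congrFun hy.2 i
  · exact hinj' y y' hy.1 hy'.1 fun i hi => congrFun he ⟨i, hi⟩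
  · obtain ⟨w, hw, hw'⟩ := hsurj fun i => (if h : i ∈ E then c ⟨i, h⟩ else 0) - z i
    have h1 : w + z - z ∈ W := by simpa using hw
    have h2 : ∀ i (hi : i ∈ E), (w + z) i = c ⟨i, hi⟩ := fun i hi => by simp [hw' i hi, hi]
    refine ⟨w + z, ⟨h1, hinj' _ _ (h _ h1) h1 fun i hi => ?_⟩, funext fun i => h2 i i.2⟩
    rw [Function.comp_apply, h2 i hi]
    exact congrFun hc ⟨i, hi⟩

end Pool.Agent.MP_536a45_ag_b

end
end

section

/-!
Hahn series with rational exponents over `K`.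
-/

noncomputable section

namespace Pool.Agent.MP_536a45_ag_b

open HahnSeries

instance (priority := high) algH {A : Type} [CommRing A] [Algebra K A] :
    Algebra K (HahnSeries ℚ A) := HahnSeries.instAlgebra

abbrev H : Type := HahnSeries ℚ K

lemma two_K : (2 : K) = 0 := CharTwo.two_eq_zero

lemma two_alg (A : Type) [CommRing A] [Algebra K A] : (2 : A) = 0 := by
  rw [← map_ofNat (algebraMap K A) 2, two_K, map_zero]

lemma add_self_alg {A : Type} [CommRing A] [Algebra K A] (x : A) : x + x = 0 := by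
  rw [← two_mul, two_alg, zero_mul]

lemma algebraMap_H (c : K) : algebraMap K H c = single 0 c := rfl

/-- Order at least `s`. -/
def Ge (s : ℚ) (z : H) : Prop := ∀ γ < s, z.coeff γ = 0

/-- Order at most `s`. -/
def Le (s : ℚ) (z : H) : Prop := ∃ γ ≤ s, z.coeff γ ≠ 0

lemma ge_iff {s : ℚ} {z : H} : Ge s z ↔ (s : WithTop ℚ) ≤ z.orderTop := by
  simp [Ge, le_orderTop_iff_forall]

lemma le_iff {s : ℚ} {z : H} : Le s z ↔ z.orderTop ≤ s := by
  constructor
  · rintro ⟨γ, h, h'⟩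
    exact (orderTop_le_of_coeff_ne_zero h').trans (by exact_mod_cast h)
  · intro h
    obtain ⟨γ, hγ⟩ := WithTop.ne_top_iff_exists.1 (ne_top_of_le_ne_top WithTop.coe_ne_top h)
    exact ⟨γ, by rw [← hγ] at h; exact_mod_cast h, coeff_orderTop_ne hγ.symm⟩

lemma Ge.mono {s t : ℚ} {z : H} (h : Ge s z) (ht : t ≤ s) : Ge t z :=
  fun γ hγ => h γ (hγ.trans_le ht)

lemma Le.mono {s t : ℚ} {z : H} (h : Le s z) (ht : s ≤ t) : Le t z :=
  let ⟨γ, h1, h2⟩ := h; ⟨γ, h1.trans ht, h2⟩

lemma ge_zero (s : ℚ) : Ge s 0 := fun _ _ => rfl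

lemma Ge.add {s : ℚ} {z w : H} (h : Ge s z) (h' : Ge s w) : Ge s (z + w) :=
  fun γ hγ => by simp [h γ hγ, h' γ hγ]

lemma Ge.neg {s : ℚ} {z : H} (h : Ge s z) : Ge s (-z) := fun γ hγ => by simp [h γ hγ]

lemma Ge.sub {s : ℚ} {z w : H} (h : Ge s z) (h' : Ge s w) : Ge s (z - w) :=
  fun γ hγ => by simp [h γ hγ, h' γ hγ]

lemma Ge.sum {s : ℚ} {α : Type*} {t : Finset α} {z : α → H} (h : ∀ a ∈ t, Ge s (z a)) :
    Ge s (∑ a ∈ t, z a) :=
  Finset.sum_induction _ _ (fun _ _ => Ge.add) (ge_zero s) h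

lemma Ge.mul {s t : ℚ} {z w : H} (h : Ge s z) (h' : Ge t w) : Ge (s + t) (z * w) := by
  rw [ge_iff] at *
  rw [orderTop_mul, WithTop.coe_add]
  exact add_le_add h h'

lemma Ge.mul_left {s : ℚ} {z w : H} (h : Ge 0 z) (h' : Ge s w) : Ge s (z * w) := by
  simpa using h.mul h'

lemma Ge.mul_right {s : ℚ} {z w : H} (h : Ge s z) (h' : Ge 0 w) : Ge s (z * w) := by
  simpa using h.mul h'

lemma Le.mul {s t : ℚ} {z w : H} (h : Le s z) (h' : Le t w) : Le (s + t) (z * w) := by
  rw [le_iff] at *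
  rw [orderTop_mul, WithTop.coe_add]
  exact add_le_add h h'

lemma Le.ne_zero {s : ℚ} {z : H} (h : Le s z) : z ≠ 0 := by
  rintro rfl
  obtain ⟨γ, -, h⟩ := h
  exact h rfl

lemma Ge.not_le {s t : ℚ} {z : H} (h : Ge s z) (ht : t < s) : ¬ Le t z :=
  fun ⟨γ, h1, h2⟩ => h2 (h γ (h1.trans_lt ht))

lemma Ge.le_of_le {s t : ℚ} {z : H} (h : Ge s z) (h' : Le t z) : s ≤ t :=
  not_lt.1 fun ht => h.not_le ht h'

lemma ge_of_not_le {s : ℚ} {z : H} (h : ¬ Le s z) : Ge s z :=
  fun γ hγ => by_contra fun h' => h ⟨γ, hγ.le, h'⟩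

lemma Ge.of_mul {s e : ℚ} {c z : H} (h : Ge s (c * z)) (hc : Le e c) : Ge (s - e) z := by
  intro γ hγ
  by_contra h'
  exact h.not_le (by linarith) (hc.mul ⟨γ, le_rfl, h'⟩)

lemma Le.add_ge {s t : ℚ} {z w : H} (h : Le s z) (h' : Ge t w) (hst : s < t) : Le s (z + w) := by
  obtain ⟨γ, h1, h2⟩ := h
  exact ⟨γ, h1, by simpa [h' γ (h1.trans_lt hst)] using h2⟩

lemma Le.of_sub {s t : ℚ} {z w : H} (h : Le s z) (h' : Ge t (w - z)) (hst : s < t) : Le s w := by
  simpa using h.add_ge h' hst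

lemma Le.of_mul_right {s : ℚ} {z w : H} (h : Le s (z * w)) (hw : Ge 0 w) : Le s z := by
  rw [le_iff] at *
  rw [ge_iff] at hw
  rw [orderTop_mul] at h
  exact (le_add_of_nonneg_right hw).trans h

lemma ge_single (s : ℚ) (c : K) : Ge s (single s c) :=
  fun _ hγ => coeff_single_of_ne hγ.ne

lemma le_one : Le 0 1 := ⟨0, le_rfl, by simp⟩

lemma Le.prod {s : ℚ} {α : Type*} {t : Finset α} {z : α → H} (h : ∀ a ∈ t, Le s (z a)) :
    Le (t.card * s) (∏ a ∈ t, z a) := by
  classical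
  induction t using Finset.induction_on with
  | empty => simpa using le_one
  | insert a t ha ih =>
    rw [Finset.prod_insert ha, Finset.card_insert_of_notMem ha]
    convert (h a (by simp)).mul (ih fun b hb => h b (by simp [hb])) using 1
    push_cast; ring

lemma Le.pow {s : ℚ} {z : H} (h : Le s z) (n : ℕ) : Le (n * s) (z ^ n) := by
  simpa using Le.prod (t := Finset.range n) (z := fun _ => z) fun _ _ => h

lemma coeff_mul_of_ge {s t : ℚ} {z w : H} (h : Ge s z) (h' : Ge t w) :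
    (z * w).coeff (s + t) = z.coeff s * w.coeff t := by
  rw [coeff_mul, Finset.sum_eq_single (s, t)]
  · intro p hp hne
    simp only [Finset.mem_antidiagonal, mem_support] at hp
    have h1 : s ≤ p.1 := not_lt.1 fun h1 => hp.1 (h _ h1)
    have h2 : t ≤ p.2 := not_lt.1 fun h1 => hp.2.1 (h' _ h1)
    exact absurd (Prod.ext (by linarith [hp.2.2]) (by linarith [hp.2.2])) hne
  · intro h1
    simp only [Finset.mem_antidiagonal, mem_support, and_true, not_and, not_not] at h1
    by_cases h2 : z.coeff s = 0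
    · simp [h2]
    · simp [h1 h2]

instance : CharP H 2 := charP_of_injective_algebraMap (algebraMap K H).injective 2

/-- The valuation ring. -/
def OS : Subalgebra K H where
  carrier := {z | Ge 0 z}
  mul_mem' h h' := Ge.mul_left h h'
  add_mem' h h' := Ge.add h h'
  algebraMap_mem' c := ge_single 0 c

lemma mem_OS {z : H} : z ∈ OS ↔ Ge 0 z := Iff.rfl

/-- Integral exponents only. -/
def ZS : Subalgebra K H where
  carrier := {z | ∀ γ, z.coeff γ ≠ 0 → ∃ n : ℤ, γ = n}
  mul_mem' {z w} h h' γ hγ := by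
    obtain ⟨a, ha, b, hb, rfl⟩ := support_mul_subset hγ
    obtain ⟨n, rfl⟩ := h a ha
    obtain ⟨m, rfl⟩ := h' b hb
    exact ⟨n + m, by simp⟩
  add_mem' {z w} h h' γ hγ := by
    by_cases hz : z.coeff γ = 0
    · exact h' γ (by simpa [hz] using hγ)
    · exact h γ hz
  algebraMap_mem' c γ hγ := ⟨0, by
    by_contra h
    exact hγ (coeff_single_of_ne (by simpa using h))⟩

lemma mem_ZS {z : H} : z ∈ ZS ↔ ∀ γ, z.coeff γ ≠ 0 → ∃ n : ℤ, γ = n := Iff.rfl

lemma single_mem_ZS (n : ℤ) (c : K) : single (n : ℚ) c ∈ ZS := fun _ hγ =>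
  ⟨n, by_contra fun h => hγ (coeff_single_of_ne h)⟩

/-- No integral exponents. -/
def NZ (z : H) : Prop := ∀ n : ℤ, z.coeff n = 0

lemma NZ.add {z w : H} (h : NZ z) (h' : NZ w) : NZ (z + w) := fun n => by simp [h n, h' n]

lemma NZ.sub {z w : H} (h : NZ z) (h' : NZ w) : NZ (z - w) := fun n => by simp [h n, h' n]

lemma NZ.sum {α : Type*} {t : Finset α} {z : α → H} (h : ∀ a ∈ t, NZ (z a)) :
    NZ (∑ a ∈ t, z a) :=
  Finset.sum_induction _ _ (fun _ _ => NZ.add) (fun _ => rfl) h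

lemma NZ.mul {z w : H} (h : NZ z) (h' : w ∈ ZS) : NZ (z * w) := by
  intro n
  by_contra hn
  obtain ⟨a, ha, b, hb, hab⟩ := support_mul_subset hn
  obtain ⟨m, rfl⟩ := h' b hb
  have : a = ((n - m : ℤ) : ℚ) := by push_cast; exact eq_sub_of_add_eq hab
  exact ha (this ▸ h _)

lemma ge_of_add {s : ℚ} {z w : H} (hz : z ∈ ZS) (hw : NZ w) (h : Ge s (z + w)) :
    Ge s z ∧ Ge s w := by
  have h1 : Ge s z := fun γ hγ => by
    by_contra h'
    obtain ⟨n, rfl⟩ := hz γ h'
    exact h' (by simpa [hw n] using h _ hγ)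
  exact ⟨h1, by simpa using h.sub h1⟩

open Classical in
/-- The integral part. -/
def ip (z : H) : H where
  coeff γ := if ∃ n : ℤ, γ = n then z.coeff γ else 0
  isPWO_support' := z.isPWO_support.mono fun γ hγ => by
    simp only [Function.mem_support, ne_eq, ite_eq_right_iff, Classical.not_imp] at hγ
    exact hγ.2

lemma div_mem_ZS {z c : H} (hz : z ∈ ZS) (hc : c ∈ ZS) : z / c ∈ ZS := by
  rcases eq_or_ne c 0 with rfl | hc0
  · simp
  have h1 : ip (z / c) ∈ ZS := fun γ hγ => by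
    by_contra h; exact hγ (by simp only [ip]; rw [if_neg h])
  have h2 : NZ (z / c - ip (z / c)) := fun n => by
    simp only [coeff_sub, ip]; rw [if_pos ⟨n, rfl⟩, sub_self]
  have h3 : (z / c - ip (z / c)) * c = 0 := by
    have h4 : (z / c - ip (z / c)) * c ∈ ZS := by
      rw [sub_mul, div_mul_cancel₀ _ hc0]
      exact sub_mem hz (mul_mem h1 hc)
    ext γ
    by_contra h
    obtain ⟨n, rfl⟩ := h4 γ h
    exact h (h2.mul hc n)
  rw [sub_eq_zero.1 ((mul_eq_zero.1 h3).resolve_right hc0)]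
  exact h1

lemma ge_succ_of_not_le {a : ℤ} {z : H} (hz : z ∈ ZS) (h : ¬ Le a z) : Ge (a + 1) z := by
  intro γ hγ
  by_contra h'
  obtain ⟨n, rfl⟩ := hz γ h'
  exact h ⟨n, by have : n < a + 1 := by exact_mod_cast hγ
                 exact_mod_cast (by omega : n ≤ a), h'⟩

/-- Power series as Hahn series. -/
def toH : PowerSeries K →ₐ[K] H := ofPowerSeriesAlg ℚ K

lemma toH_coeff (p : PowerSeries K) (n : ℕ) : (toH p).coeff n = PowerSeries.coeff n p :=
  ofPowerSeries_apply_coeff p n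

lemma toH_coeff_ne {p : PowerSeries K} {γ : ℚ} (h : (toH p).coeff γ ≠ 0) : ∃ n : ℕ, γ = n := by
  by_contra! h'
  refine h (embDomain_of_notMem_range ?_)
  rintro ⟨n, hn⟩
  exact h' n hn.symm

lemma toH_injective : Function.Injective toH := ofPowerSeries_injective

lemma toH_mem_ZS (p : PowerSeries K) : toH p ∈ ZS := fun γ h =>
  let ⟨n, hn⟩ := toH_coeff_ne h; ⟨n, by simpa using hn⟩

lemma ge_toH_iff {p : PowerSeries K} {n : ℕ} : Ge n (toH p) ↔ (n : ℕ∞) ≤ p.order := by
  constructor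
  · intro h
    exact PowerSeries.nat_le_order _ _ fun i hi => by
      rw [← toH_coeff]; exact h _ (by exact_mod_cast hi)
  · intro h γ hγ
    by_contra h'
    obtain ⟨i, rfl⟩ := toH_coeff_ne h'
    rw [toH_coeff] at h'
    exact h' (PowerSeries.coeff_of_lt_order _ (lt_of_lt_of_le (by exact_mod_cast hγ) h))

lemma ge_toH (p : PowerSeries K) : Ge 0 (toH p) := by
  simpa using (ge_toH_iff (p := p) (n := 0)).2 (by simp)

lemma exists_toH {z : H} (hz : z ∈ ZS) (h : Ge 0 z) : ∃ p, toH p = z := by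
  refine ⟨PowerSeries.mk fun n => z.coeff n, ?_⟩
  ext γ
  by_cases hγ : ∃ n : ℕ, γ = n
  · obtain ⟨n, rfl⟩ := hγ
    simp [toH_coeff]
  · have h1 : z.coeff γ = 0 := by
      by_contra h'
      obtain ⟨n, rfl⟩ := hz γ h'
      have : 0 ≤ n := by
        by_contra hn
        exact h' (h _ (by exact_mod_cast not_le.1 hn))
      lift n to ℕ using this
      exact hγ ⟨n, by simp⟩
    rw [h1]
    by_contra h'
    exact hγ (toH_coeff_ne h')

lemma coeff_sq (z : H) (γ : ℚ) : (z ^ 2).coeff γ = z.coeff (γ / 2) ^ 2 := by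
  classical
  rw [sq, coeff_mul, ← Finset.sum_filter_add_sum_filter_not _ (fun p : ℚ × ℚ => p.1 = p.2)]
  rw [Finset.sum_involution (s := Finset.filter (fun p : ℚ × ℚ => ¬ p.1 = p.2) _)
    (fun p _ => p.swap), add_zero]
  · by_cases h : z.coeff (γ / 2) = 0
    · rw [h, zero_pow two_ne_zero]
      refine Finset.sum_eq_zero fun p hp => ?_
      simp only [Finset.mem_filter, Finset.mem_antidiagonal] at hp
      have : p.1 = γ / 2 := by linarith [hp.1.2.2, hp.2]
      rw [this, h, zero_mul]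
    · rw [Finset.sum_eq_single (γ / 2, γ / 2), sq]
      · intro p hp hne
        simp only [Finset.mem_filter, Finset.mem_antidiagonal] at hp
        exact absurd (Prod.ext (by linarith [hp.1.2.2, hp.2]) (by linarith [hp.1.2.2, hp.2])) hne
      · intro h'
        exact absurd (by simp [Finset.mem_antidiagonal, h]) h'
  · intro p _
    simp [mul_comm, CharTwo.add_self_eq_zero]
  · intro p hp _ h
    exact (Finset.mem_filter.1 hp).2 (congrArg Prod.snd h)
  · intro p hp
    simp only [Finset.mem_filter, Finset.mem_antidiagonal] at hp ⊢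
    exact ⟨⟨hp.1.2.1, hp.1.1, by simpa [add_comm] using hp.1.2.2⟩, fun h => hp.2 h.symm⟩
  · intro p _; rfl

/-- Coefficientwise ring homomorphisms. -/
def mapH {A B : Type} [CommRing A] [CommRing B] (φ : A →+* B) :
    HahnSeries ℚ A →+* HahnSeries ℚ B where
  toFun z := z.map φ
  map_one' := HahnSeries.map_one φ.toMonoidWithZeroHom
  map_mul' _ _ := HahnSeries.map_mul φ.toNonUnitalRingHom
  map_zero' := by ext; simp
  map_add' _ _ := HahnSeries.map_add φ.toAddMonoidHom

@[simp] lemma mapH_coeff {A B : Type} [CommRing A] [CommRing B] (φ : A →+* B)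
    (z : HahnSeries ℚ A) (γ : ℚ) : (mapH φ z).coeff γ = φ (z.coeff γ) := rfl

lemma mapH_single {A B : Type} [CommRing A] [CommRing B] (φ : A →+* B) (γ : ℚ) (c : A) :
    mapH φ (single γ c) = single γ (φ c) := HahnSeries.map_single φ.toZeroHom

/-- Artin-Schreier: a small value of `z ^ 2 + z`. -/
lemma as_small {s : ℚ} {z : H} (h : Ge s (z ^ 2 + z)) : Ge s z ∨ Ge s (z + 1) := by
  have e : z ^ 2 + z = z * (z + 1) := by ring
  by_cases h1 : Le 0 z
  · right
    rw [e] at h
    have := h.of_mul h1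
    rwa [sub_zero] at this
  · left
    have h2 : Le 0 (z + 1) := ⟨0, le_rfl, by
      have : z.coeff 0 = 0 := by_contra fun h => h1 ⟨0, le_rfl, h⟩
      simp [this]⟩
    rw [e, mul_comm] at h
    have := h.of_mul h2
    rwa [sub_zero] at this

end Pool.Agent.MP_536a45_ag_b

end
end

section

/-!
Artin-Schreier roots as Hahn series, and normal forms.
-/

noncomputable section

namespace Pool.Agent.MP_536a45_ag_b

open HahnSeries

/-- Square root in `K`. -/
def rt : K ≃+* K := (frobeniusEquiv K 2).symm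

lemma rt_sq (x : K) : rt x ^ 2 = x := frobeniusEquiv_symm_pow_p K 2 x

lemma rt_of_sq (x : K) : rt (x ^ 2) = x := (frobeniusEquiv K 2).symm_apply_apply x

lemma fr_rt (j : ℕ) (x : K) : fr j (rt x) = rt (fr j x) := by
  rw [← rt_of_sq (fr j (rt x)), ← map_pow, rt_sq]

def ex (b : ℕ) : ℕ ↪o ℚ :=
  OrderEmbedding.ofStrictMono (fun n => -(2 * b + 1 : ℚ) / 2 ^ (n + 1)) (by
    refine strictMono_nat_of_lt_succ fun n => ?_
    rw [neg_div, neg_div, neg_lt_neg_iff]
    gcongr <;> norm_num)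

lemma ex_apply (b n : ℕ) : ex b n = -(2 * b + 1 : ℚ) / 2 ^ (n + 1) := rfl

def root (b : ℕ) (u : K) : H :=
  embDomain (ex b) ⟨fun n => rt^[n] u, Set.isPWO_of_wellQuasiOrderedLE _⟩

lemma root_coeff (b n : ℕ) (u : K) : (root b u).coeff (ex b n) = rt^[n] u := embDomain_coeff

lemma root_coeff_zero {b : ℕ} {γ : ℚ} (h : ∀ n, ex b n ≠ γ) (u : K) : (root b u).coeff γ = 0 :=
  embDomain_of_notMem_range fun ⟨n, hn⟩ => h n hn

lemma ex_half (b n : ℕ) : ex b n / 2 = ex b (n + 1) := by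
  rw [ex_apply, ex_apply, pow_succ _ (n + 1), div_div]

lemma ex_ne_int (b n : ℕ) (z : ℤ) : ex b n ≠ z := by
  rw [ex_apply]
  intro h
  rw [div_eq_iff (by positivity), pow_succ] at h
  have : -(2 * (b : ℤ) + 1) = z * (2 ^ n * 2) := by exact_mod_cast h
  rw [← mul_assoc] at this
  omega

lemma root_sq (b : ℕ) (u : K) : root b u ^ 2 + root b u = single (-(2 * b + 1 : ℚ)) (u ^ 2) := by
  ext γ
  rw [coeff_add, coeff_sq]
  by_cases h : ∃ n, ex b n = γ / 2
  · obtain ⟨n, hn⟩ := h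
    rw [← hn, root_coeff]
    rcases n with _ | n
    · have : γ = -(2 * b + 1 : ℚ) := by rw [ex_apply] at hn; linarith
      rw [root_coeff_zero (γ := γ) fun n => by
        rw [this]; exact_mod_cast ex_ne_int b n (-(2 * b + 1)), this]
      simp
    · have : γ = ex b n := by rw [← ex_half] at hn; linarith
      rw [this, root_coeff, Function.iterate_succ_apply', rt_sq, CharTwo.add_self_eq_zero,
        coeff_single_of_ne]
      exact_mod_cast ex_ne_int b n (-(2 * b + 1))
  · push Not at h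
    rw [root_coeff_zero h, root_coeff_zero fun n hn => h (n + 1) (by rw [← ex_half, hn]),
      coeff_single_of_ne]
    · simp
    · intro hγ
      exact h 0 (by rw [ex_apply, hγ]; norm_num)

lemma root_nz (b : ℕ) (u : K) : NZ (root b u) := fun z =>
  root_coeff_zero (fun n => ex_ne_int b n z) u

lemma root_ge (b : ℕ) (u : K) : Ge (-(2 * b + 1 : ℚ) / 2) (root b u) := fun γ hγ =>
  root_coeff_zero (fun n hn => by
    have := (ex b).monotone (Nat.zero_le n)
    rw [hn, ex_apply] at this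
    norm_num at this hγ
    linarith) u

lemma root_zero (b : ℕ) : root b 0 = 0 := by
  ext γ
  by_cases h : ∃ n, ex b n = γ
  · obtain ⟨n, rfl⟩ := h
    rw [root_coeff, Function.iterate_fixed (map_zero rt)]; rfl
  · push Not at h
    exact root_coeff_zero h _

lemma root_coeff_half (b c : ℕ) (u : K) :
    (root b u).coeff (-(2 * c + 1 : ℚ) / 2) = if b = c then u else 0 := by
  split_ifs with h
  · subst h
    simpa [ex_apply] using root_coeff b 0 u
  · refine root_coeff_zero (fun n hn => h ?_) u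
    rw [ex_apply, div_eq_div_iff (by positivity) (by norm_num), pow_succ] at hn
    have : (2 * b + 1) = (2 * c + 1) * 2 ^ n := by
      have : (2 * b + 1 : ℚ) = (2 * c + 1) * 2 ^ n := by linarith
      exact_mod_cast this
    rcases n with _ | n
    · omega
    · rw [pow_succ, ← mul_assoc] at this; omega

lemma map_root (j b : ℕ) (u : K) : mapH (fr j) (root b u) = root b (fr j u) := by
  ext γ
  by_cases h : ∃ n, ex b n = γ
  · obtain ⟨n, rfl⟩ := h
    rw [mapH_coeff, root_coeff, root_coeff]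
    exact (Function.Commute.iterate_right (fr_rt j) n) u
  · push Not at h
    rw [mapH_coeff, root_coeff_zero h, root_coeff_zero h, map_zero]

variable {J : ℕ}

/-- The Artin-Schreier root attached to a normal form. -/
def al (r : Fin J → K) : H := ∑ b : Fin J, root b (r b)

/-- The normal form. -/
def fS (r : Fin J → K) : H := ∑ b : Fin J, single (-(2 * (b : ℕ) + 1 : ℚ)) (r b ^ 2)

lemma al_sq (r : Fin J → K) : al r ^ 2 + al r = fS r := by
  rw [al, CharTwo.sum_sq, ← Finset.sum_add_distrib]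
  exact Finset.sum_congr rfl fun b _ => root_sq _ _

lemma fS_mem_ZS (r : Fin J → K) : fS r ∈ ZS :=
  sum_mem fun b _ => by
    have := single_mem_ZS (-(2 * (b : ℕ) + 1)) (r b ^ (2 : ℕ))
    push_cast at this
    exact this

lemma al_nz (r : Fin J → K) : NZ (al r) := NZ.sum fun _ _ => root_nz _ _

lemma al_ge_of {r : Fin J → K} {c : ℕ} (h : ∀ b : Fin J, c < b → r b = 0) :
    Ge (-(2 * c + 1 : ℚ) / 2) (al r) := by
  refine Ge.sum fun b _ => ?_
  by_cases hb : c < b
  · rw [h b hb, root_zero]; exact ge_zero _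
  · refine (root_ge _ _).mono ?_
    have : ((b : ℕ) : ℚ) ≤ c := by exact_mod_cast not_lt.1 hb
    linarith

lemma al_ge (r : Fin J → K) : Ge (-J) (al r) := by
  refine Ge.sum fun b _ => (root_ge _ _).mono ?_
  have : ((b : ℕ) : ℚ) + 1 ≤ J := by exact_mod_cast b.2
  linarith

lemma al_coeff_half (r : Fin J → K) (c : ℕ) :
    (al r).coeff (-(2 * c + 1 : ℚ) / 2) = if h : c < J then r ⟨c, h⟩ else 0 := by
  rw [al, coeff_sum]
  simp only [root_coeff_half]
  split_ifs with h
  · rw [Finset.sum_eq_single ⟨c, h⟩]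
    · simp
    · intro b _ hb
      exact if_neg fun h' => hb (Fin.ext h')
    · simp
  · exact Finset.sum_eq_zero fun b _ => if_neg fun (h' : (b : ℕ) = c) => h (h' ▸ b.2)

lemma al_zero : al (0 : Fin J → K) = 0 := Finset.sum_eq_zero fun _ _ => root_zero _

lemma eq_of_ge_al {r r' : Fin J → K} (h : Ge 0 (al r - al r')) : r = r' := by
  ext b
  have := h (-(2 * (b : ℕ) + 1 : ℚ) / 2) (by
    have : (0 : ℚ) ≤ (b : ℕ) := Nat.cast_nonneg _
    linarith)
  rw [coeff_sub, al_coeff_half, al_coeff_half] at this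
  simpa [sub_eq_zero] using this

lemma map_al (j : ℕ) (r : Fin J → K) : mapH (fr j) (al r) = al (fr j ∘ r) := by
  simp [al, map_root]

lemma fS_add (r r' : Fin J → K) : fS (r + r') = fS r + fS r' := by
  simp [fS, CharTwo.add_sq, Finset.sum_add_distrib]

lemma exists_as_K (c : K) : ∃ u : K, u ^ 2 + u = c := by
  obtain ⟨u, hu⟩ := IsAlgClosed.exists_root
    (Polynomial.X ^ 2 + Polynomial.X - Polynomial.C c : Polynomial K) (by
      have : (Polynomial.X ^ 2 + Polynomial.X - Polynomial.C c : Polynomial K).degree = 2 := by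
        compute_degree!
      rw [this]; norm_num)
  exact ⟨u, by simpa [sub_eq_zero] using hu⟩

def asCoeff (p : PowerSeries K) (n : ℕ) : K :=
  if h : n = 0 then (exists_as_K (PowerSeries.coeff 0 p)).choose else
    PowerSeries.coeff n p + if 2 ∣ n then asCoeff p (n / 2) ^ 2 else 0
decreasing_by omega

lemma exists_as_pos {z : H} (hz : z ∈ ZS) (h : Ge 0 z) : ∃ β ∈ ZS, β ^ 2 + β = z := by
  obtain ⟨p, rfl⟩ := exists_toH hz h
  refine ⟨toH (PowerSeries.mk (asCoeff p)), toH_mem_ZS _, ?_⟩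
  have : ∀ n : ℕ, (toH (PowerSeries.mk (asCoeff p))).coeff ((n : ℚ) / 2) =
      if 2 ∣ n then asCoeff p (n / 2) else 0 := by
    intro n
    split_ifs with hn
    · obtain ⟨m, rfl⟩ := hn
      have : ((2 * m : ℕ) : ℚ) / 2 = m := by push_cast; ring
      rw [this, toH_coeff]; simp
    · by_contra h'
      obtain ⟨m, hm⟩ := toH_coeff_ne h'
      have : (n : ℚ) = (2 * m : ℕ) := by push_cast; linarith
      exact hn ⟨m, by exact_mod_cast this⟩
  rw [← map_pow, ← map_add]
  congr 1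
  ext n
  rw [← toH_coeff, map_add, map_pow, coeff_add, coeff_sq, this, toH_coeff, PowerSeries.coeff_mk]
  by_cases hn : n = 0
  · subst hn
    rw [if_pos (dvd_zero 2), Nat.zero_div, asCoeff, dif_pos rfl]
    exact (exists_as_K (PowerSeries.coeff 0 p)).choose_spec
  · conv_lhs => enter [2]; rw [asCoeff, dif_neg hn]
    split_ifs
    · rw [add_comm, add_assoc, CharTwo.add_self_eq_zero, add_zero]
    · simp

/-- Reduction to the normal form. -/
lemma exists_normal (s : ℕ) (hs : s ≤ 2 * J) {z : H} (hz : z ∈ ZS) (h : Ge (-s) z) :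
    ∃ (r : Fin J → K), ∃ β ∈ ZS, β ^ 2 + β + fS r = z := by
  induction s generalizing z with
  | zero =>
    obtain ⟨β, h1, h2⟩ := exists_as_pos hz (by simpa using h)
    exact ⟨0, β, h1, by simp [h2, fS]⟩
  | succ s ih =>
    set c := z.coeff (-(s + 1 : ℕ))
    have hm : single (-((s + 1 : ℕ) : ℚ)) c ∈ ZS := by
      exact_mod_cast single_mem_ZS (-(s + 1 : ℕ)) c
    have h1 : Ge (-s) (z - single (-((s + 1 : ℕ) : ℚ)) c) := by
      have := ge_succ_of_not_le (a := -(s + 1 : ℕ)) (sub_mem hz hm) (by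
        rintro ⟨γ, h1, h2⟩
        rcases h1.lt_or_eq with h1 | rfl
        · exact h2 ((h.sub (ge_single _ _)) γ (by simpa using h1))
        · exact h2 (by simp [c]))
      simpa using this
    rcases Nat.even_or_odd' (s + 1) with ⟨b, hb | hb⟩
    · have hm' : single (-(b : ℚ)) (rt c) ∈ ZS := by exact_mod_cast single_mem_ZS (-b) (rt c)
      obtain ⟨r, β, hβ, e⟩ := ih (by omega) (add_mem (sub_mem hz hm) hm')
        (h1.add ((ge_single _ _).mono (by
          have : b ≤ s := by omega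
          simpa using this)))
      refine ⟨r, β + single (-(b : ℚ)) (rt c), add_mem hβ hm', ?_⟩
      have e2 : single (-(b : ℚ)) (rt c) ^ 2 = single (-((s + 1 : ℕ) : ℚ)) c := by
        rw [single_pow, rt_sq, hb]; congr 2; push_cast; ring
      rw [CharTwo.add_sq, e2]
      linear_combination e + add_self_alg (single (-(b : ℚ)) (rt c) : H)
    · obtain ⟨r, β, hβ, e⟩ := ih (by omega) (sub_mem hz hm) h1
      refine ⟨r + Pi.single ⟨b, by omega⟩ (rt c), β, hβ, ?_⟩
      have e2 : fS (Pi.single (⟨b, by omega⟩ : Fin J) (rt c)) = single (-((s + 1 : ℕ) : ℚ)) c := by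
        rw [fS, Finset.sum_eq_single ⟨b, by omega⟩]
        · rw [Pi.single_eq_same, rt_sq, hb]; congr 2; push_cast; ring
        · intro b' _ hb'
          rw [Pi.single_eq_of_ne hb']; simp
        · simp
      rw [fS_add, e2]
      linear_combination e

end Pool.Agent.MP_536a45_ag_b

end
end

section

/-!
Polynomial identities in characteristic two, and translation invariant polynomials.
-/

noncomputable section

namespace Pool.Agent.MP_536a45_ag_b

open MvPolynomial

section identities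

variable {A : Type} [CommRing A]

def Bq (c : Fin 3 → A) (i : Fin 3) : A := c (i + 1) * c (i + 2) * (c (i + 1) + c (i + 2))
def Aq (c : Fin 3 → A) (i : Fin 3) : A := c (i + 1) ^ 2 + c (i + 1) * c (i + 2) + c (i + 2) ^ 2
def Pq (c : Fin 3 → A) (i : Fin 3) (T : A) : A :=
  T * (T + c (i + 1)) * (T + c (i + 2)) * (T + c (i + 1) + c (i + 2))
def mu (c : Fin 3 → A) : A :=
  c 0 * c 1 * c 2 * (c 0 + c 1) * (c 0 + c 2) * (c 1 + c 2) * (c 0 + c 1 + c 2)
def Nq (c : Fin 3 → A) (T : A) : A := Pq c 0 T * Pq c 0 (T + c 0)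
def Rq (c : Fin 3 → A) (i : Fin 3) (f : Fin 3 → A) : A :=
  ∑ l, (c l ^ 4 * (f l + f l ^ 2) + Aq c i * c l ^ 2 * f l)

variable {A' F : Type} [CommRing A'] [FunLike F A A'] [RingHomClass F A A'] (φ : F)

@[simp] lemma map_Bq (c : Fin 3 → A) (i : Fin 3) : φ (Bq c i) = Bq (fun l => φ (c l)) i := by
  simp [Bq]
@[simp] lemma map_Pq (c : Fin 3 → A) (i : Fin 3) (T : A) :
    φ (Pq c i T) = Pq (fun l => φ (c l)) i (φ T) := by simp [Pq]
@[simp] lemma map_mu (c : Fin 3 → A) : φ (mu c) = mu (fun l => φ (c l)) := by simp [mu]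
@[simp] lemma map_Nq (c : Fin 3 → A) (T : A) : φ (Nq c T) = Nq (fun l => φ (c l)) (φ T) := by
  simp [Nq]

variable [Algebra K A]

lemma Pq_eq (c : Fin 3 → A) (i : Fin 3) (T : A) :
    Pq c i T = T ^ 4 + Aq c i * T ^ 2 + Bq c i * T := by
  have h2 := two_alg A
  unfold Pq Aq Bq; grind

lemma Pq_add (c : Fin 3 → A) (i : Fin 3) (T T' : A) : Pq c i (T + T') = Pq c i T + Pq c i T' := by
  have h2 := two_alg A
  simp only [Pq_eq]; grind

lemma Pq_sum (c u : Fin 3 → A) (i : Fin 3) : Bq c i * Pq c i (∑ l, u l * c l) =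
    mu c * u i + Bq c i * Rq c i (fun l => u l ^ 2 + u l) := by
  have h2 := two_alg A
  fin_cases i <;> simp [Pq, Aq, Bq, mu, Rq, Fin.sum_univ_three] <;> grind

lemma Bq_Nq (c : Fin 3 → A) (i : Fin 3) (T : A) :
    Bq c i ^ 2 * Nq c T = (Bq c i * Pq c i T) ^ 2 + mu c * (Bq c i * Pq c i T) := by
  have h2 := two_alg A
  fin_cases i <;> simp [Pq, Bq, mu, Nq] <;> grind

lemma mu_sum (c : Fin 3 → A) (T : A) : mu c * T + ∑ i, c i * (Bq c i * Pq c i T) = 0 := by
  have h2 := two_alg A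
  simp [Pq, Bq, mu, Fin.sum_univ_three]; grind

lemma Nq_shift (c u : Fin 3 → A) (hu : ∀ l, u l ^ 2 + u l = 0) (T : A) :
    Nq c (T + ∑ l, u l * c l) = Nq c T := by
  have h2 := two_alg A
  have h0 := hu 0
  have h1 := hu 1
  have h3 := hu 2
  have : Pq c 0 (∑ l, u l * c l) = u 0 * Pq c 0 (c 0) := by
    simp [Pq, Fin.sum_univ_three]; grind
  simp only [Nq, Pq_add, this]
  grind

lemma deriv_Pq (D : Derivation K A A) (c : Fin 3 → A) (hc : ∀ l, D (c l) = 0) (i : Fin 3) (T : A) :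
    D (Pq c i T) = Bq c i * D T := by
  have h2 := two_alg A
  simp only [Pq, Bq, Derivation.leibniz, map_add, hc, smul_eq_mul]
  grind

lemma deriv_Nq (D : Derivation K A A) (c : Fin 3 → A) (hc : ∀ l, D (c l) = 0) (T : A) :
    D (Nq c T) = mu c * D T := by
  have h2 := two_alg A
  simp only [Nq, Derivation.leibniz, deriv_Pq D c hc, map_add, hc, smul_eq_mul]
  simp [Pq, Bq, mu]
  grind

lemma deriv_Bq (D : Derivation K A A) (c : Fin 3 → A) (hc : ∀ l, D (c l) = 0) (i : Fin 3) :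
    D (Bq c i) = 0 := by simp [Bq, Derivation.leibniz, hc]

lemma deriv_mu (D : Derivation K A A) (c : Fin 3 → A) (hc : ∀ l, D (c l) = 0) :
    D (mu c) = 0 := by simp [mu, Derivation.leibniz, hc]

end identities

lemma pderiv_aeval {σ τ : Type} [Fintype σ] (s : σ → MvPolynomial τ K) (i : τ)
    (p : MvPolynomial σ K) :
    pderiv i (aeval s p) = ∑ j, aeval s (pderiv j p) * pderiv i (s j) := by
  classical
  induction p using MvPolynomial.induction_on with
  | C c => simp
  | add p q hp hq => simp only [map_add, hp, hq, add_mul, Finset.sum_add_distrib]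
  | mul_X p j hp =>
    simp only [map_mul, aeval_X, Derivation.leibniz, hp, smul_eq_mul, map_add, add_mul,
      Finset.sum_add_distrib, pderiv_X, Finset.mul_sum]
    congr 1
    · rw [Finset.sum_eq_single j]
      · simp
      · intro b _ hb; simp [Pi.single_eq_of_ne hb.symm]
      · simp
    · exact Finset.sum_congr rfl fun _ _ => by ring

lemma mem_of_shift {P : Type} [CommRing P] [Algebra K P] (s : Set P) (a : P)
    (ha : a ^ 2 + a ∈ Algebra.adjoin K s) (τ : P →ₐ[K] P) (hs : ∀ x ∈ s, τ x = x)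
    (hτ : τ a = a + 1) {p : P} (hp : p ∈ Algebra.adjoin K (insert a s)) (h : τ p = p) :
    p ∈ Algebra.adjoin K s := by
  have hfix : ∀ x ∈ Algebra.adjoin K s, τ x = x := fun x hx =>
    (Algebra.adjoin_le (S := AlgHom.equalizer τ (AlgHom.id K P)) hs) hx
  have : ∃ p0 ∈ Algebra.adjoin K s, ∃ p1 ∈ Algebra.adjoin K s, p = p0 + p1 * a := by
    clear h
    induction hp using Algebra.adjoin_induction with
    | mem x hx =>
      rcases hx with rfl | hx
      · exact ⟨0, zero_mem _, 1, one_mem _, by simp⟩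
      · exact ⟨x, Algebra.subset_adjoin hx, 0, zero_mem _, by simp⟩
    | algebraMap c => exact ⟨_, algebraMap_mem _ c, 0, zero_mem _, by simp⟩
    | add x y _ _ hx hy =>
      obtain ⟨x0, h0, x1, h1, rfl⟩ := hx
      obtain ⟨y0, h0', y1, h1', rfl⟩ := hy
      exact ⟨_, add_mem h0 h0', _, add_mem h1 h1', by ring⟩
    | mul x y _ _ hx hy =>
      obtain ⟨x0, h0, x1, h1, rfl⟩ := hx
      obtain ⟨y0, h0', y1, h1', rfl⟩ := hy
      exact ⟨_, add_mem (mul_mem h0 h0') (mul_mem (mul_mem h1 h1') ha), _,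
        sub_mem (add_mem (mul_mem h0 h1') (mul_mem h1 h0')) (mul_mem h1 h1'), by ring⟩
  obtain ⟨p0, h0, p1, h1, rfl⟩ := this
  rw [map_add, map_mul, hfix _ h0, hfix _ h1, hτ] at h
  have : p1 = 0 := by linear_combination h
  simpa [this] using h0

/-- Translation of the `i`-th extra variable. -/
def shift {σ : Type} (i : Fin 3) : MvPolynomial (σ ⊕ Fin 3) K →ₐ[K] MvPolynomial (σ ⊕ Fin 3) K :=
  aeval (Sum.elim (fun p => X (Sum.inl p)) fun l => X (Sum.inr l) + if l = i then 1 else 0)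

lemma exists_of_shift {σ : Type} {p : MvPolynomial (σ ⊕ Fin 3) K} (h : ∀ i, shift i p = p) :
    ∃ F : MvPolynomial (σ ⊕ Fin 3) K,
      p = aeval (Sum.elim (fun q => X (Sum.inl q)) fun l => X (Sum.inr l) ^ 2 + X (Sum.inr l)) F := by
  set w : σ ⊕ Fin 3 → MvPolynomial (σ ⊕ Fin 3) K :=
    Sum.elim (fun q => X (Sum.inl q)) fun l => X (Sum.inr l) ^ 2 + X (Sum.inr l)
  have hw : ∀ i, ∀ x ∈ Set.range w, shift i x = x := by
    rintro i _ ⟨q | l, rfl⟩
    · simp [w, shift]
    · have h2 := two_alg (MvPolynomial (σ ⊕ Fin 3) K)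
      simp only [w, shift, Sum.elim_inr, map_add, map_pow, aeval_X]
      split_ifs <;> grind
  have hx : ∀ i l : Fin 3, l ≠ i → shift (σ := σ) i (X (Sum.inr l)) = X (Sum.inr l) := by
    intro i l h; simp [shift, h]
  have hx' : ∀ i : Fin 3, shift (σ := σ) i (X (Sum.inr i)) = X (Sum.inr i) + 1 := by
    intro i; simp [shift]
  have hw' : ∀ l, X (Sum.inr l) ^ 2 + X (Sum.inr l) ∈ Set.range w := fun l => ⟨Sum.inr l, rfl⟩
  have : p ∈ Algebra.adjoin K (Set.range w) := by
    refine mem_of_shift _ (X (Sum.inr 0)) (Algebra.subset_adjoin (hw' 0)) (shift 0)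
      (hw 0) (hx' 0) ?_ (h 0)
    refine mem_of_shift _ (X (Sum.inr 1)) 
      (Algebra.subset_adjoin (Set.mem_insert_of_mem _ (hw' 1)))
      (shift 1) ?_ (hx' 1) ?_ (h 1)
    · rintro x (rfl | hx')
      · exact hx _ _ (by decide)
      · exact hw _ _ hx'
    refine mem_of_shift _ (X (Sum.inr 2))
      (Algebra.subset_adjoin (Set.mem_insert_of_mem _ (Set.mem_insert_of_mem _ (hw' 2))))
      (shift 2) ?_ (hx' 2) ?_ (h 2)
    · rintro x (rfl | rfl | hx')
      · exact hx _ _ (by decide)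
      · exact hx _ _ (by decide)
      · exact hw _ _ hx'
    refine Algebra.adjoin_mono (s := Set.range X) ?_ (by rw [adjoin_range_X]; trivial)
    rintro _ ⟨q | l, rfl⟩
    · exact Or.inr (Or.inr (Or.inr ⟨Sum.inl q, rfl⟩))
    · fin_cases l <;> simp
  rw [Algebra.adjoin_range_eq_range_aeval] at this
  obtain ⟨F, hF⟩ := this
  exact ⟨F, hF.symm⟩

end Pool.Agent.MP_536a45_ag_b

end
end

section

/-!
Dimension of families of linear subspaces.
-/

noncomputable section

namespace Pool.Agent.MP_536a45_ag_b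

open MvPolynomial Matrix Module

attribute [-simp] MvPolynomial.aeval_eq_bind₁

variable {k σ ι κ : Type} [Field k] [Fintype σ] [Fintype ι] [Fintype κ] [DecidableEq ι]

lemma exists_rows {A : Matrix κ ι k} (h : ∀ w, A *ᵥ w = 0 → w = 0) :
    ∃ s : ι → κ, (A.submatrix s id).det ≠ 0 := by
  obtain ⟨E, hE, hinj, -⟩ := exists_pivot (LinearMap.range A.mulVecLin)
  rw [LinearMap.finrank_range_of_inj ((injective_iff_map_eq_zero _).2 h), finrank_fintype_fun_eq_card,
    ← Fintype.card_coe] at hE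
  let e := Fintype.equivOfCardEq hE
  refine ⟨fun i => e.symm i, fun h0 => ?_⟩
  obtain ⟨w, hw, hw'⟩ := exists_mulVec_eq_zero_iff.2 h0
  refine hw (h w (hinj _ ⟨w, rfl⟩ fun a ha => ?_))
  simpa [mulVec, dotProduct] using congrFun hw' (e ⟨a, ha⟩)

lemma dep_lin (A : Matrix κ ι (MvPolynomial σ k)) {D D' : ℕ} (hD : Fintype.card σ + D ≤ D') :
    Dep {z : σ ⊕ ι → k | A.map (aeval (z ∘ Sum.inl)) *ᵥ (z ∘ Sum.inr) = 0 ∧
      finrank k (LinearMap.ker (A.map (aeval (z ∘ Sum.inl))).mulVecLin) ≤ D} D' := by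
  let A' := fun (E : Finset ι) (s : {i // i ∉ E} → κ) =>
    (of fun a b : {i // i ∉ E} => rename (Sum.inl : σ → σ ⊕ E) (A (s a) b))
  let B' := fun (E : Finset ι) (s : {i // i ∉ E} → κ) =>
    (of fun (a : {i // i ∉ E}) (b : E) => rename (Sum.inl : σ → σ ⊕ E) (A (s a) b))
  let Ψ := fun (E : Finset ι) (s : {i // i ∉ E} → κ) => (Sum.elim (fun i => X (Sum.inl i))
    fun i => if h : i ∈ E then (A' E s).det * X (Sum.inr ⟨i, h⟩) else
      -((A' E s).adjugate *ᵥ B' E s *ᵥ fun e => X (Sum.inr e)) ⟨i, h⟩ :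
        σ ⊕ ι → MvPolynomial (σ ⊕ E) k)
  refine (Dep.iUnion (α := Σ E : {E : Finset ι // E.card ≤ D}, {i // i ∉ E.1} → κ)
    (C := fun x => pmap (Ψ x.1.1 x.2) '' Set.univ) fun x => (dep_univ ?_).image _).subset ?_
  · have := x.1.2
    simp; omega
  rintro z ⟨h1, h2⟩
  set A0 := A.map (aeval (z ∘ Sum.inl)) with hA0
  obtain ⟨E, hE, hinj, -⟩ := exists_pivot (LinearMap.ker A0.mulVecLin)
  have hsplit : ∀ (w : ι → k) a, (A0 *ᵥ w) a =
      ∑ b : E, A0 a b * w b + ∑ b : {i // i ∉ E}, A0 a b * w b := fun w a => by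
    rw [Subsingleton.elim (Finset.Subtype.fintype E) (Subtype.fintype _)]
    exact (Fintype.sum_subtype_add_sum_subtype (· ∈ E) fun b => A0 a b * w b).symm
  obtain ⟨s, hs⟩ := exists_rows (A := A0.submatrix id (Subtype.val : {i // i ∉ E} → ι))
    fun w hw => by
      have := hinj (fun i => if h : i ∈ E then 0 else w ⟨i, h⟩) (funext fun a => by
        refine (hsplit _ a).trans ?_
        rw [Finset.sum_eq_zero fun b _ => by rw [dif_pos b.2, mul_zero], zero_add]
        exact (Finset.sum_congr rfl fun b _ => by rw [dif_neg b.2]; rfl).trans (congrFun hw a))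
        fun i hi => dif_pos hi
      ext b
      simpa [b.2] using congrFun this b
  set A1 := (A0.submatrix id (Subtype.val : {i // i ∉ E} → ι)).submatrix s id with hA1
  let y : σ ⊕ E → k := Sum.elim (z ∘ Sum.inl) fun e => z (Sum.inr e) / A1.det
  have e1 : (aeval y : _ →ₐ[k] k).mapMatrix (A' E s) = A1 := by
    ext a b; exact aeval_rename _ _ _
  refine Set.mem_iUnion.2 ⟨⟨⟨E, hE.trans_le h2⟩, s⟩, y, trivial, ?_⟩
  ext (i | i)
  · simp [pmap, Ψ, y]
  by_cases hi : i ∈ E
  · simp only [pmap, Ψ, Sum.elim_inr, dif_pos hi, map_mul, AlgHom.map_det, e1, aeval_X, y]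
    exact mul_div_cancel₀ _ hs
  have e2 : A1 *ᵥ (fun b => z (Sum.inr b)) = -fun a => A1.det *
      aeval y ((B' E s *ᵥ fun e => X (Sum.inr e)) a) := by
    ext a
    have := (hsplit _ (s a)).symm.trans (congrFun h1 (s a))
    rw [Pi.neg_apply, eq_neg_iff_add_eq_zero, add_comm]
    refine Eq.trans ?_ this
    congr 1
    simp only [mulVec, dotProduct, map_sum, map_mul, aeval_X, Finset.mul_sum, B', of_apply,
      aeval_rename, y, Sum.elim_inr, Sum.elim_comp_inl, hA0, Matrix.map_apply, Function.comp_apply]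
    exact Finset.sum_congr rfl fun b _ => by field_simp
  have e3 := congrFun (congrArg (A1.adjugate *ᵥ ·) e2) ⟨i, hi⟩
  simp only [mulVec_mulVec, adjugate_mul, smul_mulVec, one_mulVec, Pi.smul_apply, smul_eq_mul]
    at e3
  apply mul_left_cancel₀ hs
  rw [e3]
  simp only [pmap, Ψ, Sum.elim_inr, dif_neg hi, map_neg, mulVec_neg, Pi.neg_apply, mul_neg]
  congr 1
  generalize (B' E s *ᵥ fun e => X (Sum.inr e)) = u
  rw [← e1, ← AlgHom.map_adjugate]
  simp only [mulVec, dotProduct, map_sum, map_mul, Finset.mul_sum, AlgHom.mapMatrix_apply,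
    Matrix.map_apply]
  exact Finset.sum_congr rfl fun b _ => by ring

lemma dep_section (L : (σ → k) → (ι → k) →ₗ[k] κ → k)
    (hL : ∀ a i, ∃ p : MvPolynomial σ k, ∀ ρ, L ρ (Pi.single i 1) a = aeval ρ p) {μ : Type}
    (Φ : μ → MvPolynomial (σ ⊕ ι) k) {e D D' : ℕ} (hD : Fintype.card σ + (D - e) ≤ D') :
    Dep {y | ∃ (ρ : σ → k) (η : ι → k) (M : Submodule k (ι → k)), finrank k M = e ∧
      finrank k (LinearMap.ker (L ρ)) ≤ D ∧
      ∀ η', η' - η ∈ M → L ρ η' = 0 ∧ pmap Φ (Sum.elim ρ η') = y} D' := by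
  choose p hp using hL
  let A := fun E : Finset ι => (of (Sum.elim p fun (a : E) i => if a = i then 1 else 0) :
    Matrix (κ ⊕ E) ι (MvPolynomial σ k))
  have hA : ∀ E ρ w, (A E).map (aeval ρ) *ᵥ w = 0 ↔ L ρ w = 0 ∧ ∀ i ∈ E, w i = 0 := by
    intro E ρ w
    have : (A E).map (aeval ρ) *ᵥ w = Sum.elim (L ρ w) fun a : E => w a := by
      ext (a | a)
      · conv_rhs => rw [pi_eq_sum_univ' w]
        simp [A, mulVec, dotProduct, hp, mul_comm]
      · simp [A, mulVec, dotProduct, apply_ite]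
    rw [this]
    simp [funext_iff]
  refine (Dep.iUnion fun E => (dep_lin (A E) hD).image Φ).subset ?_
  rintro y ⟨ρ, η, M, rfl, h2, h3⟩
  obtain ⟨E, hE, -, hs⟩ := exists_pivot M
  obtain ⟨w, hw, hw'⟩ := hs η
  have h4 := h3 (η - w) (by simpa using hw)
  refine Set.mem_iUnion.2 ⟨E, Sum.elim ρ (η - w), ⟨(hA _ _ _).2 ⟨h4.1, fun i hi => by
    simp [hw' i hi]⟩, ?_⟩, h4.2⟩
  let π : LinearMap.ker (L ρ) →ₗ[k] E → k :=
    (LinearMap.funLeft k k Subtype.val).comp (Submodule.subtype _)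
  have h5 : LinearMap.range π = ⊤ := LinearMap.range_eq_top.2 fun c => by
    obtain ⟨u, hu, hu'⟩ := hs fun i => if h : i ∈ E then c ⟨i, h⟩ else 0
    refine ⟨⟨u, ?_⟩, funext fun i => by simpa [π, i.2] using hu' i i.2⟩
    have h6 := (h3 (η + u) (by simpa using hu)).1
    rwa [map_add, (h3 η (by simp)).1, zero_add] at h6
  have h6 := π.finrank_range_add_finrank_ker
  rw [h5, finrank_top, finrank_fintype_fun_eq_card, Fintype.card_coe, hE] at h6
  have h7 : LinearMap.ker ((A E).map (aeval ρ)).mulVecLin =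
      (LinearMap.ker π).map (Submodule.subtype _) := by
    ext u
    simp only [LinearMap.mem_ker, mulVecLin_apply, hA, Submodule.mem_map]
    constructor
    · rintro ⟨h, h'⟩
      exact ⟨⟨u, h⟩, funext fun i => h' i i.2, rfl⟩
    · rintro ⟨u, h, rfl⟩
      exact ⟨u.2, fun i hi => congrFun h ⟨i, hi⟩⟩
  change finrank k (LinearMap.ker ((A E).map (aeval ρ)).mulVecLin) ≤ _
  rw [h7, Submodule.finrank_map_subtype_eq]
  omega

omit [DecidableEq ι] in
lemma finrank_add_le (W : Submodule k (ι → k)) {α : Type} [Fintype α] {ε : α → ι}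
    (hε : Function.Injective ε) (h : ∀ w ∈ W, (∀ i ∉ Set.range ε, w i = 0) → w = 0) :
    finrank k W + Fintype.card α ≤ Fintype.card ι := by
  classical
  have := LinearMap.finrank_le_finrank_of_injective
    (f := (LinearMap.funLeft k k (Subtype.val : ↥(Set.range ε)ᶜ → ι)).comp W.subtype)
    ((injective_iff_map_eq_zero _).2 fun w hw => Subtype.ext (h w w.2 fun i hi =>
      congrFun hw ⟨i, hi⟩))
  rw [finrank_fintype_fun_eq_card, Fintype.card_compl_set, Set.card_range_of_injective hε] at this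
  have := Fintype.card_le_of_injective ε hε
  omega

end Pool.Agent.MP_536a45_ag_b

end
end

section

/-!
The point counting realisation.
-/

noncomputable section

namespace Pool.Agent.MP_536a45_ag_b

open MvPolynomial Filter Asymptotics

variable {ι κ : Type} [Finite ι] [Finite κ]

abbrev Gm : Type := Germ (atTop : Filter ℕ) ℂ

def realF : MvPolynomial (Gen K) ℤ →+* Gm :=
  eval₂Hom (Int.castRingHom Gm) fun g => ((fun j => (cnt j g.C : ℂ) : ℕ → ℂ) : Gm)

lemma realF_gen {C : Set (ι → K)} (hC : IsCons C) :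
    realF (gen C) = ((fun j => (cnt j C : ℂ) : ℕ → ℂ) : Gm) := by
  simp [realF, gen, hC]

lemma cnt_union (j : ℕ) {C D : Set (ι → K)} (h : Disjoint C D) :
    cnt j (C ∪ D) = cnt j C + cnt j D := by
  rw [cnt, Set.union_inter_distrib_right, Set.ncard_union_eq
    (h.mono Set.inter_subset_left Set.inter_subset_left) ((finite_fixs j).inter_of_right _)
    ((finite_fixs j).inter_of_right _)]
  rfl

omit [Finite ι] [Finite κ] in
lemma cnt_prod (j : ℕ) (C : Set (ι → K)) (D : Set (κ → K)) :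
    cnt j (prodSet C D) = cnt j C * cnt j D := by
  rw [cnt, cnt, cnt, ← Set.ncard_prod]
  refine Set.ncard_congr (fun z _ => (z ∘ Sum.inl, z ∘ Sum.inr)) (fun z hz => ?_)
    (fun z z' _ _ h => ?_) (fun ⟨x, y⟩ ⟨hx, hy⟩ => ?_)
  · exact ⟨⟨hz.1.1, funext fun i => congrFun hz.2 _⟩, hz.1.2, funext fun i => congrFun hz.2 _⟩
  · ext (i | i)
    · exact congrFun (congrArg Prod.fst h) i
    · exact congrFun (congrArg Prod.snd h) i
  · refine ⟨Sum.elim x y, ⟨⟨hx.1, hy.1⟩, ?_⟩, rfl⟩
    ext (i | i)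
    · exact congrFun hx.2 i
    · exact congrFun hy.2 i

lemma cnt_univ (j : ℕ) : cnt j (Set.univ : Set (ι → K)) = qq j ^ Nat.card ι := by
  rw [cnt, Set.univ_inter, ncard_fixs]

lemma cnt_iso {b : Bool} {C : Set (ι → K)} {D : Set (κ → K)} {φ : (ι → K) → κ → K}
    (h : IsIsoB b C D φ) : ∀ᶠ j in atTop, cnt j C = cnt j D := by
  obtain ⟨hC, -, hreg, hbij, -⟩ := h
  filter_upwards [hreg.ev_comm hC.isCons, hC.isCons.ev_stable] with j hj hst
  refine Set.ncard_congr (fun z _ => φ z) (fun z hz => ⟨hbij.mapsTo hz.1, ?_⟩)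
    (fun z z' hz hz' h => hbij.injOn hz.1 hz'.1 h) (fun w hw => ?_)
  · change fr j ∘ φ z = φ z
    rw [← hj z hz.1, hz.2]
  · obtain ⟨z, hz, rfl⟩ := hbij.surjOn hw.1
    exact ⟨z, ⟨hz, hbij.injOn (hst z hz) hz ((hj z hz).trans hw.2)⟩, rfl⟩

lemma realF_rel {b : Bool} {x : MvPolynomial (Gen K) ℤ} (h : Rel b x) : realF x = 0 := by
  induction h with
  | add C D hC hD hd =>
    rw [map_sub, map_sub, realF_gen hC, realF_gen hD, realF_gen (hC.union hD), ← Germ.coe_sub,
      ← Germ.coe_sub, ← Germ.coe_zero, Germ.coe_eq]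
    exact Eventually.of_forall fun j => by simp [cnt_union j hd]
  | iso C D φ h =>
    rw [map_sub, realF_gen h.1.isCons, realF_gen h.2.1.isCons, sub_eq_zero, Germ.coe_eq]
    filter_upwards [cnt_iso h] with j hj
    rw [hj]
  | mul C D hC hD =>
    rw [map_sub, map_mul, realF_gen hC, realF_gen hD, realF_gen (hC.prod hD), ← Germ.coe_mul,
      sub_eq_zero, Germ.coe_eq]
    exact Eventually.of_forall fun j => by simp [cnt_prod]
  | one =>
    rw [map_sub, map_one, realF_gen isCons_univ, sub_eq_zero, ← Germ.coe_one, Germ.coe_eq]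
    exact Eventually.of_forall fun j => by simp [cnt_univ]

def real0 (b : Bool) : K0 K b →+* Gm :=
  Ideal.Quotient.lift (Ideal.span {x | Rel (k := K) b x}) realF fun _ hx =>
    (Ideal.span_le (I := RingHom.ker realF)).2 (fun _ h => realF_rel h) hx

lemma real0_cls {b : Bool} {C : Set (ι → K)} (hC : IsCons C) :
    real0 b (cls b C) = ((fun j => (cnt j C : ℂ) : ℕ → ℂ) : Gm) := realF_gen hC

/-- The positive real `ρ`-th root of `q`. -/
def th (ρ j : ℕ) : ℝ := (qq j : ℝ) ^ (ρ : ℝ)⁻¹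

lemma one_le_th (ρ j : ℕ) : 1 ≤ th ρ j :=
  Real.one_le_rpow (by have := two_le_qq j; exact_mod_cast (by omega : 1 ≤ qq j)) (by positivity)

lemma th_pos (ρ j : ℕ) : 0 < th ρ j := one_pos.trans_le (one_le_th ρ j)

lemma th_pow {ρ : ℕ} (hρ : ρ ≠ 0) (j : ℕ) : th ρ j ^ ρ = qq j :=
  Real.rpow_inv_natCast_pow (by positivity) hρ

def tauU (ρ : ℕ) (ζ : ℂˣ) : (ℕ → ℂ)ˣ where
  val j := ζ * th ρ j
  inv j := (ζ * th ρ j)⁻¹
  val_inv := funext fun j => mul_inv_cancel₀ (mul_ne_zero ζ.ne_zero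
    (by exact_mod_cast (th_pos ρ j).ne'))
  inv_val := funext fun j => inv_mul_cancel₀ (mul_ne_zero ζ.ne_zero
    (by exact_mod_cast (th_pos ρ j).ne'))

lemma tauU_zpow (ρ : ℕ) (ζ : ℂˣ) (i : ℤ) (j : ℕ) :
    (tauU ρ ζ ^ i).val j = ((ζ : ℂ) * th ρ j) ^ i := by
  have := congrArg Units.val (map_zpow (Units.map (Pi.evalMonoidHom (fun _ : ℕ => ℂ) j))
    (tauU ρ ζ) i)
  rw [Units.val_zpow_eq_zpow_val] at this
  exact this

def realL (b : Bool) (ρ : ℕ) (ζ : ℂˣ) : LaurentPolynomial (K0 K b) →+* Gm :=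
  LaurentPolynomial.eval₂ (real0 b)
    (Units.map (Germ.coeRingHom (atTop : Filter ℕ)).toMonoidHom (tauU ρ ζ))

lemma realL_T (b : Bool) (ρ : ℕ) (ζ : ℂˣ) (i : ℤ) : realL b ρ ζ (LaurentPolynomial.T i) =
    ((fun j => ((ζ : ℂ) * th ρ j) ^ i : ℕ → ℂ) : Gm) := by
  rw [realL, LaurentPolynomial.eval₂_T, ← map_zpow, ← funext (tauU_zpow ρ ζ i)]
  rfl

def real (b : Bool) {ρ : ℕ} (hρ : ρ ≠ 0) {ζ : ℂˣ} (hζ : ζ ^ ρ = 1) : Mot K b ρ →+* Gm :=
  Ideal.Quotient.lift (Ideal.span {LaurentPolynomial.T (ρ : ℤ) -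
    LaurentPolynomial.C (cls b (Set.univ : Set (Unit → K)))}) (realL b ρ ζ) fun _ hx =>
    (Ideal.span_le (I := RingHom.ker (realL b ρ ζ))).2 (by
      rintro _ rfl
      rw [SetLike.mem_coe, RingHom.mem_ker, map_sub, realL_T, realL, LaurentPolynomial.eval₂_C,
        real0_cls isCons_univ, sub_eq_zero, Germ.coe_eq]
      refine Eventually.of_forall fun j => ?_
      have h1 : (ζ : ℂ) ^ ρ = 1 := by simpa using congrArg Units.val hζ
      have h2 : (th ρ j : ℂ) ^ ρ = qq j := by exact_mod_cast th_pow hρ j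
      simp [cnt_univ, mul_pow, h1, h2]) hx

variable {b : Bool} {ρ : ℕ} (hρ : ρ ≠ 0) {ζ : ℂˣ} (hζ : ζ ^ ρ = 1)

lemma real_cl {C : Set (ι → K)} (hC : IsCons C) (i : ℤ) : real b hρ hζ (cl b ρ C i) =
    ((fun j => (cnt j C : ℂ) * ((ζ : ℂ) * th ρ j) ^ i : ℕ → ℂ) : Gm) := by
  change realL b ρ ζ _ = _
  rw [map_mul, realL_T, realL, LaurentPolynomial.eval₂_C, real0_cls hC]
  rfl

lemma real_Fil {s : ℤ} {x : Mot K b ρ} (hx : x ∈ Fil K b ρ s) :
    ∃ u : ℕ → ℂ, real b hρ hζ x = u ∧ u =O[atTop] fun j => th ρ j ^ (-s) := by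
  induction hx using AddSubgroup.closure_induction with
  | mem x hx =>
    obtain ⟨ι, hι, C, i, D, hC, hD, hi, rfl⟩ := hx
    refine ⟨_, real_cl hρ hζ hC i, ?_⟩
    obtain ⟨c, hc⟩ := cnt_le_of_dimLE hD
    refine IsBigO.of_bound c ?_
    filter_upwards [hc] with j hj
    have hn : ‖(ζ : ℂ)‖ = 1 := by
      have h1 : (ζ : ℂ) ^ ρ = 1 := by simpa using congrArg Units.val hζ
      exact Complex.norm_eq_one_of_pow_eq_one h1 hρ
    have h0 := th_pos ρ j
    rw [norm_mul, norm_zpow, norm_mul, hn, one_mul, Complex.norm_real, Complex.norm_natCast,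
      Real.norm_of_nonneg h0.le, Real.norm_of_nonneg (by positivity)]
    have h1 : (cnt j C : ℝ) ≤ c * th ρ j ^ ((ρ : ℤ) * D) := by
      rw [zpow_mul, zpow_natCast, zpow_natCast, th_pow hρ]
      exact_mod_cast hj
    calc (cnt j C : ℝ) * th ρ j ^ i ≤ c * th ρ j ^ ((ρ : ℤ) * D) * th ρ j ^ i := by gcongr
      _ = c * th ρ j ^ ((ρ : ℤ) * D + i) := by rw [zpow_add₀ h0.ne', mul_assoc]
      _ ≤ c * th ρ j ^ (-s) := by gcongr; exact one_le_th ρ j
  | zero => exact ⟨0, map_zero _, isBigO_zero _ _⟩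
  | add x y _ _ hx hy =>
    obtain ⟨u, hu, hu'⟩ := hx
    obtain ⟨v, hv, hv'⟩ := hy
    exact ⟨u + v, by rw [map_add, hu, hv]; rfl, hu'.add hv'⟩
  | neg x _ hx =>
    obtain ⟨u, hu, hu'⟩ := hx
    exact ⟨-u, by rw [map_neg, hu]; rfl, hu'.neg_left⟩

end Pool.Agent.MP_536a45_ag_b

end
end
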