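import Pool.Agent.Mg.F536a45.Ge21a87
import Pool.Agent.Mg.F536a45.G28ec10

section

/-!
Facts on the group; integrality.
-/

noncomputable section

namespace Pool.Agent.MP_536a45_ag_b

open MvPolynomial Matrix Module

attribute [-simp] MvPolynomial.aeval_eq_bind₁

lemma x_eq_zero_of_act {g : G0} (hg : g ≠ 0) {w : N → K} (h : act (emb K g) w = w) (p : I5) :
    w (Sum.inl p) = 0 := by
  have : phM (emb K g) *ᵥ (fun b => w (Sum.inl (p.1, b))) = 0 := funext fun a => by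
    have := congrFun h (Sum.inr (p.1, a))
    rw [act_inr, add_eq_left, sum_mxv_K] at this
    exact this
  exact congrFun (phM_emb_inj hg this) p.2

lemma repM_inj : Function.Injective repM.toHomUnits := by
  refine (injective_iff_map_eq_one _).2 fun g hg => ?_
  by_contra h
  have h1 : Bm (emb K g.toAdd) = 1 := congrArg Units.val hg
  have := x_eq_zero_of_act (g := g.toAdd) h (w := fun _ => 1) (by rw [← Bm_mulVec, h1, one_mulVec])
    (0, 0)
  exact one_ne_zero this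

lemma card_GG : Nat.card GG = 8 := by
  rw [GG, ← Nat.card_congr (MonoidHom.ofInjective repM_inj).toEquiv]
  simp

lemma finite_GG : Finite GG := Nat.finite_of_card_ne_zero (by rw [card_GG]; norm_num)

lemma finrank_le_of_proj {ι κ : Type} [Fintype κ] (W : Submodule K (ι → K)) (e : κ → ι)
    (h : ∀ w ∈ W, (∀ i, w (e i) = 0) → w = 0) : finrank K W ≤ Fintype.card κ := by
  have := LinearMap.finrank_le_finrank_of_injective
    (f := (LinearMap.funLeft K K e).comp W.subtype)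
    ((injective_iff_map_eq_zero _).2 fun w hw => Subtype.ext (h w w.2 fun i => congrFun hw i))
  simpa using this

lemma no_refl : ∀ g ∈ GG, finrank K (LinearMap.ker (toLin' ((g : Matrix N N K) - 1))) + 1 ≠
    Fintype.card N := by
  rintro _ ⟨g, rfl⟩
  have e : ((repM.toHomUnits g : GL N K) : Matrix N N K) = Bm (emb K g.toAdd) := rfl
  rw [e]
  by_cases hg : g.toAdd = 0
  · have e2 : toLin' (Bm (emb K g.toAdd) - 1) = 0 := by
      rw [hg, emb_zero, Bm_zero, sub_self, map_zero]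
    rw [e2, LinearMap.ker_zero]
    simp
  · have := finrank_le_of_proj (LinearMap.ker (toLin' (Bm (emb K g.toAdd) - 1))) Sum.inr
      fun w hw h0 => by
        rw [LinearMap.mem_ker, toLin'_apply, sub_mulVec, one_mulVec, sub_eq_zero, Bm_mulVec] at hw
        ext (p | p)
        · exact x_eq_zero_of_act hg hw p
        · exact h0 p
    have h1 : Fintype.card N = 30 := by simp
    have h2 : Fintype.card I5 = 15 := by simp
    rw [h1]
    rw [h2] at this
    intro h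
    have := (Nat.succ_le_succ this).trans' h.ge
    omega

lemma rank_ne_one : ∀ g ∈ GG, ((g : Matrix N N K) - 1).rank ≠ 1 := fun g hg h => by
  have h1 := LinearMap.finrank_range_add_finrank_ker (toLin' ((g : Matrix N N K) - 1))
  rw [toLin'_apply', ← Matrix.rank, h, finrank_fintype_fun_eq_card, add_comm] at h1
  exact no_refl g hg (by rw [toLin'_apply']; exact h1)

lemma Nq_eq {A : Type} [CommRing A] [Algebra K A] (c : Fin 3 → A) (T : A) :
    Nq c T = ∏ g : G0, (T + ∑ i, emb A g i * c i) := by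
  have : (Finset.univ : Finset G0) = {![0, 0, 0], ![1, 0, 0], ![0, 1, 0], ![0, 0, 1], ![1, 1, 0],
    ![1, 0, 1], ![0, 1, 1], ![1, 1, 1]} := by decide
  rw [this, Finset.prod_insert (by decide), Finset.prod_insert (by decide),
    Finset.prod_insert (by decide), Finset.prod_insert (by decide), Finset.prod_insert (by decide),
    Finset.prod_insert (by decide), Finset.prod_insert (by decide), Finset.prod_singleton]
  simp [Nq, Pq, emb, Fin.sum_univ_three]
  ring

lemma TT_single {A : Type} [CommRing A] [Algebra K A] (p : I5) (w : N → A) :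
    TT (Pi.single p 1) w = w (Sum.inr p) := by
  rw [TT, Finset.sum_eq_single p] <;> simp +contextual

instance : Algebra.IsIntegral R B := by
  refine ⟨fun h => ?_⟩
  induction h using MvPolynomial.induction_on with
  | C c => exact isIntegral_algebraMap (x := algebraMap K R c)
  | add p q hp hq => exact hp.add hq
  | mul_X h p hp =>
    refine hp.mul ?_
    rcases p with p | p
    · exact isIntegral_algebraMap (x := xR p)
    · refine ⟨∏ g : G0, (Polynomial.X + Polynomial.C (∑ i, emb R g i * cR (Pi.single p 1) i)) -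
        Polynomial.C (NR (Pi.single p 1)), ?_, ?_⟩
      · have hm : ∀ g ∈ (Finset.univ : Finset G0), (Polynomial.X + Polynomial.C
            (∑ i, emb R g i * cR (Pi.single p 1) i)).Monic := fun g _ => Polynomial.monic_X_add_C _
        refine (Polynomial.monic_prod_of_monic _ _ hm).sub_of_left ?_
        refine Polynomial.degree_C_le.trans_lt ?_
        rw [Polynomial.degree_prod_of_monic _ _ hm]
        simp only [Polynomial.degree_X_add_C]
        simp
      · rw [← Polynomial.aeval_def, map_sub, map_prod, sub_eq_zero, Polynomial.aeval_C]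
        change _ = Nq _ _
        rw [Nq_eq, TT_single]
        refine Finset.prod_congr rfl fun g _ => ?_
        rw [map_add, Polynomial.aeval_X, Polynomial.aeval_C, map_sum]
        rfl

lemma finiteType_R : Algebra.FiniteType K R := by
  have : Algebra.FiniteType R B := Algebra.FiniteType.of_restrictScalars_finiteType K R B
  have : Module.Finite R B := Algebra.IsIntegral.finite
  exact ⟨fg_of_fg_of_fg K R B Algebra.FiniteType.out Module.Finite.fg_top Subtype.val_injective⟩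

lemma DM_inr_zero {A : Type} [CommRing A] [Algebra K A] {α : Type} (v : N → A)
    (hv : ∀ p, v (Sum.inl p) = 0) (h : α → R) (i : α) (q : I5) : DM v h i (Sum.inr q) = 0 := by
  have e : act (emb A ![1, 0, 0]) v = v := by
    ext (p | p)
    · rfl
    · simp [mxv, hv]
  have := congrFun (congrFun (DM_act v h ![1, 0, 0]) i) (Sum.inl (q.1, q.2 + 1))
  rw [e, mul_apply, Fintype.sum_sum_type, Finset.sum_eq_single (q.1, q.2 + 1),
    Finset.sum_eq_single q] at this
  · obtain ⟨c, b⟩ := q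
    fin_cases b <;> simpa [Bm, emb, Fin.sum_univ_three, Mx] using this
  · rintro ⟨c', b'⟩ _ hp
    obtain ⟨c, b⟩ := q
    by_cases hc : c' = c
    · subst hc
      fin_cases b <;> fin_cases b' <;> simp [Bm, emb, Fin.sum_univ_three, Mx] at hp ⊢
    · simp [Bm, hc]
  · simp
  · intro p _ hp; simp [Bm, one_apply, hp]
  · simp

lemma Jac_mem_span (h : N → R) :
    (Jac h : B) ∈ Ideal.span (Set.range fun p : I5 => (X (Sum.inl p) : B)) := by
  set I := Ideal.span (Set.range fun p : I5 => (X (Sum.inl p) : B))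
  have e : ∀ p : B, Ideal.Quotient.mkₐ K I p = aeval (fun q => Ideal.Quotient.mkₐ K I (X q)) p :=
    fun p => by conv_lhs => rw [← aeval_X_left_apply p, algHom_aeval]
  rw [← Ideal.Quotient.eq_zero_iff_mem]
  change Ideal.Quotient.mkₐ K I _ = 0
  rw [e, aeval_Jac]
  exact det_eq_zero_of_column_eq_zero (Sum.inr (0, 0)) fun i => DM_inr_zero _ (fun p =>
    Ideal.Quotient.eq_zero_iff_mem.2 (Ideal.subset_span (Set.mem_range_self p))) h i _

lemma Jac_eq_zero {A : Type} [CommRing A] [IsDomain A] [Algebra K A] (γ : R →ₐ[K] A)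
    (hγ : ∀ p, γ (xR p) = 0) (h : N → R) : γ (Jac h) = 0 := by
  have := RingHom.ker_isPrime (γ : R →+* A)
  obtain ⟨Q, -, -, hQ⟩ := Ideal.exists_ideal_over_prime_of_isIntegral (S := B)
    (RingHom.ker (γ : R →+* A)) ⊥ (fun x hx => by
      rw [show x = 0 from Subtype.ext hx]; exact zero_mem _)
  have h1 : Ideal.span (Set.range fun p : I5 => (X (Sum.inl p) : B)) ≤ Q := by
    rw [Ideal.span_le]
    rintro _ ⟨p, rfl⟩
    have : xR p ∈ Q.comap (algebraMap R B) := by rw [hQ]; exact hγ p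
    exact this
  have : Jac h ∈ Q.comap (algebraMap R B) := h1 (Jac_mem_span h)
  rwa [hQ] at this

end Pool.Agent.MP_536a45_ag_b

end
end

section

/-!
Taylor expansion and Cramer's rule over Hahn series.
-/

noncomputable section

namespace Pool.Agent.MP_536a45_ag_b

open MvPolynomial Matrix

attribute [-simp] MvPolynomial.aeval_eq_bind₁

lemma aeval_mem (S : Subalgebra K H) {σ : Type} {v : σ → H} (hv : ∀ i, v i ∈ S)
    (p : MvPolynomial σ K) : aeval v p ∈ S := by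
  induction p using MvPolynomial.induction_on with
  | C c => simp
  | add p q hp hq => rw [map_add]; exact add_mem hp hq
  | mul_X p i hp => rw [map_mul, aeval_X]; exact mul_mem hp (hv i)

lemma ge_aeval {σ : Type} {v : σ → H} (hv : ∀ i, Ge 0 (v i)) (p : MvPolynomial σ K) :
    Ge 0 (aeval v p) := aeval_mem OS hv p

lemma ge_alg (c : K) : Ge 0 (algebraMap K H c) := algebraMap_mem OS c

lemma ge_aeval_sub {σ : Type} {v w : σ → H} (hv : ∀ i, Ge 0 (v i)) (hw : ∀ i, Ge 0 (w i)) {s : ℚ}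
    (h : ∀ i, Ge s (w i - v i)) (p : MvPolynomial σ K) : Ge s (aeval w p - aeval v p) := by
  induction p using MvPolynomial.induction_on with
  | C c => simpa using ge_zero s
  | add p q hp hq => convert hp.add hq using 1; simp only [map_add]; ring
  | mul_X p i hp =>
    convert (hp.mul_right (hw i)).add ((ge_aeval hv p).mul_left (h i)) using 1
    simp only [map_mul, aeval_X]; ring

lemma taylor {σ : Type} [Fintype σ] {v δ : σ → H} (hv : ∀ i, Ge 0 (v i)) {s : ℚ} (hs : 0 ≤ s)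
    (h : ∀ i, Ge s (δ i)) (p : MvPolynomial σ K) :
    Ge (2 * s) (aeval (v + δ) p - aeval v p - ∑ i, aeval v (pderiv i p) * δ i) := by
  classical
  induction p using MvPolynomial.induction_on with
  | C c => simpa using ge_zero _
  | add p q hp hq =>
    convert hp.add hq using 1
    simp only [map_add, add_mul, Finset.sum_add_distrib]; ring
  | mul_X p j hp =>
    have h1 : Ge s (∑ i, aeval v (pderiv i p) * δ i) :=
      Ge.sum fun i _ => (ge_aeval hv _).mul_left (h i)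
    have h2 := (hp.mul_right ((hv j).add ((h j).mono hs))).add (two_mul s ▸ h1.mul (h j))
    convert h2 using 1
    have : ∑ i, aeval v (pderiv i (p * X j)) * δ i =
        aeval v p * δ j + (∑ i, aeval v (pderiv i p) * δ i) * v j := by
      simp only [Derivation.leibniz, smul_eq_mul, map_add, map_mul, aeval_X, add_mul,
        Finset.sum_add_distrib, pderiv_X, Finset.sum_mul]
      congr 1
      · rw [Finset.sum_eq_single j]
        · simp
        · intro b _ hb; simp [Pi.single_eq_of_ne hb.symm]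
        · simp
      · exact Finset.sum_congr rfl fun _ _ => by ring
    rw [this]
    simp only [map_mul, aeval_X, Pi.add_apply]
    ring

section
variable {n : Type} [Fintype n] [DecidableEq n]

lemma det_mem (S : Subalgebra K H) {D : Matrix n n H} (h : ∀ i j, D i j ∈ S) : D.det ∈ S := by
  rw [det_apply']
  exact sum_mem fun σ _ => mul_mem (intCast_mem _ _) (prod_mem fun i _ => h _ _)

lemma adjugate_mem (S : Subalgebra K H) {D : Matrix n n H} (h : ∀ i j, D i j ∈ S) (i j : n) :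
    D.adjugate i j ∈ S := by
  rw [adjugate_apply]
  refine det_mem S fun a b => ?_
  rw [updateRow_apply]
  split_ifs
  · rw [Pi.single_apply]; split_ifs; exacts [one_mem _, zero_mem _]
  · exact h _ _

omit [DecidableEq n] in
lemma ge_mulVec {m : Type} {D : Matrix m n H} {s t : ℚ} (h : ∀ i j, Ge t (D i j)) {δ : n → H}
    (hδ : ∀ i, Ge s (δ i)) (i : m) : Ge (t + s) ((D *ᵥ δ) i) :=
  Ge.sum fun j _ => (h i j).mul (hδ j)

lemma ge_of_mulVec {D : Matrix n n H} (h : ∀ i j, Ge 0 (D i j)) {e s : ℚ} (he : Le e D.det)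
    {δ : n → H} (hδ : ∀ i, Ge s ((D *ᵥ δ) i)) (i : n) : Ge (s - e) (δ i) := by
  have := ge_mulVec (adjugate_mem OS h) hδ i
  rw [mulVec_mulVec, adjugate_mul, smul_mulVec, one_mulVec, zero_add] at this
  exact this.of_mul he

end

lemma mxv_mem (S : Subalgebra K H) {w : N → H} (hw : ∀ p, w (Sum.inl p) ∈ S) (i : Fin 3) (p : I5) :
    mxv i w p ∈ S := sum_mem fun _ _ => mul_mem (algebraMap_mem _ _) (hw _)

lemma cc_mem (S : Subalgebra K H) {w : N → H} (hw : ∀ p, w (Sum.inl p) ∈ S) (l : I5 → K)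
    (i : Fin 3) : cc l w i ∈ S := sum_mem fun _ _ => mul_mem (algebraMap_mem _ _) (mxv_mem S hw _ _)

lemma act_mem (S : Subalgebra K H) {w : N → H} (hw : ∀ p, w p ∈ S) {u : Fin 3 → H}
    (hu : ∀ i, u i ∈ S) (q : N) : act u w q ∈ S := by
  rcases q with p | p
  · exact hw _
  · exact add_mem (hw _) (sum_mem fun i _ => mul_mem (hu i) (mxv_mem S (fun _ => hw _) _ _))

lemma ge_mxv {s : ℚ} {w : N → H} (hw : ∀ p, Ge s (w (Sum.inl p))) (i : Fin 3) (p : I5) :
    Ge s (mxv i w p) := Ge.sum fun _ _ => (ge_alg _).mul_left (hw _)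

lemma ge_act {s t : ℚ} (ht : t ≤ 0) {w : N → H} (hw : ∀ p, Ge s (w p)) {u : Fin 3 → H}
    (hu : ∀ i, Ge t (u i)) (q : N) : Ge (t + s) (act u w q) := by
  rcases q with p | p
  · exact (hw _).mono (by linarith)
  · exact ((hw _).mono (by linarith)).add
      (Ge.sum fun i _ => (hu i).mul (ge_mxv (fun _ => hw _) _ _))

lemma ge_emb (g : G0) (i : Fin 3) : Ge 0 (emb H g i) := ge_alg _

lemma Bq_mem (S : Subalgebra K H) {c : Fin 3 → H} (hc : ∀ i, c i ∈ S) (i : Fin 3) : Bq c i ∈ S :=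
  mul_mem (mul_mem (hc _) (hc _)) (add_mem (hc _) (hc _))

lemma Aq_mem (S : Subalgebra K H) {c : Fin 3 → H} (hc : ∀ i, c i ∈ S) (i : Fin 3) : Aq c i ∈ S :=
  add_mem (add_mem (pow_mem (hc _) _) (mul_mem (hc _) (hc _))) (pow_mem (hc _) _)

lemma mu_mem (S : Subalgebra K H) {c : Fin 3 → H} (hc : ∀ i, c i ∈ S) : mu c ∈ S := by
  rw [mu]
  refine mul_mem (mul_mem (mul_mem (mul_mem (mul_mem (mul_mem ?_ ?_) ?_) ?_) ?_) ?_) ?_ <;>
    simp [add_mem, hc]

lemma ge_Pq {c : Fin 3 → H} (hc : ∀ i, Ge 0 (c i)) {s : ℚ} (hs : 0 ≤ s) {T : H} (hT : Ge s T)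
    (i : Fin 3) : Ge s (Pq c i T) := by
  have h0 := hT.mono hs
  exact ((hT.mul_right (h0.add (hc _))).mul_right (h0.add (hc _))).mul_right
    ((h0.add (hc _)).add (hc _))

/-- Small combinations have small Artin-Schreier coefficients. -/
lemma ge_of_sum {c u : Fin 3 → H} (hc : ∀ i, Ge 0 (c i)) (hc' : ∀ i, c i ∈ ZS) {e s : ℚ}
    (hμ : Le e (mu c)) (hu : ∀ i, NZ (u i)) (hu' : ∀ i, u i ^ 2 + u i ∈ ZS) (hs : 0 ≤ s)
    (h : Ge s (∑ i, u i * c i)) (i : Fin 3) : Ge (s - e) (u i) := by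
  have h1 := Ge.mul_left (Bq_mem OS hc i) (ge_Pq hc hs h i)
  rw [Pq_sum, add_comm, mul_comm (mu c)] at h1
  have h2 := (ge_of_add (mul_mem (Bq_mem ZS hc' i) (sum_mem fun l _ => add_mem
    (mul_mem (pow_mem (hc' l) _) (add_mem (hu' l) (pow_mem (hu' l) _)))
    (mul_mem (mul_mem (Aq_mem ZS hc' i) (pow_mem (hc' l) _)) (hu' l))))
    ((hu i).mul (mu_mem ZS hc')) h1).2
  rw [mul_comm] at h2
  exact h2.of_mul hμ

/-- All nonzero combinations are large. -/
def Good (l : I5 → K) (o : ℚ) (v : N → H) : Prop :=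
  ∀ g : G0, g ≠ 0 → Le o (∑ i, emb H g i * cc l v i)

lemma Good.mu {l : I5 → K} {o : ℚ} {v : N → H} (h : Good l o v) : Le (7 * o) (mu (cc l v)) := by
  rw [mu_eq]
  have := Le.prod (t := Finset.univ.erase (0 : G0)) fun g hg => h g (Finset.ne_of_mem_erase hg)
  rw [Finset.card_erase_of_mem (Finset.mem_univ _),
    show (Finset.univ : Finset G0).card = 8 by simp] at this
  exact_mod_cast this

lemma Good.mono {l : I5 → K} {o o' : ℚ} {v : N → H} (h : Good l o v) (ho : o ≤ o') :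
    Good l o' v := fun g hg => (h g hg).mono ho

lemma coeff_alg_mul (c : K) (z : H) (γ : ℚ) : (algebraMap K H c * z).coeff γ = c * z.coeff γ := by
  rw [algebraMap_H, HahnSeries.coeff_single_zero_mul]

lemma exists_lam {v : N → H} {o : ℚ} {p : I5} (h : (v (Sum.inl p)).coeff o ≠ 0) :
    ∃ c, ∃ s ∈ S15, Good (lam c s) o v := by
  obtain ⟨s, hs, hg⟩ := exists_good (w := fun b => (v (Sum.inl (p.1, b))).coeff o)
    fun h0 => h (congrFun h0 p.2)
  refine ⟨p.1, s, hs, fun g hg0 => ⟨o, le_rfl, ?_⟩⟩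
  convert hg g hg0 using 1
  simp only [cc, sum_lam]
  simp only [HahnSeries.coeff_sum, emb, coeff_alg_mul, mxv, Finset.mul_sum, phM,
    mulVec, dotProduct, Matrix.sum_apply, Finset.sum_mul, Matrix.smul_apply, smul_eq_mul]
  rw [Finset.sum_comm]
  refine Finset.sum_congr rfl fun a _ => ?_
  rw [Finset.sum_comm]
  refine Finset.sum_congr rfl fun b _ => Finset.sum_congr rfl fun i _ => ?_
  simp; ring

lemma exists_min {α : Type} {x : α → H} (hx : ∀ p, x p ∈ ZS) (h0 : ∀ p, Ge 0 (x p)) (h : x ≠ 0) :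
    ∃ o : ℕ, (∀ p, Ge o (x p)) ∧ ∃ p, (x p).coeff o ≠ 0 := by
  classical
  have key : ∀ p γ, (x p).coeff γ ≠ 0 → ∃ n : ℕ, γ = n := fun p γ hγ => by
    obtain ⟨P, hP⟩ := exists_toH (hx p) (h0 p)
    exact toH_coeff_ne (hP ▸ hγ)
  have : ∃ n : ℕ, ∃ p, (x p).coeff n ≠ 0 := by
    by_contra! h'
    refine h (funext fun p => HahnSeries.ext (funext fun γ => by_contra fun hγ => ?_))
    obtain ⟨n, rfl⟩ := key p γ hγ
    exact hγ (h' n p)
  refine ⟨Nat.find this, fun p γ hγ => by_contra fun h' => ?_, Nat.find_spec this⟩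
  obtain ⟨n, rfl⟩ := key p γ h'
  exact Nat.find_min this (by exact_mod_cast hγ) ⟨p, h'⟩

end Pool.Agent.MP_536a45_ag_b

end
end

section

/-!
Arcs of the quotient as twisted points.
-/

noncomputable section

namespace Pool.Agent.MP_536a45_ag_b

open MvPolynomial Matrix

attribute [-simp] MvPolynomial.aeval_eq_bind₁

variable {J : ℕ}

/-- The twisted point. -/
def tw (r : Fin 3 → Fin J → K) (ξ : N → H) : N → H := act (fun i => al (r i)) ξ

lemma int_of_inv {v : N → H} (h : ∀ h : R, Ge 0 (aeval v (h : B))) (q : N) : Ge 0 (v q) := by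
  have hx : ∀ p, Ge 0 (v (Sum.inl p)) := fun p => by simpa [xR] using h (xR p)
  rcases q with p | p
  · exact hx p
  intro γ hγ
  by_contra h'
  have h1 := h (NR (Pi.single p 1))
  simp only [NR, map_Nq, map_cc, map_TT, aeval_X] at h1
  rw [Nq_eq, TT_single] at h1
  have h2 := Le.prod (t := (Finset.univ : Finset G0)) fun g _ =>
    Le.add_ge (⟨γ, le_rfl, h'⟩ : Le γ (v (Sum.inr p))) (Ge.sum (t := Finset.univ) fun i _ =>
      (ge_emb g i).mul_left (cc_mem OS hx (Pi.single p 1) i)) hγ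
  refine h1.not_le ?_ h2
  have : (Finset.univ : Finset G0).card = 8 := by simp
  rw [this]; push_cast; linarith

lemma nz_sum {r : Fin 3 → Fin J → K} {ξ : N → H} (hξ : ∀ q, ξ q ∈ ZS) (p : I5) :
    NZ (∑ i, al (r i) * mxv i ξ p) :=
  NZ.sum fun _ _ => (al_nz _).mul (mxv_mem ZS (fun _ => hξ _) _ _)

lemma tw_split {r : Fin 3 → Fin J → K} {ξ : N → H} (hξ : ∀ q, ξ q ∈ ZS)
    (hv : ∀ q, Ge 0 (tw r ξ q)) :
    (∀ q, Ge 0 (ξ q)) ∧ ∀ p, Ge 0 (∑ i, al (r i) * mxv i ξ p) := by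
  have := fun p => ge_of_add (hξ (Sum.inr p)) (nz_sum (r := r) hξ p) (hv (Sum.inr p))
  refine ⟨?_, fun p => (this p).2⟩
  rintro (p | p)
  · exact hv (Sum.inl p)
  · exact (this p).1

lemma tw_mem_ZS (r : Fin 3 → Fin J → K) {ξ : N → H} (hξ : ∀ q, ξ q ∈ ZS) (h : R) :
    aeval (tw r ξ) (h : B) ∈ ZS ∧
      ∀ i, ∑ j, aeval (tw r ξ) (pderiv j (h : B)) * Bm (fun i => al (r i)) j i ∈ ZS := by
  obtain ⟨F, hF⟩ := exists_F h
  have : ∀ q, Sum.elim ξ (fun l => al (r l) ^ 2 + al (r l)) q ∈ ZS := by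
    rintro (q | l)
    · exact hξ q
    · simp only [Sum.elim_inr, al_sq]; exact fS_mem_ZS _
  refine ⟨?_, fun i => ?_⟩
  · rw [tw, (hF H ξ _).1]; exact aeval_mem ZS this _
  · rw [tw, (hF H ξ _).2]; exact aeval_mem ZS this _

lemma exists_arc (r : Fin 3 → Fin J → K) {ξ : N → H} (hξ : ∀ q, ξ q ∈ ZS)
    (h0 : ∀ h : R, Ge 0 (aeval (tw r ξ) (h : B))) :
    ∃ γ : R →ₐ[K] PowerSeries K, ∀ h, toH (γ h) = aeval (tw r ξ) (h : B) := by
  let E := AlgEquiv.ofInjective toH toH_injective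
  refine ⟨E.symm.toAlgHom.comp (((aeval (tw r ξ)).comp (InvRing GG).val).codRestrict _ fun h =>
    exists_toH (tw_mem_ZS r hξ h).1 (h0 h)), fun h => ?_⟩
  exact congrArg Subtype.val (E.apply_symm_apply _)

/-- The `x`-part of an arc. -/
def xa (γ : R →ₐ[K] PowerSeries K) : N → H := Sum.elim (fun p => toH (γ (xR p))) 0

lemma exists_rep (γ : R →ₐ[K] PowerSeries K) {l : I5 → K} {o : ℕ} (hl : Good l o (xa γ))
    (hJ : 7 * o ≤ J) : ∃ (r : Fin 3 → Fin J → K) (ξ : N → H), (∀ q, ξ q ∈ ZS) ∧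
      ∀ h, toH (γ h) = aeval (tw r ξ) (h : B) := by
  have hμ := hl.mu
  have hc := cc_mem ZS (w := xa γ) (fun p => toH_mem_ZS _) l
  have hc0 := cc_mem OS (w := xa γ) (fun p => ge_toH _) l
  set c := cc l (xa γ)
  have := fun i => exists_normal (J := J) (14 * o) (by omega)
    (z := Bq c i ^ 2 * toH (γ (NR l)) / mu c ^ 2)
    (div_mem_ZS (mul_mem (pow_mem (Bq_mem ZS hc i) 2) (toH_mem_ZS _)) (pow_mem (mu_mem ZS hc) 2))
    (by
      have := Ge.of_mul (s := 0) (z := Bq c i ^ 2 * toH (γ (NR l)) / mu c ^ 2) (by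
        rw [mul_div_cancel₀ _ (pow_ne_zero 2 hμ.ne_zero)]
        exact mul_mem (S := Subalgebra K H) (s := OS) (pow_mem (Bq_mem OS hc0 i) 2) (ge_toH _))
        (hμ.pow 2)
      convert this using 1
      push_cast; ring)
  choose r β hβ e using this
  let ξ : N → H := Sum.elim (fun p => toH (γ (xR p))) fun p => toH (γ (YR l p)) / mu c
  have hξ : ∀ q, ξ q ∈ ZS := by
    rintro (p | p)
    · exact toH_mem_ZS _
    · exact div_mem_ZS (toH_mem_ZS _) (mu_mem ZS hc)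
  refine ⟨r, act β ξ, act_mem ZS hξ hβ, fun h => ?_⟩
  rw [tw, act_act]
  have ec : cc l ξ = c := rfl
  refine (eval_eq_of_rep (toH.comp γ) (l := l) ξ _ (ec ▸ hμ.ne_zero) (fun p => rfl)
    (fun p => ec ▸ mul_div_cancel₀ _ hμ.ne_zero) (fun i => ?_) h).symm
  rw [ec, AlgHom.comp_apply]
  rw [← mul_div_cancel₀ (Bq c i ^ 2 * toH (γ (NR l))) (pow_ne_zero 2 hμ.ne_zero), ← e i, ← al_sq,
    Pi.add_apply, CharTwo.add_sq]
  ring

lemma le_toH_iff {p : PowerSeries K} {n : ℕ} : Le n (toH p) ↔ p.order ≤ n := by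
  rw [← not_iff_not, not_le]
  constructor
  · intro h
    have := ge_succ_of_not_le (a := n) (toH_mem_ZS p) (by exact_mod_cast h)
    have := (ge_toH_iff (n := n + 1)).1 (by exact_mod_cast this)
    exact lt_of_lt_of_le (by exact_mod_cast Nat.lt_succ_self n) this
  · intro h
    refine ((ge_toH_iff (n := n + 1)).2 (Order.add_one_le_of_lt h)).not_le ?_
    push_cast; linarith

lemma mem_ord {ι : Type} {g : ι → R} (hg : II = Ideal.span (Set.range g))
    {γ : R →ₐ[K] PowerSeries K} {a : ℕ} : γ ∈ ordSet II a ↔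
      (∀ i, Ge a (toH (γ (g i)))) ∧ ∃ i, Le a (toH (γ (g i))) := by
  have e : ⨅ h ∈ II, (γ h).order = ⨅ i, (γ (g i)).order := by
    refine le_antisymm (le_iInf fun i => iInf₂_le (g i) (hg ▸ Ideal.subset_span ⟨i, rfl⟩))
      (le_iInf₂ fun h hh => ?_)
    rw [hg] at hh
    induction hh using Submodule.span_induction with
    | mem x hx => obtain ⟨i, rfl⟩ := hx; exact iInf_le _ i
    | zero => simp
    | add x y _ _ hx hy =>
      rw [map_add]; exact (le_min hx hy).trans (PowerSeries.min_order_le_order_add _ _)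
    | smul a x _ hx =>
      rw [smul_eq_mul, map_mul, PowerSeries.order_mul]; exact hx.trans le_add_self
  simp only [ordSet, Set.mem_ofPred_eq, e, ge_toH_iff, le_toH_iff]
  constructor
  · intro h
    refine ⟨fun i => h ▸ iInf_le _ i, by_contra fun h' => ?_⟩
    push Not at h'
    have : ((a + 1 : ℕ) : ℕ∞) ≤ a := h ▸ le_iInf fun i => Order.add_one_le_of_lt (h' i)
    exact absurd (by exact_mod_cast this) (Nat.not_succ_le_self a)
  · rintro ⟨h1, i, h2⟩
    exact le_antisymm ((iInf_le _ i).trans h2) (le_iInf h1)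

lemma ge_Jac {v : N → H} (hv : ∀ q, Ge 0 (v q)) {o : ℚ} (hx : ∀ p, Ge o (v (Sum.inl p)))
    (h : N → R) : Ge o (aeval v (Jac h : B)) := by
  obtain ⟨b, hb⟩ := Ideal.mem_span_range_iff_exists_fun.1 (Jac_mem_span h)
  rw [← hb, map_sum]
  exact Ge.sum fun p _ => by rw [map_mul, aeval_X]; exact (ge_aeval hv _).mul_left (hx p)

lemma Good.le_Jac {c : Fin 5} {s : K} {o : ℚ} {v : N → H} (h : Good (lam c s) o v) :
    Le (105 * o) (aeval v (Jac (f0 c s) : B)) := by
  have := h.mu.pow 15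
  rw [Jac_f0, SubmonoidClass.coe_pow, coe_muR, map_pow, map_mu]
  simp only [map_cc, aeval_X]
  convert this using 1
  push_cast; ring

/-- Points of order `a`. -/
def OrdV (a : ℕ) (v : N → H) : Prop :=
  (∀ q, Ge 0 (v q)) ∧ (∀ h : N → R, Ge a (aeval v (Jac h : B))) ∧
    ∃ h : N → R, Le a (aeval v (Jac h : B))

lemma OrdV.exists_good {a : ℕ} {v : N → H} (h : OrdV a v) (hx : ∀ p, v (Sum.inl p) ∈ ZS) :
    ∃ o : ℕ, o ≤ a ∧ a ≤ 105 * o ∧ (∀ p, Ge o (v (Sum.inl p))) ∧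
      ∃ c, ∃ s ∈ S15, Good (lam c s) o v := by
  obtain ⟨h0, h1, g, h2⟩ := h
  obtain ⟨o, ho, p, hp⟩ := exists_min hx (fun p => h0 _) fun hx0 =>
    (ge_Jac h0 (o := a + 1) (fun p => by rw [congrFun hx0 p]; exact ge_zero _) g).not_le
      (by linarith) h2
  obtain ⟨c, s, hs, hg⟩ := exists_lam hp
  exact ⟨o, by exact_mod_cast (ge_Jac h0 ho g).le_of_le h2,
    by exact_mod_cast (h1 _).le_of_le hg.le_Jac, ho, c, s, hs, hg⟩

lemma ordV_iff {γ : R →ₐ[K] PowerSeries K} {v : N → H} (h : ∀ h, toH (γ h) = aeval v (h : B))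
    {a : ℕ} : γ ∈ ordSet II a ↔ OrdV a v := by
  rw [mem_ord (g := Jac) rfl]
  simp only [h]
  exact ⟨fun h' => ⟨int_of_inv fun g => h g ▸ ge_toH _, h'⟩, fun h' => h'.2⟩

theorem rep {γ : R →ₐ[K] PowerSeries K} {a : ℕ} (hγ : γ ∈ ordSet II a) (hJ : 7 * a ≤ J) :
    ∃ (r : Fin 3 → Fin J → K) (ξ : N → H), (∀ q, ξ q ∈ ZS) ∧
      ∀ h, toH (γ h) = aeval (tw r ξ) (h : B) := by
  obtain ⟨o, ho, p, hp⟩ := exists_min (x := fun p => toH (γ (xR p))) (fun p => toH_mem_ZS _)
    (fun p => ge_toH _) fun h0 => by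
      obtain ⟨-, g, hg⟩ := (mem_ord (g := Jac) rfl).1 hγ
      rw [Jac_eq_zero γ fun p => toH_injective (by rw [map_zero]; exact congrFun h0 p),
        map_zero] at hg
      exact hg.ne_zero rfl
  obtain ⟨c, s, -, hg⟩ := exists_lam (v := xa γ) hp
  obtain ⟨r, ξ, h1, h2⟩ := exists_rep γ hg le_rfl
  obtain ⟨h0, -, g, h3⟩ := (ordV_iff h2).1 hγ
  have : o ≤ a := by
    exact_mod_cast (ge_Jac h0 (o := o) (fun p => by simpa [h2, xR] using ho p) g).le_of_le h3
  exact exists_rep γ hg (by omega)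

end Pool.Agent.MP_536a45_ag_b

end
end

section

/-!
Points with congruent invariants.
-/

noncomputable section

namespace Pool.Agent.MP_536a45_ag_b

open MvPolynomial Matrix

attribute [-simp] MvPolynomial.aeval_eq_bind₁

section
variable {A : Type} [CommRing A] [Algebra K A] (v : N → A) (l : I5 → K)

lemma aeval_xR (p : I5) : aeval v (xR p : B) = v (Sum.inl p) := by simp [xR]
lemma aeval_YR (p : I5) : aeval v (YR l p : B) = Yq l v p := by simp [YR]
lemma aeval_NR : aeval v (NR l : B) = Nq (cc l v) (TT l v) := by simp [NR]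
lemma aeval_muR : aeval v (muR l : B) = mu (cc l v) := by simp [coe_muR]

end

variable {J : ℕ}

lemma near_aux {c : Fin 3 → H} (hc : ∀ i, Ge 0 (c i)) {o s : ℚ} (hμ : Le (7 * o) (mu c))
    {T T' : H} (h : Ge s (Nq c T' - Nq c T)) : ∃ d : Fin 3 → H,
      (∀ i, mu c * d i = Bq c i * Pq c i T' + Bq c i * Pq c i T) ∧
      ∀ i, ∃ g : ZMod 2, Ge (s - 14 * o) (d i + algebraMap K H (algebraMap _ K g)) := by
  have h2 := two_alg H
  have hd : ∀ i, mu c * (Bq c i * Pq c i (T' + T) / mu c) =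
      Bq c i * Pq c i T' + Bq c i * Pq c i T := fun i => by
    rw [mul_div_cancel₀ _ hμ.ne_zero, Pq_add, mul_add]
  refine ⟨_, hd, fun i => ?_⟩
  have h1 := hd i
  generalize Bq c i * Pq c i (T' + T) / mu c = d at h1 ⊢
  have h5 := Ge.mul_left (mem_OS.1 (pow_mem (Bq_mem OS hc i) 2)) h
  have e : Bq c i ^ 2 * (Nq c T' - Nq c T) = mu c ^ 2 * (d ^ 2 + d) := by
    rw [mul_sub, Bq_Nq, Bq_Nq]
    generalize Bq c i * Pq c i T' = a at h1 ⊢
    generalize Bq c i * Pq c i T = b at h1 ⊢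
    generalize mu c = μ at h1 ⊢
    grind
  rw [e] at h5
  have h6 := h5.of_mul (hμ.pow 2)
  rw [show s - (2 : ℕ) * (7 * o) = s - 14 * o by push_cast; ring] at h6
  rcases as_small h6 with h7 | h7
  · exact ⟨0, by simpa using h7⟩
  · exact ⟨1, by simpa using h7⟩

lemma exists_near {v w : N → H} (hv : ∀ q, Ge 0 (v q)) (hw : ∀ q, Ge 0 (w q)) {l : I5 → K}
    {o s : ℚ} (ho : 0 ≤ o) (hl : Good l o v)
    (h : ∀ h : R, Ge s (aeval w (h : B) - aeval v (h : B))) :
    ∃ g : G0, ∀ q, Ge (s - 14 * o) (w q - act (emb H g) v q) := by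
  have hle : s - 14 * o ≤ s - 7 * o := by linarith
  have h2 := two_alg H
  have hx : ∀ p, Ge s (w (Sum.inl p) - v (Sum.inl p)) := fun p => by simpa [xR] using h (xR p)
  let w' : N → H := Sum.elim (fun p => v (Sum.inl p)) fun p => w (Sum.inr p)
  have hw' : ∀ h : R, Ge s (aeval w' (h : B) - aeval v (h : B)) := fun g => by
    have := ge_aeval_sub (v := w') (s := s) (by rintro (p | p); exacts [hv _, hw _]) hw
      (by rintro (p | p); exacts [hx p, by simpa [w'] using ge_zero s]) (g : B)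
    simpa using (h g).sub this
  have hμ := hl.mu
  have ec : cc l w' = cc l v := rfl
  have em : ∀ i p, mxv i w' p = mxv i v p := fun _ _ => rfl
  have h4 := hw' (NR l)
  rw [aeval_NR, aeval_NR, ec] at h4
  obtain ⟨d, hd, h3⟩ := near_aux (cc_mem OS (w := v) (fun p => hv _) l) hμ h4
  choose g hg using h3
  refine ⟨g, ?_⟩
  rintro (p | p)
  · exact (hx p).mono (by linarith)
  have h4 := hw' (YR l p)
  have e : Yq l w' p - Yq l v p =
      mu (cc l v) * (w (Sum.inr p) - v (Sum.inr p) + ∑ i, d i * mxv i v p) := by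
    have e0 : w' (Sum.inr p) = w (Sum.inr p) := rfl
    simp only [Yq, ec, em, e0, Fin.sum_univ_three]
    generalize cc l v = c at hd ⊢
    linear_combination -(mxv 0 v p) * hd 0 - mxv 1 v p * hd 1 - mxv 2 v p * hd 2 -
      (Bq c 0 * Pq c 0 (TT l v) * mxv 0 v p + Bq c 1 * Pq c 1 (TT l v) * mxv 1 v p +
        Bq c 2 * Pq c 2 (TT l v) * mxv 2 v p) * h2
  rw [aeval_YR, aeval_YR, e] at h4
  have h6 := Ge.mono (Ge.of_mul h4 hμ) hle
  have h7 : Ge (s - 14 * o) (∑ i, (d i + algebraMap K H (algebraMap _ K (g i))) * mxv i v p) :=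
    Ge.sum fun i _ => (hg i).mul_right (ge_mxv (w := v) (fun _ => hv _) i p)
  convert h6.sub h7 using 1
  simp only [act_inr, emb, add_mul, Finset.sum_add_distrib]
  ring

lemma sum_cc {A : Type} [CommRing A] [Algebra K A] (l : I5 → K) (u : Fin 3 → A) (w : N → A) :
    ∑ i, u i * cc l w i = ∑ p, algebraMap K A (l p) * ∑ i, u i * mxv i w p := by
  simp only [cc, Finset.mul_sum]
  rw [Finset.sum_comm]
  exact Finset.sum_congr rfl fun _ _ => Finset.sum_congr rfl fun _ _ => by ring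

lemma eq_of_ge_sum {r r' : Fin 3 → Fin J → K} {ξ : N → H} (hξ : ∀ p, ξ (Sum.inl p) ∈ ZS)
    (h0 : ∀ p, Ge 0 (ξ (Sum.inl p))) {l : I5 → K} {o : ℚ} (ho : 0 ≤ o) (hl : Good l o ξ)
    (h : ∀ p, Ge (7 * o) (∑ i, (al (r' i) - al (r i)) * mxv i ξ p)) : r = r' := by
  ext1 i
  have := ge_of_sum (u := fun i => al (r' i) - al (r i)) (cc_mem OS h0 l) (cc_mem ZS hξ l) hl.mu
    (fun i => (al_nz _).sub (al_nz _)) (fun i => by
      have h2 := two_alg H
      have : (al (r' i) - al (r i)) ^ 2 + (al (r' i) - al (r i)) = fS (r' i) - fS (r i) := by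
        rw [← al_sq, ← al_sq]; grind
      rw [this]; exact sub_mem (fS_mem_ZS _) (fS_mem_ZS _)) (s := 7 * o) (by linarith)
    (by rw [sum_cc]; exact Ge.sum fun p _ => (ge_alg _).mul_left (h p)) i
  rw [sub_self] at this
  exact (eq_of_ge_al this).symm

lemma eq_of_near {r r' : Fin 3 → Fin J → K} {ξ ξ' : N → H} (hξ : ∀ q, ξ q ∈ ZS)
    (hξ' : ∀ q, ξ' q ∈ ZS) (h0 : ∀ p, Ge 0 (ξ (Sum.inl p))) {l : I5 → K} {o s : ℚ} (ho : 0 ≤ o)
    (hl : Good l o ξ) (hs : 7 * o + J ≤ s) {g : G0}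
    (h : ∀ q, Ge s (tw r' ξ' q - act (emb H g) (tw r ξ) q)) : r = r' := by
  refine eq_of_ge_sum (fun _ => hξ _) h0 ho hl fun p => ?_
  have h1 := (ge_of_add (z := ξ' (Sum.inr p) - ξ (Sum.inr p) - ∑ i, emb H g i * mxv i ξ p)
    (sub_mem (sub_mem (hξ' _) (hξ _)) (sum_mem fun i _ => mul_mem (algebraMap_mem _ _)
      (mxv_mem ZS (fun _ => hξ _) _ _))) ((nz_sum (r := r') hξ' p).sub (nz_sum (r := r) hξ p))
      (s := s) (by convert h (Sum.inr p) using 1; simp only [tw, act_inr, mxv_act]; ring)).2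
  have h2 : Ge (-J + s) (∑ i, al (r' i) * mxv i (ξ' - ξ) p) :=
    Ge.sum fun i _ => (al_ge _).mul (ge_mxv (fun p => h (Sum.inl p)) _ _)
  have := ((h1.mono (show 7 * o ≤ s by linarith [(Nat.cast_nonneg J : (0 : ℚ) ≤ J)])).sub
    (h2.mono (by linarith)))
  convert this using 1
  simp only [mxv_sub, mul_sub, sub_mul, Finset.sum_sub_distrib]
  ring

lemma Good.sep {v : N → H} {l : I5 → K} {o s : ℚ} (hl : Good l o v) (hs : o < s) {g g' : G0}
    (h : ∀ q, Ge s (act (emb H g) v q - act (emb H g') v q)) : g = g' := by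
  by_contra hne
  have e : ∀ i, emb H (g - g') i = emb H g i - emb H g' i := fun i => by simp [emb]
  refine Ge.not_le ?_ hs (hl (g - g') (sub_ne_zero.2 hne))
  rw [sum_cc]
  refine Ge.sum fun p _ => (ge_alg _).mul_left ?_
  convert h (Sum.inr p) using 1
  simp [e, sub_mul]

lemma OrdV.cv {a : ℕ} {v : N → H} (hv : OrdV a v) {g : N → R} (hg : Le a (aeval v (Jac g : B)))
    {δ : N → H} {s : ℚ} (hδ : ∀ q, Ge s ((DM v g *ᵥ δ) q)) :
    (∀ q, Ge (s - a) (δ q)) ∧ ∀ h : R, Ge s (∑ q, aeval v (pderiv q (h : B)) * δ q) := by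
  refine ⟨ge_of_mulVec (D := DM v g) (fun i j => ge_aeval hv.1 _) (by rwa [← aeval_Jac]) hδ, fun h => ?_⟩
  have : Ge (a + s) (aeval v (Jac g : B) * ∑ q, aeval v (pderiv q (h : B)) * δ q) := by
    simp only [Finset.mul_sum, ← mul_assoc]
    rw [Finset.sum_congr rfl fun q _ => by rw [cramer_DM, Finset.sum_mul], Finset.sum_comm]
    refine Ge.sum fun i _ => ?_
    convert (hv.2.1 (Function.update g i h)).mul (hδ i) using 1
    simp only [mulVec, dotProduct, DM, of_apply, Finset.mul_sum, mul_assoc]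
  simpa using this.of_mul hg

lemma OrdV.congr {a : ℕ} {v w : N → H} (hv : OrdV a v) {s : ℚ} (hs : a < s)
    (h : ∀ h : R, Ge s (aeval w (h : B) - aeval v (h : B))) : OrdV a w := by
  have ha : (0 : ℚ) ≤ a := Nat.cast_nonneg a
  refine ⟨int_of_inv fun g => ?_, fun g => ?_, hv.2.2.imp fun g hg => hg.of_sub (h _) hs⟩
  · simpa using ((h g).mono (by linarith)).add (ge_aeval hv.1 (g : B))
  · simpa using ((h (Jac g)).mono hs.le).add (hv.2.1 g)

lemma OrdV.act {a : ℕ} {v : N → H} (hv : OrdV a v) (g : G0) : OrdV a (act (emb H g) v) :=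
  hv.congr (s := a + 1) (by linarith) fun h => by rw [inv_eval, sub_self]; exact ge_zero _

variable {m : ℕ} {f : Fin m → R}

/-- The jet of a twisted point. -/
def jetV (f : Fin m → R) (n : ℕ) (v : N → H) : Fin m × Fin (n + 1) → K :=
  fun p => (aeval v (f p.1 : B)).coeff (p.2 : ℕ)

lemma jet_eq_jetV {γ : R →ₐ[K] PowerSeries K} {v : N → H} (h : ∀ h, toH (γ h) = aeval v (h : B))
    (n : ℕ) : jet f n γ = jetV f n v := by
  ext p; rw [jet, jetV, ← h, toH_coeff]

lemma exists_lift (hf : Algebra.adjoin K (Set.range f) = ⊤) (h : R) :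
    ∃ p : MvPolynomial (Fin m) K, aeval f p = h := by
  have : h ∈ Algebra.adjoin K (Set.range f) := by rw [hf]; trivial
  rwa [Algebra.adjoin_range_eq_range_aeval] at this

lemma ge_of_jet (hf : Algebra.adjoin K (Set.range f) = ⊤) {γ γ' : R →ₐ[K] PowerSeries K} {n : ℕ}
    (h : jet f n γ = jet f n γ') (g : R) : Ge (n + 1) (toH (γ' g) - toH (γ g)) := by
  obtain ⟨p, rfl⟩ := exists_lift hf g
  rw [algHom_aeval, algHom_aeval, algHom_aeval, algHom_aeval]
  refine ge_aeval_sub (fun _ => ge_toH _) (fun _ => ge_toH _) (fun i => ?_) p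
  rw [← map_sub]
  have := (ge_toH_iff (p := γ' (f i) - γ (f i)) (n := n + 1)).2
    (PowerSeries.nat_le_order _ _ fun e he => by
      rw [map_sub, sub_eq_zero]; exact (congrFun h (i, ⟨e, he⟩)).symm)
  exact_mod_cast this

lemma jetV_eq {v w : N → H} {n : ℕ} (h : ∀ h : R, Ge (n + 1) (aeval w (h : B) - aeval v (h : B))) :
    jetV f n w = jetV f n v := by
  ext p
  have := h (f p.1) (p.2 : ℕ) (by exact_mod_cast p.2.2)
  rwa [HahnSeries.coeff_sub, sub_eq_zero] at this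

lemma ge_of_jetV (hf : Algebra.adjoin K (Set.range f) = ⊤) {r r' : Fin 3 → Fin J → K}
    {ξ ξ' : N → H} (hξ : ∀ q, ξ q ∈ ZS) (hξ' : ∀ q, ξ' q ∈ ZS) (h0 : ∀ q, Ge 0 (tw r ξ q))
    (h0' : ∀ q, Ge 0 (tw r' ξ' q)) {n : ℕ} (h : jetV f n (tw r ξ) = jetV f n (tw r' ξ')) (g : R) :
    Ge (n + 1) (aeval (tw r' ξ') (g : B) - aeval (tw r ξ) (g : B)) := by
  obtain ⟨γ, hγ⟩ := exists_arc r hξ fun _ => ge_aeval h0 _
  obtain ⟨γ', hγ'⟩ := exists_arc r' hξ' fun _ => ge_aeval h0' _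
  rw [← hγ, ← hγ']
  exact ge_of_jet hf (by rw [jet_eq_jetV hγ, jet_eq_jetV hγ', h]) g

lemma cylinder (hf : Algebra.adjoin K (Set.range f) = ⊤) {a n : ℕ} (hn : a ≤ n) :
    jet (k := K) f n ⁻¹' (jet f n '' ordSet II a) = ordSet II a := by
  refine (Set.subset_preimage_image _ _).antisymm' ?_
  rintro γ' ⟨γ, hγ, h⟩
  rw [mem_ord (g := Jac) rfl] at hγ ⊢
  have ha : (a : ℚ) < n + 1 := by exact_mod_cast Nat.lt_succ_of_le hn
  exact ⟨fun g => by simpa using ((ge_of_jet hf h (Jac g)).mono ha.le).add (hγ.1 g),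
    hγ.2.imp fun g hg => hg.of_sub (ge_of_jet hf h _) ha⟩

end Pool.Agent.MP_536a45_ag_b

end
end

section

/-!
Parametrisation of the jets of arcs.
-/

noncomputable section

namespace Pool.Agent.MP_536a45_ag_b

open MvPolynomial Matrix

attribute [-simp] MvPolynomial.aeval_eq_bind₁

section
variable {ι : Type}

/-- Series whose coefficients are polynomial in the parameters. -/
def PolyF (Φ : (ι → K) → H) : Prop :=
  ∃ U : HahnSeries ℚ (MvPolynomial ι K), ∀ z, mapH (aeval z : _ →ₐ[K] K).toRingHom U = Φ z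

lemma PolyF.coeff {Φ : (ι → K) → H} (h : PolyF Φ) (γ : ℚ) :
    ∃ p : MvPolynomial ι K, ∀ z, (Φ z).coeff γ = aeval z p :=
  let ⟨U, hU⟩ := h; ⟨U.coeff γ, fun z => by rw [← hU]; rfl⟩

lemma polyF_single (γ : ℚ) (p : MvPolynomial ι K) :
    PolyF fun z => HahnSeries.single γ (aeval z p) :=
  ⟨HahnSeries.single γ p, fun _ => mapH_single _ _ _⟩

lemma PolyF.add {Φ Ψ : (ι → K) → H} (h : PolyF Φ) (h' : PolyF Ψ) : PolyF fun z => Φ z + Ψ z :=
  let ⟨U, hU⟩ := h; let ⟨V, hV⟩ := h'; ⟨U + V, fun z => by rw [map_add, hU, hV]⟩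

lemma PolyF.mul {Φ Ψ : (ι → K) → H} (h : PolyF Φ) (h' : PolyF Ψ) : PolyF fun z => Φ z * Ψ z :=
  let ⟨U, hU⟩ := h; let ⟨V, hV⟩ := h'; ⟨U * V, fun z => by rw [map_mul, hU, hV]⟩

lemma PolyF.sum {α : Type} [Fintype α] {Φ : α → (ι → K) → H} (h : ∀ a, PolyF (Φ a)) :
    PolyF fun z => ∑ a, Φ a z := by
  choose U hU using h
  exact ⟨∑ a, U a, fun z => by simp only [map_sum, hU]⟩

lemma PolyF.aeval {σ : Type} {Φ : (ι → K) → σ → H} (h : ∀ s, PolyF fun z => Φ z s)
    (p : MvPolynomial σ K) : PolyF fun z => aeval (Φ z) p := by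
  induction p using MvPolynomial.induction_on with
  | C c => simpa [algebraMap_H] using polyF_single (ι := ι) 0 (C c)
  | add p q hp hq => simpa only [map_add] using hp.add hq
  | mul_X p i hp => simpa only [map_mul, aeval_X] using hp.mul (h i)

/-- The truncated series with the given coefficients. -/
def lf {T : ℕ} (η : ι × Fin T → K) (q : ι) : H := toH (liftP T η q)

lemma toH_monomial (n : ℕ) (c : K) : toH (PowerSeries.monomial n c) = HahnSeries.single (n : ℚ) c := by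
  have : PowerSeries.monomial n c = PowerSeries.C c * PowerSeries.X ^ n := by
    ext; simp [PowerSeries.coeff_monomial, PowerSeries.coeff_X_pow]
  rw [this, map_mul, map_pow]
  change HahnSeries.ofPowerSeries ℚ K _ * HahnSeries.ofPowerSeries ℚ K _ ^ n = _
  simp [HahnSeries.C_apply, HahnSeries.single_mul_single]

lemma lf_eq {T : ℕ} (η : ι × Fin T → K) (q : ι) :
    lf η q = ∑ i : Fin T, HahnSeries.single ((i : ℕ) : ℚ) (η (q, i)) := by
  simp [lf, liftP, toH_monomial]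

lemma lf_coeff {T : ℕ} (η : ι × Fin T → K) (q : ι) (i : ℕ) :
    (lf η q).coeff i = if h : i < T then η (q, ⟨i, h⟩) else 0 := by
  rw [lf, toH_coeff, coeff_liftP]

lemma lf_mem {T : ℕ} (η : ι × Fin T → K) (q : ι) : lf η q ∈ ZS := toH_mem_ZS _

lemma lf_ge {T : ℕ} (η : ι × Fin T → K) (q : ι) : Ge 0 (lf η q) := ge_toH _

lemma lf_sub {T : ℕ} (η η' : ι × Fin T → K) : lf (η - η') = lf η - lf η' := by
  ext1 q; simp [lf]

lemma polyF_lf {T : ℕ} {κ : Type} (e : ι × Fin T → κ) (q : ι) :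
    PolyF fun z : κ → K => lf (z ∘ e) q := by
  simp only [lf_eq]
  exact PolyF.sum fun i => by simpa using polyF_single ((i : ℕ) : ℚ) (X (e (q, i)))

lemma ge_of_coeff {z : H} (hz : z ∈ ZS) (h0 : Ge 0 z) {n : ℕ} (h : ∀ i < n, z.coeff (i : ℕ) = 0) :
    Ge n z := by
  obtain ⟨p, rfl⟩ := exists_toH hz h0
  exact ge_toH_iff.2 (PowerSeries.nat_le_order _ _ fun i hi => by rw [← toH_coeff]; exact h i hi)

lemma exists_lf (T : ℕ) {ξ : ι → H} (hξ : ∀ q, ξ q ∈ ZS) (h0 : ∀ q, Ge 0 (ξ q)) :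
    ∃ η : ι × Fin T → K, ∀ q, Ge T (lf η q - ξ q) :=
  ⟨fun p => (ξ p.1).coeff (p.2 : ℕ), fun q => ge_of_coeff (sub_mem (lf_mem _ _) (hξ q))
    ((lf_ge _ _).sub (h0 q)) fun i hi => by simp [lf_coeff, hi]⟩

end

/-- Parameters. -/
abbrev Pm (J T : ℕ) : Type := (Fin 3 × Fin J) ⊕ (N × Fin T)

variable {J T : ℕ}

def rz (z : Pm J T → K) (i : Fin 3) (b : Fin J) : K := z (Sum.inl (i, b))

def par (z : Pm J T → K) : N → H := tw (rz z) (lf (z ∘ Sum.inr))

def mkz (r : Fin 3 → Fin J → K) (η : N × Fin T → K) : Pm J T → K :=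
  Sum.elim (fun p => r p.1 p.2) η

lemma par_mkz (r : Fin 3 → Fin J → K) (η : N × Fin T → K) : par (mkz r η) = tw r (lf η) := rfl

lemma mkz_eta (z : Pm J T → K) : mkz (rz z) (z ∘ Sum.inr) = z := by ext (p | p) <;> rfl

lemma polyF_par (h : R) : PolyF fun z : Pm J T → K => aeval (par z) (h : B) := by
  obtain ⟨F, hF⟩ := exists_F h
  simp only [par, tw, fun ξ α => (hF H ξ α).1, al_sq]
  refine PolyF.aeval ?_ F
  rintro (q | i)
  · exact polyF_lf _ q
  · simp only [Sum.elim_inr, fS]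
    exact PolyF.sum fun b => by
      convert polyF_single (ι := Pm J T) (-(2 * (b : ℕ) + 1)) (X (Sum.inl (i, b)) ^ 2) using 3
      rw [map_pow, aeval_X, rz]

/-- Parameters of order `a`. -/
def Zs (J T a : ℕ) : Set (Pm J T → K) := {z | OrdV a (par z)}

variable {m : ℕ} {f : Fin m → R}

lemma OrdV.exists_S (hf : Algebra.adjoin K (Set.range f) = ⊤) {r : Fin 3 → Fin J → K} {ξ : N → H}
    (hξ : ∀ q, ξ q ∈ ZS) {a : ℕ} (h : OrdV a (tw r ξ)) :
    ∃ S : N → Fin m, Le a (aeval (tw r ξ) (Jac (f ∘ S) : B)) := by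
  obtain ⟨γ, hγ⟩ := exists_arc r hξ fun _ => ge_aeval h.1 _
  simpa only [hγ] using ((mem_ord (omega_spec.2.2 _ f hf)).1 ((ordV_iff hγ).2 h)).2

lemma Ge.le_iff {s : ℚ} {z : H} (h : Ge s z) : Le s z ↔ z.coeff s ≠ 0 :=
  ⟨fun ⟨γ, h1, h2⟩ => by rwa [← h1.antisymm (not_lt.1 fun h3 => h2 (h γ h3))],
    fun h => ⟨s, le_rfl, h⟩⟩

lemma isCons_Zs (a : ℕ) : IsCons (Zs J T a) := by
  choose p hp using fun (h : R) (γ : ℚ) => (polyF_par (J := J) (T := T) h).coeff γ
  have := isLC_of_family (Sum.elim (fun x : R × {γ : ℚ // γ < 0} => p x.1 x.2)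
    fun x : (N → R) × {γ : ℚ // γ < a} => p (Jac x.1) x.2) fun h : N → R => p (Jac h) a
  convert this.isCons using 1
  ext z
  simp only [Zs, Set.mem_ofPred_eq, Sum.forall, Sum.elim_inl, Sum.elim_inr, ← hp, Prod.forall,
    Subtype.forall]
  exact ⟨fun h => ⟨⟨fun g hg => ge_aeval h.1 g, h.2.1⟩, h.2.2.imp fun g => (h.2.1 g).le_iff.1⟩,
    fun h => ⟨int_of_inv fun g => h.1.1 g g.2, h.1.2, h.2.imp fun g hg => ⟨a, le_rfl, hg⟩⟩⟩

lemma exists_Psi (f : Fin m → R) (n : ℕ) :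
    ∃ Ψ : Fin m × Fin (n + 1) → MvPolynomial (Pm J T) K, ∀ z, pmap Ψ z = jetV f n (par z) := by
  choose p hp using fun (h : R) (γ : ℚ) => (polyF_par (J := J) (T := T) h).coeff γ
  exact ⟨fun x => p (f x.1) (x.2 : ℕ), fun z => funext fun x => (hp _ _ z).symm⟩

lemma tw_sub (r : Fin 3 → Fin J → K) (ξ ξ' : N → H) : tw r (ξ - ξ') = tw r ξ - tw r ξ' :=
  act_sub _ _ _

lemma ge_tw {r : Fin 3 → Fin J → K} {ξ : N → H} {s : ℚ} (h : ∀ q, Ge s (ξ q)) (q : N) :
    Ge (-J + s) (tw r ξ q) := ge_act (by simp) h (fun _ => al_ge _) q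

lemma exists_trunc {r : Fin 3 → Fin J → K} {ξ : N → H} (hξ : ∀ q, ξ q ∈ ZS)
    (h0 : ∀ q, Ge 0 (tw r ξ q)) {n : ℕ} (hT : n + 1 + J ≤ T) :
    ∃ η : N × Fin T → K, (∀ q, Ge (n + 1) (tw r (lf η) q - tw r ξ q)) ∧
      ∀ h : R, Ge (n + 1) (aeval (tw r (lf η)) (h : B) - aeval (tw r ξ) (h : B)) := by
  obtain ⟨η, hη⟩ := exists_lf T hξ (tw_split hξ h0).1
  have h1 : ∀ q, Ge (n + 1) (tw r (lf η) q - tw r ξ q) := fun q => by
    have := ge_tw (r := r) (ξ := lf η - ξ) hη q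
    rw [tw_sub] at this
    refine this.mono ?_
    have : ((n + 1 + J : ℕ) : ℚ) ≤ T := by exact_mod_cast hT
    push_cast at this; linarith
  refine ⟨η, h1, fun h => ge_aeval_sub h0 (fun q => ?_) h1 _⟩
  simpa using ((h1 q).mono (by positivity)).add (h0 q)

theorem jets_eq {a n : ℕ} (hJ : 7 * a ≤ J) (hT : n + 1 + J ≤ T) (hn : a ≤ n) :
    jet f n '' ordSet II a = (fun z => jetV f n (par z)) '' Zs J T a := by
  ext y
  constructor
  · rintro ⟨γ, hγ, rfl⟩
    obtain ⟨r, ξ, hξ, h⟩ := rep hγ hJ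
    have h1 := (ordV_iff h).1 hγ
    obtain ⟨η, -, hη⟩ := exists_trunc hξ h1.1 hT
    exact ⟨mkz r η, h1.congr (by exact_mod_cast Nat.lt_succ_of_le hn) hη,
      (jetV_eq hη).trans (jet_eq_jetV h n).symm⟩
  · rintro ⟨z, hz, rfl⟩
    obtain ⟨γ, hγ⟩ := exists_arc (rz z) (lf_mem (z ∘ Sum.inr)) fun _ => ge_aeval hz.1 _
    exact ⟨γ, (ordV_iff hγ).2 hz, jet_eq_jetV hγ n⟩

theorem isCons_jets {a n : ℕ} (hn : a ≤ n) : IsCons (jet (k := K) f n '' ordSet II a) := by
  obtain ⟨Ψ, hΨ⟩ := exists_Psi (J := 7 * a) (T := n + 1 + 7 * a) f n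
  rw [jets_eq le_rfl le_rfl hn, ← funext hΨ]
  exact (isCons_Zs a).image Ψ

end Pool.Agent.MP_536a45_ag_b

end
end

section

/-!
The level sets of the order function are stable cylinders.
-/

noncomputable section

namespace Pool.Agent.MP_536a45_ag_b

open MvPolynomial Matrix

attribute [-simp] MvPolynomial.aeval_eq_bind₁

lemma isReg_of_div {k ι κ : Type} [Field k] [Fintype κ] {C : Set (ι → k)} {φ : (ι → k) → κ → k}
    (h : ∀ j, ∃ p q : MvPolynomial ι k, ∀ y ∈ C, aeval y q ≠ 0 ∧ φ y j = aeval y p / aeval y q) :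
    IsReg C φ := by
  classical
  choose p q h using h
  refine fun x hx => ⟨fun j => p j * ∏ i ∈ Finset.univ.erase j, q i, ∏ i, q i, ?_,
    fun y hy hq j => ?_⟩
  · rw [map_prod]; exact Finset.prod_ne_zero_iff.2 fun i _ => (h i x hx).1
  · rw [(h j y hy).2, div_eq_div_iff (h j y hy).1 hq,
      ← Finset.mul_prod_erase _ _ (Finset.mem_univ j)]
    simp only [map_mul]; ring

lemma iso_of_rel {k δ : Type} [Field k] [Fintype δ] {m n : ℕ} (S : δ → Fin m)
    {P : Set (Fin m × Fin (n + 1) → k)} (hP : IsLC P)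
    (w g : Fin m → MvPolynomial (Fin m × Fin (n + 1)) k)
    (u : Fin m → δ → MvPolynomial (Fin m × Fin (n + 1)) k) (hw : ∀ z ∈ P, ∀ j, aeval z (w j) ≠ 0)
    {C : Set (Fin m × Fin (n + 2) → k)}
    (h1 : ∀ z ∈ C, cut z ∈ P → ∀ j, aeval (cut z) (w j) * z (j, Fin.last _) =
      ∑ q, aeval (cut z) (u j q) * z (S q, Fin.last _) - aeval (cut z) (g j))
    (h2 : ∀ y ∈ P, ∀ b : δ → k, ∃ z ∈ C, cut z = y ∧ ∀ q, z (S q, Fin.last _) = b q) :
    ∃ φ, IsIsoB false (C ∩ cut ⁻¹' P) (prodSet P (Set.univ : Set (δ → k))) φ ∧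
      ∀ z ∈ C ∩ cut ⁻¹' P, φ z ∘ Sum.inl = cut z := by
  let φ : (Fin m × Fin (n + 2) → k) → (Fin m × Fin (n + 1)) ⊕ δ → k :=
    fun z => Sum.elim (cut z) fun q => z (S q, Fin.last _)
  let ψ : ((Fin m × Fin (n + 1)) ⊕ δ → k) → Fin m × Fin (n + 2) → k := fun y p =>
    Fin.lastCases (motive := fun _ => k) ((∑ q, aeval (y ∘ Sum.inl) (u p.1 q) * y (Sum.inr q) -
      aeval (y ∘ Sum.inl) (g p.1)) / aeval (y ∘ Sum.inl) (w p.1)) (fun i => y (Sum.inl (p.1, i))) p.2
  have key : ∀ z, cut z ∈ P → (∀ j, aeval (cut z) (w j) * z (j, Fin.last _) =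
      ∑ q, aeval (cut z) (u j q) * z (S q, Fin.last _) - aeval (cut z) (g j)) → ψ (φ z) = z := by
    intro z hz h
    ext ⟨j, i⟩
    induction i using Fin.lastCases with
    | last =>
      simp only [ψ, Fin.lastCases_last]
      exact (div_eq_iff (hw _ hz j)).2 ((h j).symm.trans (mul_comm _ _))
    | cast i => simp only [ψ, Fin.lastCases_castSucc]; rfl
  let Ψ : Fin m × Fin (n + 1) → MvPolynomial (Fin m × Fin (n + 2)) k :=
    fun p => X (p.1, p.2.castSucc)
  have hΨ : ∀ z, pmap Ψ z = cut z := fun z => by ext; simp [pmap, Ψ, cut]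
  have hinv : Set.LeftInvOn ψ φ (C ∩ cut ⁻¹' P) := fun z hz => key z hz.2 (h1 z hz.1 hz.2)
  refine ⟨φ, ⟨?_, hP.prod isLC_univ, ?_, ⟨fun z hz => ⟨hz.2, trivial⟩, hinv.injOn, ?_⟩,
    fun _ => ⟨ψ, isReg_of_div ?_, hinv⟩⟩, fun _ _ => rfl⟩
  · have := (isLC_of_family (fun j => aeval Ψ (w j) * X (j, Fin.last _) -
      (∑ q, aeval Ψ (u j q) * X (S q, Fin.last _) - aeval Ψ (g j))) fun _ : Unit => 1).inter
      (hP.preimage Ψ)
    convert this using 1
    ext z
    simp only [Set.mem_inter_iff, Set.mem_preimage, Set.mem_ofPred_eq, map_sub, map_mul, map_sum,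
      aeval_X, ← aeval_pmap, hΨ, sub_eq_zero, map_one, ne_eq, one_ne_zero, not_false_eq_true,
      exists_const, and_true]
    refine ⟨fun h => ⟨h1 z h.1 h.2, h.2⟩, fun h => ⟨?_, h.2⟩⟩
    obtain ⟨z', hz', e1, e2⟩ := h2 _ h.2 fun q => z (S q, Fin.last _)
    have : φ z' = φ z := by simp only [φ, e1, e2]
    rwa [← key z h.2 h.1, ← this, hinv ⟨hz', by rw [Set.mem_preimage, e1]; exact h.2⟩]
  · refine (isReg_pmap _ (Sum.elim Ψ fun q => X (S q, Fin.last _))).congr fun z _ => ?_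
    ext (p | q)
    · exact congrFun (hΨ z) p
    · simp [pmap, φ]
  · intro y hy
    obtain ⟨z, hz, e1, e2⟩ := h2 _ hy.1 (y ∘ Sum.inr)
    refine ⟨z, ⟨hz, by rw [Set.mem_preimage, e1]; exact hy.1⟩, ?_⟩
    ext (p | q)
    · exact congrFun e1 p
    · exact e2 q
  · rintro ⟨j, i⟩
    induction i using Fin.lastCases with
    | last =>
      refine ⟨∑ q, rename Sum.inl (u j q) * X (Sum.inr q) - rename Sum.inl (g j),
        rename Sum.inl (w j), fun y hy => ?_⟩
      simp only [ψ, Fin.lastCases_last, aeval_rename, map_sub, map_sum, map_mul, aeval_X]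
      exact ⟨hw _ hy.1 j, trivial⟩
    | cast i => exact ⟨X (Sum.inl (j, i)), 1, fun y _ => by simp [ψ]⟩

variable {m : ℕ} {f : Fin m → R}

lemma ge_lf_jet (f : Fin m → R) (n : ℕ) (γ : R →ₐ[K] PowerSeries K) (i : Fin m) :
    Ge (n + 1) (lf (jet f n γ) i - toH (γ (f i))) := by
  have := ge_of_coeff (n := n + 1) (sub_mem (lf_mem (jet f n γ) i) (toH_mem_ZS (γ (f i))))
    ((lf_ge _ _).sub (ge_toH _)) fun e he => by simp [lf_coeff, he, toH_coeff, jet]
  exact_mod_cast this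

lemma polyF_jet (n : ℕ) (G : MvPolynomial (Fin m) K) :
    PolyF fun z : Fin m × Fin (n + 1) → K => aeval (lf z) G :=
  PolyF.aeval (fun i => polyF_lf id i) G

lemma jetpoly (hf : Algebra.adjoin K (Set.range f) = ⊤) (n : ℕ) (h : R) (e : ℕ) :
    ∃ p : MvPolynomial (Fin m × Fin (n + 1)) K, e ≤ n → ∀ γ : R →ₐ[K] PowerSeries K,
      (toH (γ h)).coeff e = aeval (jet f n γ) p := by
  obtain ⟨G, rfl⟩ := exists_lift hf h
  obtain ⟨p, hp⟩ := (polyF_jet n G).coeff e
  refine ⟨p, fun he γ => ?_⟩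
  have := ge_aeval_sub (fun _ => ge_toH _) (lf_ge _) (ge_lf_jet f n γ) G e
    (by exact_mod_cast Nat.lt_succ_of_le he)
  rw [HahnSeries.coeff_sub, sub_eq_zero, hp] at this
  rw [this, algHom_aeval, algHom_aeval]

lemma Ge.pow {s : ℚ} {z : H} (h : Ge s z) (n : ℕ) : Ge (n * s) (z ^ n) := by
  induction n with
  | zero => simpa using mem_OS.1 (one_mem _)
  | succ n ih => rw [pow_succ]; convert ih.mul h using 1; push_cast; ring

lemma key_rel {γ : R →ₐ[K] PowerSeries K} {a n e M : ℕ} (hγ : γ ∈ ordSet II a) {μ : R}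
    (hμ : Ge e (toH (γ μ))) (hn : M * e + a ≤ n) {S : N → Fin m} {j : Fin m}
    {G : MvPolynomial (Fin m) K} (hG : aeval f G = 0) (hG' : ∀ i, aeval f (pderiv i G) =
      μ ^ M * ((if j = i then Jac (f ∘ S) else 0) -
        ∑ q, if S q = i then Jac (Function.update (f ∘ S) q (f j)) else 0)) :
    (toH (γ (μ ^ M * Jac (f ∘ S)))).coeff (M * e + a : ℕ) * jet f (n + 1) γ (j, Fin.last _) =
      ∑ q, (toH (γ (μ ^ M * Jac (Function.update (f ∘ S) q (f j))))).coeff (M * e + a : ℕ) *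
        jet f (n + 1) γ (S q, Fin.last _) -
      (aeval (lf (jet f n γ)) G).coeff (M * e + a + (n + 1)) := by
  have h1 := taylor (fun i => ge_toH (γ (f i))) (by positivity) (ge_lf_jet f n γ) G
    (M * e + a + (n + 1)) (by
      have : ((M * e + a : ℕ) : ℚ) ≤ n := by exact_mod_cast hn
      push_cast at this; linarith)
  have e1 : ∀ p, aeval (fun i => toH (γ (f i))) p = toH (γ (aeval f p)) := fun p => by
    rw [algHom_aeval, algHom_aeval]
  have e2 : ((fun i => toH (γ (f i))) + fun i => lf (jet f n γ) i - toH (γ (f i))) =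
      lf (jet f n γ) := by ext1; simp
  have e3 : ∑ i, toH (γ (aeval f (pderiv i G))) * (lf (jet f n γ) i - toH (γ (f i))) =
      toH (γ (μ ^ M * Jac (f ∘ S))) * (lf (jet f n γ) j - toH (γ (f j))) -
      ∑ q, toH (γ (μ ^ M * Jac (Function.update (f ∘ S) q (f j)))) *
        (lf (jet f n γ) (S q) - toH (γ (f (S q)))) := by
    simp only [hG', mul_sub (μ ^ M), Finset.mul_sum, mul_ite, mul_zero, map_sub, map_sum,
      apply_ite γ, apply_ite toH, map_zero, sub_mul, Finset.sum_mul, ite_mul, zero_mul,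
      Finset.sum_sub_distrib, Finset.sum_ite_eq, Finset.mem_univ, if_true]
    rw [Finset.sum_comm]
    simp only [Finset.sum_ite_eq, Finset.mem_univ, if_true]
  have e4 : ∀ (h : N → R) i, (toH (γ (μ ^ M * Jac h)) * (lf (jet f n γ) i - toH (γ (f i)))).coeff
      (M * e + a + (n + 1)) = -((toH (γ (μ ^ M * Jac h))).coeff (M * e + a : ℕ) *
        jet f (n + 1) γ (i, Fin.last _)) := by
    intro h i
    rw [coeff_mul_of_ge (by
      rw [map_mul, map_mul, map_pow, map_pow]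
      exact (hμ.pow M).mul (((mem_ord (g := Jac) rfl).1 hγ).1 h)) (ge_lf_jet f n γ i)]
    have := lf_coeff (jet f n γ) i (n + 1)
    have h2 := toH_coeff (γ (f i)) (n + 1)
    push_cast at this h2 ⊢
    simp [this, h2, jet]
  simp only [e1, e2, hG, map_zero, sub_zero, e3, HahnSeries.coeff_sub, HahnSeries.coeff_sum, e4,
    Finset.sum_neg_distrib] at h1
  linear_combination h1

lemma exists_next {γ : R →ₐ[K] PowerSeries K} {a n : ℕ} (hγ : γ ∈ ordSet II a) (hn : 2 * a ≤ n)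
    {g : N → R} (hg : Le a (toH (γ (Jac g)))) (b : N → K) :
    ∃ γ' ∈ ordSet II a, jet f n γ' = jet f n γ ∧
      ∀ q, PowerSeries.coeff (n + 1) (γ' (g q)) = b q := by
  obtain ⟨r, ξ, hξ, h⟩ := rep hγ le_rfl
  have hv := (ordV_iff h).1 hγ
  rw [h] at hg
  have hn' : (2 * a : ℚ) ≤ n := by exact_mod_cast hn
  set D := DM (tw r ξ) g * Bm fun i => al (r i) with hD
  have hD1 : ∀ i j, D i j ∈ ZS := fun i j => (tw_mem_ZS r hξ (g i)).2 j
  have hD2 : D.det = aeval (tw r ξ) (Jac g : B) := by rw [hD, det_mul, det_Bm, mul_one, aeval_Jac]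
  let c : N → H := fun q => HahnSeries.single ((n + 1 : ℤ) : ℚ)
    (b q - PowerSeries.coeff (n + 1) (γ (g q)))
  let η : N → H := D.det⁻¹ • D.adjugate *ᵥ c
  have hη : ∀ q, η q ∈ ZS := fun q => by
    change D.det⁻¹ * _ ∈ _
    rw [inv_mul_eq_div]
    refine div_mem_ZS ?_ (det_mem ZS hD1)
    simp only [mulVec, dotProduct]
    exact sum_mem fun i _ => mul_mem (adjugate_mem ZS hD1 _ _) (single_mem_ZS _ _)
  have h1 : DM (tw r ξ) g *ᵥ tw r η = c := by
    rw [tw, tw, ← Bm_mulVec _ η, mulVec_mulVec, ← tw, ← hD, mulVec_smul, mulVec_mulVec,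
      mul_adjugate, smul_mulVec, one_mulVec, smul_smul, inv_mul_cancel₀ (hD2 ▸ hg.ne_zero),
      one_smul]
  obtain ⟨h2, h3⟩ := hv.cv hg (δ := tw r η) (s := n + 1) fun q => by
    rw [h1]; exact (ge_single _ _).mono (by simp)
  have h4 : tw r (ξ + η) = tw r ξ + tw r η := by
    rw [← sub_eq_iff_eq_add, ← tw_sub, add_sub_cancel_right]
  have h5 := fun p : R => taylor hv.1 (by linarith) h2 (p : B)
  rw [← h4] at h5
  have h6 : ∀ p : R, Ge (n + 1) (aeval (tw r (ξ + η)) (p : B) - aeval (tw r ξ) (p : B)) :=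
    fun p => by simpa using ((h5 p).mono (by linarith)).add (h3 p)
  have h7 := hv.congr (by linarith [(Nat.cast_nonneg a : (0 : ℚ) ≤ a)]) h6
  obtain ⟨γ', hγ'⟩ := exists_arc r (ξ := ξ + η) (fun q => add_mem (hξ q) (hη q))
    fun _ => ge_aeval h7.1 _
  refine ⟨γ', (ordV_iff hγ').2 h7, ?_, fun q => ?_⟩
  · rw [jet_eq_jetV hγ', jet_eq_jetV h, jetV_eq h6]
  · have h8 := h5 (g q) (n + 1 : ℕ) (by push_cast; linarith)
    have h9 : ∑ i, aeval (tw r ξ) (pderiv i (g q : B)) * tw r η i = c q := congrFun h1 q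
    rw [h9, ← hγ', ← h, HahnSeries.coeff_sub, HahnSeries.coeff_sub, toH_coeff, toH_coeff] at h8
    simp only [c, Int.cast_add, Int.cast_natCast, Int.cast_one, Nat.cast_add, Nat.cast_one,
      HahnSeries.coeff_single_same] at h8
    linear_combination h8

theorem exists_stable (hf : Algebra.adjoin K (Set.range f) = ⊤) (a : ℕ) :
    ∃ n₀, a ≤ n₀ ∧ IsStable (k := K) N f (ordSet II a) n₀ := by
  choose! M G hG hG' using fun (c : Fin 5) (s : K) (hl : muR (lam c s) ≠ 0) (S : N → Fin m)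
    (j : Fin m) => exists_relation f hf hl S j
  obtain ⟨M₀, hM₀⟩ := Finite.exists_le fun x : Fin 5 × S15 × (N → Fin m) × Fin m =>
    M x.1 x.2.1 x.2.2.1 x.2.2.2
  refine ⟨(M₀ + 1) * (7 * a) + a, by omega, fun n hn => ⟨isCons_jets (by omega),
    cylinder hf (by omega), ?_⟩⟩
  choose p hp using jetpoly hf n
  choose p' hp' using fun (G : MvPolynomial (Fin m) K) γ => (polyF_jet n G).coeff γ
  have hn' : 8 * a ≤ n := by nlinarith [Nat.zero_le (M₀ * (7 * a))]
  let C : Fin 5 × S15 × (N → Fin m) × Fin (7 * a + 1) → Set (Fin m × Fin (n + 1) → K) := fun x =>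
    jet f n '' ordSet II a ∩
      {z | (∀ e : Fin x.2.2.2, aeval z (p (muR (lam x.1 x.2.1)) e) = 0) ∧ ∃ _ : Unit,
        aeval z (p (muR (lam x.1 x.2.1)) x.2.2.2 * p (Jac (f ∘ x.2.2.1)) a) ≠ 0}
  have hC : ∀ x γ, jet f n γ ∈ C x ↔ γ ∈ ordSet II a ∧ Ge x.2.2.2 (toH (γ (muR (lam x.1 x.2.1)))) ∧
      Le x.2.2.2 (toH (γ (muR (lam x.1 x.2.1)))) ∧ Le a (toH (γ (Jac (f ∘ x.2.2.1)))) := by
    rintro ⟨c, s, S, e⟩ γ
    have h0 : jet f n γ ∈ jet f n '' ordSet II a ↔ γ ∈ ordSet II a :=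
      Set.ext_iff.1 (cylinder hf (by omega)) γ
    have he : (e : ℕ) ≤ n := by omega
    simp only [C, Set.mem_inter_iff, h0, Set.mem_ofPred_eq, map_mul, exists_const, mul_ne_zero_iff,
      ← hp _ _ he, ← hp _ a (by omega)]
    refine and_congr_right fun h1 => ⟨fun h => ⟨ge_of_coeff (toH_mem_ZS _) (ge_toH _)
      fun i hi => (hp _ _ (by omega) γ).trans (h.1 ⟨i, hi⟩), ⟨_, le_rfl, h.2.1⟩, _, le_rfl, h.2.2⟩,
      fun h => ⟨fun i => (hp _ _ (by omega) γ).symm.trans (h.1 _ (by exact_mod_cast i.2)),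
        h.1.le_iff.1 h.2.1, (((mem_ord (g := Jac) rfl).1 h1).1 _).le_iff.1 h.2.2⟩⟩
  obtain ⟨s, hs1, hs2, hs3, hs4⟩ := exists_partition C fun x =>
    (isCons_jets (by omega)).inter (isLC_of_family _ _).isCons
  refine ⟨s, hs1, hs2, hs3.trans ((Set.iUnion_subset fun x => Set.inter_subset_left).antisymm ?_),
    fun P hP => ⟨(hs4 P hP).1, ?_⟩⟩
  · rintro _ ⟨γ, hγ, rfl⟩
    obtain ⟨r, ξ, hξ, h⟩ := rep hγ le_rfl
    obtain ⟨o, ho, -, -, c, s, hs, hg⟩ := ((ordV_iff h).1 hγ).exists_good fun p => hξ _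
    have hμ := hg.mu
    rw [← aeval_muR, ← h] at hμ
    obtain ⟨e, he, -, he'⟩ := exists_min (x := fun _ : Unit => toH (γ (muR (lam c s))))
      (fun _ => toH_mem_ZS _) (fun _ => ge_toH _) fun h0 => hμ.ne_zero (congrFun h0 ())
    obtain ⟨S, hS⟩ := ((mem_ord (omega_spec.2.2 _ f hf)).1 hγ).2
    have : e ≤ 7 * o := by exact_mod_cast (he ()).le_of_le hμ
    exact Set.mem_iUnion.2 ⟨(c, ⟨s, hs⟩, S, ⟨e, by omega⟩), (hC _ _).2
      ⟨hγ, he (), ⟨_, le_rfl, he'⟩, hS⟩⟩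
  obtain ⟨hP1, ⟨c, s, S, e⟩, hP2⟩ := hs4 P hP
  have hle : ∀ j, M c s S j * e + a ≤ n := fun j => by
    have := Nat.mul_le_mul (hM₀ (c, s, S, j)) (Nat.lt_succ_iff.1 e.2)
    nlinarith
  refine iso_of_rel S hP1 (fun j => p (muR (lam c s) ^ M c s S j * Jac (f ∘ S)) (M c s S j * e + a))
    (fun j => p' (G c s S j) (M c s S j * e + a + (n + 1)))
    (fun j q => p (muR (lam c s) ^ M c s S j * Jac (Function.update (f ∘ S) q (f j)))
      (M c s S j * e + a)) (fun z hz j => ?_) ?_ fun y hy b => ?_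
  · obtain ⟨γ, -, rfl⟩ := (hP2 hz).1
    obtain ⟨h1, h2, h3, h4⟩ := (hC _ _).1 (hP2 hz)
    rw [← hp _ _ (hle j), map_mul, map_mul, map_pow, map_pow]
    push_cast
    exact ((h2.pow _).mul (((mem_ord (g := Jac) rfl).1 h1).1 _)).le_iff.1 ((h3.pow _).mul h4)
  · rintro _ ⟨γ, -, rfl⟩ hz j
    rw [cut_jet] at hz ⊢
    obtain ⟨h1, h2, h3, h4⟩ := (hC _ _).1 (hP2 hz)
    have hl : muR (lam c s) ≠ 0 := fun h => h3.ne_zero (by rw [h, map_zero, map_zero])
    simp only [← hp _ _ (hle j), ← hp']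
    exact key_rel h1 h2 (hle j) (hG c s hl S j) (hG' c s hl S j)
  · obtain ⟨γ, -, rfl⟩ := (hP2 hy).1
    obtain ⟨h1, -, -, h4⟩ := (hC _ _).1 (hP2 hy)
    obtain ⟨γ', h5, h6, h7⟩ := exists_next (f := f) (n := n) h1 (by omega) h4 b
    exact ⟨_, ⟨γ', h5, rfl⟩, (cut_jet f n γ').trans h6, h7⟩

end Pool.Agent.MP_536a45_ag_b

end
end
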