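import Pool.Agent.Mg.F536a45.G400a81
import Pool.Agent.MP_536a45_ag_b.Defs1

section

/-!
The group, its action and its invariants.
-/

noncomputable section

namespace Pool.Agent.MP_536a45_ag_b

open MvPolynomial Matrix

attribute [-simp] MvPolynomial.aeval_eq_bind₁

lemma exists_tt : ∃ t : K, t ^ 3 + t + 1 = 0 := by
  obtain ⟨u, hu⟩ := IsAlgClosed.exists_root
    (Polynomial.X ^ 3 + Polynomial.X + 1 : Polynomial K) (by
      have : (Polynomial.X ^ 3 + Polynomial.X + 1 : Polynomial K).degree = 3 := by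
        compute_degree!
      rw [this]; norm_num)
  exact ⟨u, by simpa using hu⟩

def tt : K := exists_tt.choose

lemma tt_spec : tt ^ 3 + tt + 1 = 0 := exists_tt.choose_spec

def Mx : Fin 3 → Matrix (Fin 3) (Fin 3) K :=
  ![!![0, 1, 0; 0, 0, 1; 1, 0, 0], !![1, tt, 0; 0, 0, tt; tt, 0, 1], !![tt, 0, 0; 0, 1, 0; 0, 0, tt + 1]]

abbrev I5 : Type := Fin 5 × Fin 3
abbrev N : Type := I5 ⊕ I5
abbrev B : Type := MvPolynomial N K
abbrev G0 : Type := Fin 3 → ZMod 2

section
variable {A : Type} [CommRing A] [Algebra K A]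

def mxv (i : Fin 3) (w : N → A) (p : I5) : A :=
  ∑ b, algebraMap K A (Mx i p.2 b) * w (Sum.inl (p.1, b))

def act (u : Fin 3 → A) (w : N → A) : N → A :=
  Sum.elim (fun p => w (Sum.inl p)) fun p => w (Sum.inr p) + ∑ i, u i * mxv i w p

@[simp] lemma act_inl (u : Fin 3 → A) (w : N → A) (p : I5) :
    act u w (Sum.inl p) = w (Sum.inl p) := rfl

@[simp] lemma act_inr (u : Fin 3 → A) (w : N → A) (p : I5) :
    act u w (Sum.inr p) = w (Sum.inr p) + ∑ i, u i * mxv i w p := rfl

@[simp] lemma mxv_act (u : Fin 3 → A) (w : N → A) (i : Fin 3) (p : I5) :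
    mxv i (act u w) p = mxv i w p := rfl

lemma act_act (u u' : Fin 3 → A) (w : N → A) : act u (act u' w) = act (u + u') w := by
  ext (p | p)
  · rfl
  · simp [add_mul, Finset.sum_add_distrib]; ring

lemma act_zero (w : N → A) : act 0 w = w := by ext (p | p) <;> simp

lemma act_self (u : Fin 3 → A) (w : N → A) : act u (act u w) = w := by
  rw [act_act, show u + u = 0 from funext fun i => add_self_alg _, act_zero]

lemma mxv_sub (i : Fin 3) (w w' : N → A) (p : I5) :
    mxv i (w - w') p = mxv i w p - mxv i w' p := by simp [mxv, mul_sub]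

lemma act_sub (u : Fin 3 → A) (w w' : N → A) : act u (w - w') = act u w - act u w' := by
  ext (p | p)
  · rfl
  · simp [mxv_sub, mul_sub]; ring

def Bm (u : Fin 3 → A) : Matrix N N A :=
  fromBlocks 1 0 (of fun p q => if p.1 = q.1 then ∑ i, u i * algebraMap K A (Mx i p.2 q.2) else 0) 1

lemma Bm_mulVec (u : Fin 3 → A) (w : N → A) : Bm u *ᵥ w = act u w := by
  ext (p | p)
  · simp [Bm, fromBlocks_mulVec]
  · simp only [Bm, fromBlocks_mulVec, Sum.elim_inr, one_mulVec, Pi.add_apply, Function.comp_apply,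
      act_inr]
    rw [add_comm]
    congr 1
    simp only [mulVec, dotProduct, of_apply, Function.comp_apply, Fintype.sum_prod_type, ite_mul,
      zero_mul, mxv, Finset.mul_sum, Finset.sum_mul]
    rw [Finset.sum_comm]
    simp only [Finset.sum_ite_eq, Finset.mem_univ, if_true]
    rw [Finset.sum_comm]
    simp [mul_assoc]

lemma det_Bm (u : Fin 3 → A) : (Bm u).det = 1 := by simp [Bm]

lemma Bm_mul (u u' : Fin 3 → A) : Bm u * Bm u' = Bm (u + u') :=
  Matrix.ext_iff_mulVec.2 fun w => by rw [← mulVec_mulVec, Bm_mulVec, Bm_mulVec, Bm_mulVec, act_act]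

lemma Bm_zero : Bm (0 : Fin 3 → A) = 1 :=
  Matrix.ext_iff_mulVec.2 fun w => by rw [Bm_mulVec, act_zero, one_mulVec]

def emb (A : Type) [CommRing A] [Algebra K A] (g : G0) : Fin 3 → A :=
  fun i => algebraMap K A (algebraMap (ZMod 2) K (g i))

lemma emb_add (g g' : G0) : emb A (g + g') = emb A g + emb A g' := by ext; simp [emb]

lemma emb_zero : emb A 0 = 0 := by ext; simp [emb]

lemma emb_sq (g : G0) (i : Fin 3) : emb A g i ^ 2 + emb A g i = 0 := by
  have : g i ^ 2 + g i = 0 := by generalize g i = a; revert a; decide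
  rw [emb, ← map_pow, ← map_pow, ← map_add, ← map_add, this, map_zero, map_zero]

def cc (l : I5 → K) (w : N → A) (i : Fin 3) : A := ∑ p, algebraMap K A (l p) * mxv i w p

def TT (l : I5 → K) (w : N → A) : A := ∑ p, algebraMap K A (l p) * w (Sum.inr p)

def Yq (l : I5 → K) (w : N → A) (p : I5) : A :=
  mu (cc l w) * w (Sum.inr p) + ∑ i, Bq (cc l w) i * Pq (cc l w) i (TT l w) * mxv i w p

@[simp] lemma cc_act (l : I5 → K) (u : Fin 3 → A) (w : N → A) : cc l (act u w) = cc l w := rfl

lemma TT_act (l : I5 → K) (u : Fin 3 → A) (w : N → A) :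
    TT l (act u w) = TT l w + ∑ i, u i * cc l w i := by
  simp only [TT, act_inr, mul_add, Finset.sum_add_distrib, cc, Finset.mul_sum]
  rw [Finset.sum_comm]
  congr 1
  exact Finset.sum_congr rfl fun _ _ => Finset.sum_congr rfl fun _ _ => by ring

lemma Yq_act (l : I5 → K) (g : G0) (w : N → A) (p : I5) :
    Yq l (act (emb A g) w) p = Yq l w p := by
  have h2 := two_alg A
  simp only [Yq, cc_act, TT_act, Pq_add, mul_add, Pq_sum, emb_sq, act_inr, mxv_act]
  simp [Rq, Fin.sum_univ_three]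
  grind

lemma sum_Yq (l : I5 → K) (w : N → A) : ∑ p, algebraMap K A (l p) * Yq l w p = 0 := by
  rw [← mu_sum (cc l w) (TT l w)]
  simp only [Yq, mul_add, Finset.sum_add_distrib, Finset.mul_sum]
  congr 1
  · simp only [TT, Finset.mul_sum]
    exact Finset.sum_congr rfl fun _ _ => by ring
  · rw [Finset.sum_comm]
    refine Finset.sum_congr rfl fun i _ => ?_
    conv_rhs => enter [1]; rw [cc]
    rw [Finset.sum_mul]
    exact Finset.sum_congr rfl fun _ _ => by ring

variable {A' : Type} [CommRing A'] [Algebra K A']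

lemma map_act' (φ : A →+* A') (hφ : ∀ i a b, φ (algebraMap K A (Mx i a b)) = algebraMap K A' (Mx i a b))
    (u : Fin 3 → A) (w : N → A) : φ ∘ act u w = act (φ ∘ u) (φ ∘ w) := by
  ext (p | p)
  · rfl
  · simp [mxv, hφ]

variable (φ : A →ₐ[K] A')

@[simp] lemma map_mxv (i : Fin 3) (w : N → A) (p : I5) :
    φ (mxv i w p) = mxv i (fun q => φ (w q)) p := by simp [mxv]

@[simp] lemma map_cc (l : I5 → K) (w : N → A) (i : Fin 3) :
    φ (cc l w i) = cc l (fun q => φ (w q)) i := by simp [cc]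

@[simp] lemma map_TT (l : I5 → K) (w : N → A) : φ (TT l w) = TT l (fun q => φ (w q)) := by
  simp [TT]

@[simp] lemma map_Yq (l : I5 → K) (w : N → A) (p : I5) :
    φ (Yq l w p) = Yq l (fun q => φ (w q)) p := by simp [Yq]

lemma map_act (u : Fin 3 → A) (w : N → A) (p : N) :
    φ (act u w p) = act (fun i => φ (u i)) (fun q => φ (w q)) p := by
  rcases p with p | p <;> simp

lemma map_Bm (u : Fin 3 → A) (p q : N) : φ (Bm u p q) = Bm (fun i => φ (u i)) p q := by
  rcases p with p | p <;> rcases q with q | q <;> simp [Bm, one_apply, apply_ite φ]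

@[simp] lemma map_emb (g : G0) (i : Fin 3) : φ (emb A g i) = emb A' g i := by simp [emb]

lemma algHom_aeval {σ : Type} (w : σ → A) (h : MvPolynomial σ K) :
    φ (aeval w h) = aeval (fun q => φ (w q)) h := by
  rw [← AlgHom.comp_apply, comp_aeval]

end

def repM : Multiplicative G0 →* Matrix N N K where
  toFun g := Bm (emb K g.toAdd)
  map_one' := by rw [toAdd_one, emb_zero, Bm_zero]
  map_mul' g g' := by rw [toAdd_mul, emb_add, Bm_mul]

/-- The group. -/
def GG : Subgroup (GL N K) := repM.toHomUnits.range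

/-- The ring of invariants. -/
abbrev R : Type := InvRing GG

lemma mem_Inv {h : B} : h ∈ InvRing GG ↔ ∀ g : G0, aeval (act (emb B g) X) h = h := by
  have e : ∀ g : G0, ((Bm (emb K g)).map C : Matrix N N B) = Bm (emb B g) := by
    intro g
    ext (p | p) (q | q) : 2 <;> simp [Bm, one_apply, apply_ite C, emb]
  simp only [InvRing, Algebra.mem_iInf, AlgHom.mem_equalizer, GG, MonoidHom.mem_range, AlgHom.id_apply]
  constructor
  · intro H g
    have := H _ ⟨Multiplicative.ofAdd g, rfl⟩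
    rwa [← Bm_mulVec, ← e g]
  · rintro H _ ⟨g, rfl⟩
    have := H g.toAdd
    rwa [← Bm_mulVec, ← e g.toAdd] at this

lemma inv_eval {A : Type} [CommRing A] [Algebra K A] (h : R) (g : G0) (w : N → A) :
    aeval (act (emb A g) w) (h : B) = aeval w (h : B) := by
  conv_rhs => rw [← mem_Inv.1 h.2 g, algHom_aeval]
  simp [map_act]

def xR (p : I5) : R := ⟨X (Sum.inl p), mem_Inv.2 fun g => by simp⟩
def cR (l : I5 → K) (i : Fin 3) : R := ⟨cc l X i, mem_Inv.2 fun g => by simp⟩
def YR (l : I5 → K) (p : I5) : R := ⟨Yq l X p, mem_Inv.2 fun g => by simp [Yq_act]⟩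
def NR (l : I5 → K) : R :=
  ⟨Nq (cc l X) (TT l X), mem_Inv.2 fun g => by simp [TT_act, Nq_shift _ _ (emb_sq g)]⟩

lemma exists_F (h : R) : ∃ F : MvPolynomial (N ⊕ Fin 3) K,
    ∀ (A : Type) [CommRing A] [Algebra K A] (ξ : N → A) (α : Fin 3 → A),
      aeval (act α ξ) (h : B) = aeval (Sum.elim ξ fun l => α l ^ 2 + α l) F ∧
      ∀ i, ∑ j, aeval (act α ξ) (pderiv j (h : B)) * Bm α j i =
        aeval (Sum.elim ξ fun l => α l ^ 2 + α l) (pderiv (Sum.inl i) F) := by
  let s : N → MvPolynomial (N ⊕ Fin 3) K := act (fun l => X (Sum.inr l)) fun q => X (Sum.inl q)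
  obtain ⟨F, hF⟩ := exists_of_shift (p := aeval s (h : B)) fun i => by
    rw [algHom_aeval, ← inv_eval h (Pi.single i 1) s]
    congr 2
    ext1 q
    rw [map_act, act_act]
    congr 1
    · ext1 l
      by_cases hl : l = i <;> simp [shift, emb, hl, add_comm]
    · ext1 q; simp [shift]
  refine ⟨F, fun A _ _ ξ α => ⟨?_, fun i => ?_⟩⟩
  · have := congrArg (aeval (Sum.elim ξ α)) hF
    rw [algHom_aeval, algHom_aeval] at this
    convert this using 3
    · simp [s, map_act]
    · ext (q | l) <;> simp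
  · have e1 : ∀ j, pderiv (Sum.inl i) (s j) = Bm (fun l => X (Sum.inr l)) j i := by
      intro j
      have e : s j = ∑ q, Bm (fun l => X (Sum.inr l)) j q * X (Sum.inl q) :=
        (congrFun (Bm_mulVec _ _) j).symm
      have e2 : ∀ q, pderiv (Sum.inl i) (Bm (fun l => (X (Sum.inr l) :
          MvPolynomial (N ⊕ Fin 3) K)) j q) = 0 := by
        intro q
        rcases j with j | j <;> rcases q with q | q <;>
          simp [Bm, one_apply, apply_ite (pderiv (Sum.inl i)), pderiv_X]
      rw [e, map_sum, Finset.sum_eq_single i]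
      · simp [Derivation.leibniz, e2]
      · intro q _ hq
        simp [Derivation.leibniz, e2, pderiv_X, hq]
      · simp
    have e2 : ∀ w : N ⊕ Fin 3 → MvPolynomial (N ⊕ Fin 3) K,
        w = Sum.elim (fun q => X (Sum.inl q)) (fun l => X (Sum.inr l) ^ 2 + X (Sum.inr l)) →
        pderiv (Sum.inl i) (aeval w F) = aeval w (pderiv (Sum.inl i) F) := by
      rintro w rfl
      rw [pderiv_aeval, Finset.sum_eq_single (Sum.inl i)]
      · simp
      · rintro (q | l) _ hq
        · simp [pderiv_X, hq]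
        · simp [pderiv_X]
      · simp
    have := congrArg (fun p => aeval (Sum.elim ξ α) (pderiv (Sum.inl i) p)) hF
    simp only [e2 _ rfl] at this
    simp only [pderiv_aeval, map_sum, map_mul, algHom_aeval, e1, map_Bm] at this
    convert this using 3
    · simp [s, map_act]
    · simp
    · ext (q | l) <;> simp

end Pool.Agent.MP_536a45_ag_b

end
end

section

/-!
The determinantal representation of the supersingular cubic.
-/

noncomputable section

namespace Pool.Agent.MP_536a45_ag_b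

open Matrix

def phM (u : Fin 3 → K) : Matrix (Fin 3) (Fin 3) K := ∑ i, u i • Mx i

lemma phM_eq (u : Fin 3 → K) : phM u = !![u 1 + tt * u 2, u 0 + tt * u 1, 0;
    0, u 2, u 0 + tt * u 1; u 0 + tt * u 1, 0, u 1 + tt * u 2 + u 2] := by
  ext a b
  fin_cases a <;> fin_cases b <;> simp [phM, Mx, Fin.sum_univ_three] <;> ring

lemma det_phM (u : Fin 3 → K) : (phM u).det =
    (u 0 + tt * u 1) ^ 3 + (u 1 + tt * u 2) * u 2 * (u 1 + tt * u 2 + u 2) := by
  rw [phM_eq, det_fin_three]; simp; ring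

lemma det_phM_emb {g : G0} (hg : g ≠ 0) : (phM (emb K g)).det ≠ 0 := by
  have h2 := two_K
  have ht := tt_spec
  have : ∀ a : ZMod 2, a = 0 ∨ a = 1 := by decide
  rw [det_phM]
  rcases this (g 0) with h0 | h0 <;> rcases this (g 1) with h1 | h1 <;>
    rcases this (g 2) with h3 | h3
  · exact absurd (funext fun i => by fin_cases i <;> assumption) hg
  all_goals simp only [emb, h0, h1, h3, map_zero, map_one]; grind

lemma phM_emb_inj {g : G0} (hg : g ≠ 0) {w : Fin 3 → K} (h : phM (emb K g) *ᵥ w = 0) : w = 0 :=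
  Matrix.eq_zero_of_mulVec_eq_zero (det_phM_emb hg) h

lemma exists_kappa {u : Fin 3 → K} (hu : u ≠ 0) :
    ∃ κ, ∀ w, phM u *ᵥ w = 0 → w κ = 0 → w = 0 := by
  have key : ∀ w, phM u *ᵥ w = 0 → (u 1 + tt * u 2) * w 0 + (u 0 + tt * u 1) * w 1 = 0 ∧
      u 2 * w 1 + (u 0 + tt * u 1) * w 2 = 0 ∧
      (u 0 + tt * u 1) * w 0 + (u 1 + tt * u 2 + u 2) * w 2 = 0 := by
    intro w h
    have h0 := congrFun h 0
    have h1 := congrFun h 1
    have h2 := congrFun h 2
    simp [phM_eq, mulVec, dotProduct, Fin.sum_univ_three] at h0 h1 h2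
    exact ⟨h0, h1, h2⟩
  have fin : ∀ w : Fin 3 → K, w 0 = 0 → w 1 = 0 → w 2 = 0 → w = 0 := fun w h0 h1 h2 =>
    funext fun i => by fin_cases i <;> assumption
  have hu' : ¬ (u 0 = 0 ∧ u 1 = 0 ∧ u 2 = 0) := fun h => hu (fin u h.1 h.2.1 h.2.2)
  by_cases hx : u 0 + tt * u 1 = 0
  · by_cases hy : u 1 + tt * u 2 = 0
    · exact ⟨0, fun w h hw => by have := key w h; apply fin <;> grind⟩
    by_cases hz : u 2 = 0
    · exact ⟨1, fun w h hw => by have := key w h; apply fin <;> grind⟩
    · exact ⟨2, fun w h hw => by have := key w h; apply fin <;> grind⟩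
  · exact ⟨0, fun w h hw => by have := key w h; apply fin <;> grind⟩

def S15 : Finset K := (Infinite.exists_subset_card_eq K 15).choose

lemma card_S15 : S15.card = 15 := (Infinite.exists_subset_card_eq K 15).choose_spec

lemma exists_good {w : Fin 3 → K} (hw : w ≠ 0) :
    ∃ s ∈ S15, ∀ g : G0, g ≠ 0 → ∑ a : Fin 3, s ^ (a : ℕ) * (phM (emb K g) *ᵥ w) a ≠ 0 := by
  classical
  let P : G0 → Polynomial K := fun g =>
    ∑ a : Fin 3, Polynomial.monomial a ((phM (emb K g) *ᵥ w) a)
  have hP : ∀ g, g ≠ 0 → P g ≠ 0 := fun g hg h => hw (phM_emb_inj hg (funext fun a => by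
    have := congrArg (Polynomial.coeff · a) h
    simpa [P, Polynomial.coeff_monomial, Fin.val_inj] using this))
  have hd : ∀ g, (P g).natDegree ≤ 2 := fun g =>
    Polynomial.natDegree_sum_le_of_forall_le _ _ fun a _ =>
      (Polynomial.natDegree_monomial_le _).trans (by omega)
  by_contra! h
  refine Finset.prod_ne_zero_iff.2 (fun g (hg : g ∈ Finset.univ.erase (0 : G0)) =>
    hP g (Finset.ne_of_mem_erase hg)) (Polynomial.eq_zero_of_natDegree_lt_card_of_eval_eq_zero' _
      S15 (fun s hs => ?_) ?_)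
  · obtain ⟨g, hg, h0⟩ := h s hs
    rw [Polynomial.eval_prod]
    refine Finset.prod_eq_zero (Finset.mem_erase.2 ⟨hg, Finset.mem_univ _⟩) ?_
    simpa [P, Polynomial.eval_finsetSum, mul_comm] using h0
  · refine (Polynomial.natDegree_prod_le _ _).trans_lt
      ((Finset.sum_le_card_nsmul _ _ 2 fun g _ => hd g).trans_lt ?_)
    rw [card_S15, Finset.card_erase_of_mem (Finset.mem_univ _)]
    simp

def lam (c : Fin 5) (s : K) : I5 → K := fun p => if p.1 = c then s ^ (p.2 : ℕ) else 0

lemma sum_lam {A : Type} [CommRing A] [Algebra K A] (c : Fin 5) (s : K) (F : I5 → A) :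
    ∑ p, algebraMap K A (lam c s p) * F p = ∑ a : Fin 3, algebraMap K A (s ^ (a : ℕ)) * F (c, a) := by
  rw [Fintype.sum_prod_type, Finset.sum_eq_single c]
  · simp [lam]
  · intro b _ hb; simp [lam, hb]
  · simp

lemma sum_mxv_K (u : Fin 3 → K) (w : N → K) (p : I5) :
    ∑ i, u i * mxv i w p = (phM u *ᵥ fun b => w (Sum.inl (p.1, b))) p.2 := by
  simp only [mxv, phM, mulVec, dotProduct, Finset.mul_sum, Matrix.sum_apply, Finset.sum_mul]
  rw [Finset.sum_comm]
  simp [mul_assoc]

/-- The seven nonzero combinations. -/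
lemma mu_eq {A : Type} [CommRing A] [Algebra K A] (c : Fin 3 → A) :
    mu c = ∏ g ∈ Finset.univ.erase (0 : G0), ∑ i, emb A g i * c i := by
  have : Finset.univ.erase (0 : G0) = {![1, 0, 0], ![0, 1, 0], ![0, 0, 1], ![1, 1, 0], ![1, 0, 1],
    ![0, 1, 1], ![1, 1, 1]} := by decide
  rw [this, Finset.prod_insert (by decide), Finset.prod_insert (by decide),
    Finset.prod_insert (by decide), Finset.prod_insert (by decide), Finset.prod_insert (by decide),
    Finset.prod_insert (by decide), Finset.prod_singleton]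
  simp [mu, emb, Fin.sum_univ_three]
  ring

end Pool.Agent.MP_536a45_ag_b

end
end

section

/-!
Jacobians of invariants; explicit generators after localisation.
-/

noncomputable section

namespace Pool.Agent.MP_536a45_ag_b

open MvPolynomial Matrix

attribute [-simp] MvPolynomial.aeval_eq_bind₁

section
variable {A : Type} [CommRing A] [Algebra K A]

/-- The Jacobian matrix at a point. -/
def DM {α : Type} (v : N → A) (h : α → R) : Matrix α N A :=
  of fun i j => aeval v (pderiv j (h i : B))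

lemma DM_act {α : Type} (v : N → A) (h : α → R) (g : G0) :
    DM (act (emb A g) v) h * Bm (emb A g) = DM v h := by
  ext i j
  obtain ⟨F, hF⟩ := exists_F (h i)
  have h1 := (hF A v (emb A g)).2 j
  have h2 := (hF A v 0).2 j
  simp only [emb_sq] at h1
  simp only [Bm_zero, act_zero, one_apply, mul_ite, mul_one, mul_zero, Finset.sum_ite_eq',
    Finset.mem_univ, if_true, Pi.zero_apply, ne_eq, OfNat.ofNat_ne_zero, not_false_eq_true,
    zero_pow, add_zero] at h2
  exact h1.trans h2.symm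

lemma aeval_det_DM (v : N → A) (h : N → R) : aeval v (DM (X : N → B) h).det = (DM v h).det := by
  rw [AlgHom.map_det]
  congr 1
  ext i j
  simp [DM, algHom_aeval]

end

/-- The Jacobian determinant of invariants. -/
def Jac (h : N → R) : R := ⟨(DM (X : N → B) h).det, mem_Inv.2 fun g => by
  rw [aeval_det_DM, ← DM_act X h g, det_mul, det_Bm, mul_one]⟩

lemma aeval_Jac {A : Type} [CommRing A] [Algebra K A] (v : N → A) (h : N → R) :
    aeval v (Jac h : B) = (DM v h).det := aeval_det_DM v h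

lemma DM_X {α : Type} (h : α → R) (i : α) (j : N) : DM (X : N → B) h i j = pderiv j (h i : B) := by
  simp [DM, aeval_X_left_apply]

def muR (l : I5 → K) : R := mu (cR l)

lemma coe_muR (l : I5 → K) : (muR l : B) = mu (cc l X) := map_mu (InvRing GG).val _

/-- A system of parameters with explicit Jacobian. -/
def f0 (c : Fin 5) (s : K) : N → R :=
  Sum.elim xR fun p => if p = (c, 0) then NR (lam c s) else YR (lam c s) p

lemma Jac_f0 (c : Fin 5) (s : K) : Jac (f0 c s) = muR (lam c s) ^ 15 := by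
  apply Subtype.ext
  set l := lam c s
  let lv : I5 → B := fun q => algebraMap K B (l q)
  let μ : B := mu (cc l X)
  let ρ : I5 → B := fun p => ∑ i, Bq (cc l X) i * Bq (cc l X) i * mxv i X p
  have hm : ∀ q i p, pderiv (Sum.inr q) (mxv i (X : N → B) p) = 0 := by
    intro q i p; simp [mxv, pderiv_X]
  have hc : ∀ q i, pderiv (Sum.inr q) (cc l (X : N → B) i) = 0 := by
    intro q i; simp [cc, hm]
  have hT : ∀ q, pderiv (Sum.inr q) (TT l (X : N → B)) = lv q := by
    intro q
    simp only [TT, map_sum, Derivation.leibniz, Derivation.map_algebraMap,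
      pderiv_X, smul_eq_mul]
    rw [Finset.sum_eq_single q] <;> simp +contextual [lv, eq_comm]
  set M : Matrix I5 I5 B := of fun p q => pderiv (Sum.inr q) (f0 c s (Sum.inr p) : B) with hM
  have h1 : (DM (X : N → B) (f0 c s)).det = M.det := by
    have : DM (X : N → B) (f0 c s) = fromBlocks 1 0
        (of fun p q => pderiv (Sum.inl q) (f0 c s (Sum.inr p) : B)) M := by
      ext (p | p) (q | q) : 2
      · simp [DM_X, f0, xR, pderiv_X, one_apply, Pi.single_apply]
      · simp [DM_X, f0, xR, pderiv_X]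
      · simp [DM_X]
      · simp [DM_X, hM]
    rw [this, det_fromBlocks_zero₁₂, det_one, one_mul]
  have h2 : M = updateRow M (c, 0) (μ • lv) := by
    ext p q : 2
    by_cases hp : p = (c, 0)
    · subst hp
      simp [hM, f0, NR, deriv_Nq _ _ (hc q), hT, μ, l]
    · rw [updateRow_ne hp]
  have h3 : (updateRow M (c, 0) lv).det = (updateRow (μ • (1 : Matrix I5 I5 B)) (c, 0) lv).det := by
    refine det_eq_of_forall_row_eq_smul_add_const (fun p => if p = (c, 0) then 0 else ρ p) (c, 0)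
      (by simp) fun p q => ?_
    by_cases hp : p = (c, 0)
    · subst hp; simp
    · simp only [updateRow_ne hp, hM, of_apply, f0, Sum.elim_inr, if_neg hp, YR, Yq, map_add,
        map_sum, Derivation.leibniz, deriv_mu _ _ (hc q), deriv_Bq _ _ (hc q), deriv_Pq _ _ (hc q),
        hT, hm, smul_eq_mul, updateRow_self, pderiv_X, Matrix.smul_apply, one_apply, ρ,
        Finset.sum_mul, l, μ]
      congr 1
      · simp [Pi.single_apply]
      · exact Finset.sum_congr rfl fun _ _ => by ring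
  have h4 : (updateRow (1 : Matrix I5 I5 B) (c, 0) lv).det = 1 := by
    have := det_updateRow_sum (1 : Matrix I5 I5 B) (c, 0) lv
    rw [show ∑ k, lv k • (1 : Matrix I5 I5 B) k = lv by
      ext1 q; simp [Finset.sum_apply, one_apply]] at this
    rw [this]
    simp [lv, l, lam]
  change (DM (X : N → B) (f0 c s)).det = _
  rw [h1, h2, det_updateRow_smul, h3, det_updateRow_smul_left, h4, SubmonoidClass.coe_pow, coe_muR]
  simp [μ, ← pow_succ']

lemma clearing (l : I5 → K) (F : MvPolynomial (N ⊕ Fin 3) K) :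
    ∃ (M : ℕ) (G : MvPolynomial (N ⊕ Unit) K), ∀ (A : Type) [CommRing A] [Algebra K A]
      (ξ : N → A) (b : Fin 3 → A) (w : N ⊕ Unit → A),
      (∀ p, ξ (Sum.inl p) = w (Sum.inl (Sum.inl p))) →
      (∀ p, mu (cc l ξ) * ξ (Sum.inr p) = w (Sum.inl (Sum.inr p))) →
      (∀ i, mu (cc l ξ) ^ 2 * b i = Bq (cc l ξ) i ^ 2 * w (Sum.inr ())) →
      mu (cc l ξ) ^ M * aeval (Sum.elim ξ b) F = aeval w G := by
  let c0 : Fin 3 → MvPolynomial (N ⊕ Unit) K := cc l fun q => X (Sum.inl q)
  have hc : ∀ (A : Type) [CommRing A] [Algebra K A] (ξ : N → A) (w : N ⊕ Unit → A),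
      (∀ p, ξ (Sum.inl p) = w (Sum.inl (Sum.inl p))) → (fun i => aeval w (c0 i)) = cc l ξ := by
    intro A _ _ ξ w h
    ext i
    simp [c0, cc, mxv, h]
  induction F using MvPolynomial.induction_on with
  | C a => exact ⟨0, C a, fun A _ _ ξ b w _ _ _ => by simp⟩
  | add p q hp hq =>
    obtain ⟨M, G, h⟩ := hp
    obtain ⟨M', G', h'⟩ := hq
    refine ⟨M + M', mu c0 ^ M' * G + mu c0 ^ M * G', fun A _ _ ξ b w h1 h2 h3 => ?_⟩
    simp only [map_add, map_mul, map_pow, map_mu, hc A ξ w h1, ← h A ξ b w h1 h2 h3,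
      ← h' A ξ b w h1 h2 h3]
    ring
  | mul_X p i hp =>
    obtain ⟨M, G, h⟩ := hp
    rcases i with (q | q) | i
    · refine ⟨M, G * X (Sum.inl (Sum.inl q)), fun A _ _ ξ b w h1 h2 h3 => ?_⟩
      simp only [map_mul, aeval_X, ← h A ξ b w h1 h2 h3, ← h1, Sum.elim_inl]
      ring
    · refine ⟨M + 1, G * X (Sum.inl (Sum.inr q)), fun A _ _ ξ b w h1 h2 h3 => ?_⟩
      simp only [map_mul, aeval_X, ← h A ξ b w h1 h2 h3, ← h2, Sum.elim_inl]
      ring
    · refine ⟨M + 2, G * (Bq c0 i ^ 2 * X (Sum.inr ())), fun A _ _ ξ b w h1 h2 h3 => ?_⟩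
      simp only [map_mul, map_pow, map_Bq, hc A ξ w h1, aeval_X, ← h A ξ b w h1 h2 h3, ← h3,
        Sum.elim_inr]
      ring

def fp (l : I5 → K) : N ⊕ Unit → R := Sum.elim (Sum.elim xR (YR l)) fun _ => NR l

lemma clearing_R {l : I5 → K} (hl : muR l ≠ 0) (h : R) :
    ∃ (M : ℕ) (G : MvPolynomial (N ⊕ Unit) K), muR l ^ M * h = aeval (fp l) G ∧
      ∀ (A : Type) [CommRing A] [Algebra K A] (ξ : N → A) (α : Fin 3 → A) (w : N ⊕ Unit → A),
      (∀ p, ξ (Sum.inl p) = w (Sum.inl (Sum.inl p))) →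
      (∀ p, mu (cc l ξ) * ξ (Sum.inr p) = w (Sum.inl (Sum.inr p))) →
      (∀ i, mu (cc l ξ) ^ 2 * (α i ^ 2 + α i) = Bq (cc l ξ) i ^ 2 * w (Sum.inr ())) →
      mu (cc l ξ) ^ M * aeval (act α ξ) (h : B) = aeval w G := by
  obtain ⟨F, hF⟩ := exists_F h
  obtain ⟨M, G, hG⟩ := clearing l F
  have key : ∀ (A : Type) [CommRing A] [Algebra K A] (ξ : N → A) (α : Fin 3 → A)
      (w : N ⊕ Unit → A), (∀ p, ξ (Sum.inl p) = w (Sum.inl (Sum.inl p))) →
      (∀ p, mu (cc l ξ) * ξ (Sum.inr p) = w (Sum.inl (Sum.inr p))) →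
      (∀ i, mu (cc l ξ) ^ 2 * (α i ^ 2 + α i) = Bq (cc l ξ) i ^ 2 * w (Sum.inr ())) →
      mu (cc l ξ) ^ M * aeval (act α ξ) (h : B) = aeval w G := fun A _ _ ξ α w h1 h2 h3 => by
    rw [(hF A ξ α).1]; exact hG A ξ _ w h1 h2 h3
  refine ⟨M, G, ?_, key⟩
  let L := FractionRing B
  let φ : B →ₐ[K] L := IsScalarTower.toAlgHom K B L
  have hφ : Function.Injective φ := IsFractionRing.injective B L
  let v : N → L := fun q => φ (X q)
  have hv : ∀ p : B, φ p = aeval v p := fun p => by
    conv_lhs => rw [← aeval_X_left_apply p, algHom_aeval]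
  have hμ : mu (cc l v) ≠ 0 := by
    have : φ (muR l : B) ≠ 0 := (map_ne_zero_iff φ hφ).2 fun h => hl (Subtype.ext h)
    simpa [coe_muR, v] using this
  let α : Fin 3 → L := fun i => Bq (cc l v) i * Pq (cc l v) i (TT l v) / mu (cc l v)
  have hα : ∀ i, mu (cc l v) * α i = Bq (cc l v) i * Pq (cc l v) i (TT l v) := fun i =>
    mul_div_cancel₀ _ hμ
  have := key L (act α v) α (fun q => φ (fp l q : B)) (fun p => by simp [fp, xR, v])
    (fun p => by
      simp only [cc_act, act_inr, fp, Sum.elim_inl, Sum.elim_inr, YR, map_Yq]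
      change _ = Yq l v p
      rw [mul_add, Finset.mul_sum, Yq]
      congr 1
      exact Finset.sum_congr rfl fun i _ => by rw [← mul_assoc, hα])
    (fun i => by
      simp only [cc_act, fp, Sum.elim_inr, NR, map_Nq, map_cc, map_TT]
      change _ = Bq (cc l v) i ^ 2 * Nq (cc l v) (TT l v)
      rw [Bq_Nq, ← hα]
      ring)
  rw [act_self, cc_act, ← hv] at this
  apply Subtype.ext
  apply hφ
  have e : ((aeval (fp l) G : R) : B) = aeval (fun q => (fp l q : B)) G :=
    algHom_aeval (InvRing GG).val _ _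
  rw [e, algHom_aeval, ← this]
  simp [coe_muR, v]

/-- An arc in the free locus comes from a twisted point. -/
lemma eval_eq_of_rep {A : Type} [CommRing A] [IsDomain A] [Algebra K A] (γ : R →ₐ[K] A)
    {l : I5 → K} (ξ : N → A) (α : Fin 3 → A) (hμ : mu (cc l ξ) ≠ 0)
    (h1 : ∀ p, ξ (Sum.inl p) = γ (xR p))
    (h2 : ∀ p, mu (cc l ξ) * ξ (Sum.inr p) = γ (YR l p))
    (h3 : ∀ i, mu (cc l ξ) ^ 2 * (α i ^ 2 + α i) = Bq (cc l ξ) i ^ 2 * γ (NR l)) (h : R) :
    aeval (act α ξ) (h : B) = γ h := by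
  have hc : (fun i => γ (cR l i)) = cc l ξ := by
    ext i
    have : cR l i = ∑ p, algebraMap K R (l p) *
        ∑ b, algebraMap K R (Mx i p.2 b) * xR (p.1, b) := by
      apply Subtype.ext; simp [cR, cc, mxv, xR]
    simp [this, cc, mxv, h1]
  have hγ : γ (muR l) = mu (cc l ξ) := by rw [muR, map_mu, hc]
  obtain ⟨M, G, hG, hG'⟩ := clearing_R (l := l) (fun h => hμ (by rw [← hγ, h, map_zero])) h
  have := hG' A ξ α (fun q => γ (fp l q)) h1 h2 h3
  rw [← algHom_aeval, ← hG, map_mul, map_pow, hγ] at this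
  exact mul_left_cancel₀ (pow_ne_zero _ hμ) this

end Pool.Agent.MP_536a45_ag_b

end
end
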