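import Pool.Agent.Mg.F536a45.G86d526
import Pool.Agent.Mg.F536a45.G400a81
import Mathlib
import Pool.Agent.Mg.F536a45.Gc39fd6

section

/-!
The fibres of the parametrisation; linear constraints.
-/

noncomputable section

namespace Pool.Agent.MP_536a45_ag_b

open MvPolynomial Matrix Module

attribute [-simp] MvPolynomial.aeval_eq_bind₁

variable {J T : ℕ}

lemma le_single (s : ℚ) : Le s (HahnSeries.single s (1 : K)) := ⟨s, le_rfl, by simp⟩

theorem exists_M {r : Fin 3 → Fin J → K} {η : N × Fin T → K} {a n : ℕ}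
    (hv : OrdV a (tw r (lf η))) (hT : T = n + 1 + J) (h1 : a + 30 * J ≤ T) {s : ℚ}
    (hs1 : n + 1 ≤ 2 * s) (hs2 : s ≤ n + 1 - a) :
    ∃ M : Submodule K (N × Fin T → K), finrank K M = a + 30 * J ∧ ∀ η', η' - η ∈ M ↔
      (∀ q, Ge s (tw r (lf η') q - tw r (lf η) q)) ∧
      ∀ h : R, Ge (n + 1) (aeval (tw r (lf η')) (h : B) - aeval (tw r (lf η)) (h : B)) := by
  obtain ⟨g, hg⟩ := hv.2.2
  set v := tw r (lf η) with hv'
  set D := DM v g * Bm fun i => al (r i) with hD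
  have hD1 : ∀ i j, D i j ∈ ZS := fun i j => (tw_mem_ZS r (lf_mem η) (g i)).2 j
  have hD2 : D.det = aeval v (Jac g : B) := by rw [hD, det_mul, det_Bm, mul_one, aeval_Jac]
  have hD3 : ∀ i j, Ge (-J) (D i j) := fun i j => by
    rw [hD, mul_apply]
    refine Ge.sum fun q _ => Ge.mul_left (ge_aeval hv.1 _) ?_
    have := ge_act (s := 0) (by simp) (w := Pi.single j 1) (fun p => by
      rw [Pi.single_apply]; split_ifs; exacts [mem_OS.1 (one_mem _), ge_zero _])
      (fun i => al_ge (r i)) q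
    rwa [← Bm_mulVec, mulVec_single_one, add_zero] at this
  let τ : H := HahnSeries.single (J : ℚ) 1
  choose D' hD' using fun i j => exists_toH (z := τ * D i j)
    (mul_mem (by exact_mod_cast single_mem_ZS J 1) (hD1 i j))
    (by simpa using (ge_single (J : ℚ) 1).mul (hD3 i j))
  have e1 : toH.mapMatrix (of D') = τ • D := by ext1 i j; exact hD' i j
  have e2 : toH (of D').det = τ ^ 30 * aeval v (Jac g : B) := by
    rw [AlgHom.map_det, e1, det_smul, hD2]; simp
  have e3 : (of D').det.order = (a + 30 * J : ℕ) := le_antisymm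
    (le_toH_iff.1 (by
      rw [e2]; convert ((le_single J).pow 30).mul hg using 1; push_cast; ring))
    (ge_toH_iff.1 (by
      rw [e2]; convert ((ge_single J 1).pow 30).mul (hv.2.1 g) using 1; push_cast; ring))
  refine ⟨_, finrank_index e3 h1, fun η' => ?_⟩
  have e4 : ∀ q, toH ((of D' *ᵥ liftP T (η' - η)) q) =
      τ * (DM v g *ᵥ (tw r (lf η') - v)) q := fun q => by
    rw [hv', ← tw_sub, ← lf_sub, tw, tw, ← Bm_mulVec _ (lf (η' - η)), mulVec_mulVec, ← tw, ← hv',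
      ← hD]
    simp only [mulVec, dotProduct, map_sum, map_mul, of_apply, hD', Finset.mul_sum, mul_assoc]
    rfl
  have e5 : η' - η ∈ LinearMap.ker (trP T ∘ₗ (of D').mulVecLin.restrictScalars K ∘ₗ liftP T) ↔
      ∀ q, Ge (n + 1) ((DM v g *ᵥ (tw r (lf η') - v)) q) := by
    have hT' : (T : ℚ) = n + 1 + J := by exact_mod_cast hT
    constructor
    · intro h q
      have := ge_of_coeff (toH_mem_ZS ((of D' *ᵥ liftP T (η' - η)) q)) (ge_toH _) (n := T)
        fun i hi => (toH_coeff _ _).trans (congrFun h (q, ⟨i, hi⟩))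
      rw [e4] at this
      simpa [hT'] using this.of_mul (le_single J)
    · intro h
      ext ⟨q, i⟩
      refine (toH_coeff ((of D' *ᵥ liftP T (η' - η)) q) i).symm.trans ?_
      rw [e4]
      refine (ge_single (J : ℚ) 1).mul (h q) _ ?_
      have : ((i : ℕ) : ℚ) < T := by exact_mod_cast i.2
      linarith
  have ha : (0 : ℚ) ≤ a := Nat.cast_nonneg a
  have hn : (0 : ℚ) ≤ n := Nat.cast_nonneg n
  rw [e5]
  constructor
  · intro h
    obtain ⟨h2, h3⟩ := hv.cv hg h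
    refine ⟨fun q => (h2 q).mono hs2, fun p => ?_⟩
    have := taylor hv.1 (by linarith) h2 (p : B)
    rw [add_sub_cancel] at this
    simpa using (this.mono (by linarith)).add (h3 p)
  · rintro ⟨h2, h3⟩ q
    have := taylor (δ := tw r (lf η') - v) hv.1 (by linarith) h2 (g q : B)
    rw [add_sub_cancel] at this
    have h4 := (h3 (g q)).sub (this.mono hs1)
    rw [sub_sub_cancel] at h4
    exact h4

/-- Extension by zero. -/
def ez (r : Fin 3 → Fin J → K) (b : ℕ) (l : Fin 3) : K := if h : b < J then r l ⟨b, h⟩ else 0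

/-- The constraints coming from half-integral exponents. -/
def tri (r : Fin 3 → Fin J → K) (η : N × Fin T → K) (c : ℕ) (p : I5) : K :=
  ∑ i : Fin T, (phM (ez r (c + i)) *ᵥ fun b => η (Sum.inl (p.1, b), i)) p.2

lemma coeff_tri (r : Fin 3 → Fin J → K) (η : N × Fin T → K) (c : ℕ) (p : I5) :
    (∑ l, al (r l) * mxv l (lf η) p).coeff (-(2 * c + 1 : ℚ) / 2) = tri r η c p := by
  have e : ∀ l, mxv l (lf η) p =
      ∑ i : Fin T, HahnSeries.single ((i : ℕ) : ℚ) (mxv l (fun q => η (q, i)) p) := fun l => by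
    simp only [mxv, lf_eq, Finset.mul_sum, algebraMap_H, HahnSeries.single_mul_single, zero_add]
    rw [Finset.sum_comm]
    refine Finset.sum_congr rfl fun i _ => ?_
    ext γ
    by_cases h : γ = (i : ℕ) <;> simp [HahnSeries.coeff_sum, h]
  simp only [e, Finset.mul_sum, HahnSeries.coeff_sum, tri]
  rw [Finset.sum_comm]
  refine Finset.sum_congr rfl fun i _ => ?_
  rw [← sum_mxv_K (ez r (c + i)) (fun q => η (q, i)) p]
  refine Finset.sum_congr rfl fun l _ => ?_
  rw [show (-(2 * c + 1 : ℚ) / 2) = -(2 * (c + i : ℕ) + 1 : ℚ) / 2 + (i : ℕ) by push_cast; ring,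
    HahnSeries.coeff_mul_single_add, al_coeff_half, ez]

lemma tri_eq_zero {r : Fin 3 → Fin J → K} {η : N × Fin T → K} (h : ∀ q, Ge 0 (tw r (lf η) q))
    (c : ℕ) (p : I5) : tri r η c p = 0 := by
  rw [← coeff_tri]
  exact (tw_split (lf_mem η) h).2 p _ (by
    have : (0 : ℚ) ≤ c := Nat.cast_nonneg c
    linarith)

lemma phM_zero : phM 0 = 0 := by simp [phM]

lemma tri_inj {r : Fin 3 → Fin J → K} {η : N × Fin T → K} {j : ℕ} (hr : ∀ b, j < b → ez r b = 0)
    {κ : Fin 3} (hκ : ∀ w, phM (ez r j) *ᵥ w = 0 → w κ = 0 → w = 0)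
    (h : ∀ c ≤ j, ∀ p, tri r η c p = 0) (h0 : ∀ c, ∀ i : Fin T, i ≤ j → η (Sum.inl (c, κ), i) = 0)
    (i : Fin T) (hi : i ≤ j) (p : I5) : η (Sum.inl p, i) = 0 := by
  induction i using WellFoundedLT.induction generalizing p with
  | ind i ih =>
    refine congrFun (hκ (fun b => η (Sum.inl (p.1, b), i)) (funext fun a => ?_) (h0 _ i hi)) p.2
    have := h (j - i) (by omega) (p.1, a)
    rw [tri, Finset.sum_eq_single i, show j - i + i = j by omega] at this
    · exact this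
    · intro i' _ hi'
      rcases lt_or_gt_of_ne hi' with h1 | h1
      · rw [show (fun b => η (Sum.inl (p.1, b), i')) = 0 from
          funext fun b => ih i' h1 (by omega) _]
        simp
      · rw [hr _ (by omega), phM_zero]; simp
    · simp

lemma exists_level {r : Fin 3 → Fin J → K} {o : ℕ} (h : ∃ b, o ≤ b ∧ ez r b ≠ 0) :
    ∃ j < J, o ≤ j ∧ ez r j ≠ 0 ∧ ∀ b, j < b → ez r b = 0 := by
  classical
  have key : ∀ b, ez r b ≠ 0 → b < J := fun b hb => by_contra fun h =>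
    hb (funext fun l => dif_neg h)
  obtain ⟨b, h1, h2⟩ := h
  have h3 := Nat.findGreatest_spec (P := fun b => ez r b ≠ 0) (key b h2).le h2
  refine ⟨_, key _ h3, h1.trans (Nat.le_findGreatest (key b h2).le h2), h3, fun c hc => ?_⟩
  by_contra h4
  exact Nat.findGreatest_is_greatest hc (key c h4).le h4

end Pool.Agent.MP_536a45_ag_b

end
end

section

/-!
The dimension bound and convergence of the stringy motive.
-/

noncomputable section

namespace Pool.Agent.MP_536a45_ag_b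

open MvPolynomial Matrix Module Filter

attribute [-simp] MvPolynomial.aeval_eq_bind₁

variable {J T : ℕ}

def rr (J : ℕ) {j : ℕ} (ρ : Fin 3 × Fin j → K) (l : Fin 3) (b : Fin J) : K :=
  if h : (b : ℕ) < j then ρ (l, ⟨b, h⟩) else 0

lemma rr_ez {r : Fin 3 → Fin J → K} {j : ℕ} (h : ∀ b, j ≤ b → ez r b = 0) :
    rr J (fun p : Fin 3 × Fin j => ez r p.2 p.1) = r := by
  ext l b
  have : ez r b l = r l b := dif_pos b.2
  rw [rr]
  split_ifs with hb
  · exact this
  · rw [← this, h b (not_lt.1 hb)]; rfl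

lemma exists_Theta (j : ℕ) : ∃ Θ : Pm J T → MvPolynomial ((Fin 3 × Fin j) ⊕ (N × Fin T)) K,
    ∀ ρ η, pmap Θ (Sum.elim ρ η) = mkz (rr J ρ) η := by
  refine ⟨Sum.elim (fun p => if h : (p.2 : ℕ) < j then X (Sum.inl (p.1, ⟨p.2, h⟩)) else 0)
    fun p => X (Sum.inr p), fun ρ η => ?_⟩
  ext (p | p)
  · simp only [pmap, mkz, rr, Sum.elim_inl]; split_ifs <;> simp
  · simp [pmap, mkz]

def triL (r : Fin 3 → Fin J → K) (T j : ℕ) : (N × Fin T → K) →ₗ[K] Fin j × I5 → K where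
  toFun η x := tri r η x.1 x.2
  map_add' η η' := by
    ext x; simp [tri, mulVec, dotProduct, mul_add, Finset.sum_add_distrib]
  map_smul' c η := by
    ext x; simp [tri, mulVec, dotProduct, Finset.mul_sum, mul_left_comm]

lemma poly_tri (j : ℕ) (η : N × Fin T → K) (c : ℕ) (p : I5) :
    ∃ P : MvPolynomial (Fin 3 × Fin j) K, ∀ ρ, tri (rr J ρ) η c p = aeval ρ P := by
  have : ∀ b l, ∃ P : MvPolynomial (Fin 3 × Fin j) K, ∀ ρ, ez (rr J ρ) b l = aeval ρ P := by
    intro b l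
    by_cases h : b < J
    · by_cases h' : b < j
      · exact ⟨X (l, ⟨b, h'⟩), fun ρ => by simp [ez, rr, h, h']⟩
      · exact ⟨0, fun ρ => by simp [ez, rr, h, h']⟩
    · exact ⟨0, fun ρ => by simp [ez, h]⟩
  choose P hP using this
  refine ⟨∑ i : Fin T, ∑ l, P (c + i) l * C (mxv l (fun q => η (q, i)) p), fun ρ => ?_⟩
  simp only [tri, map_sum, map_mul, aeval_C, ← hP]
  exact Finset.sum_congr rfl fun i _ => (sum_mxv_K _ (fun q => η (q, i)) p).symm

def epsA {o : ℕ} (h : o ≤ T) (x : I5 × Fin o) : N × Fin T := (Sum.inl x.1, x.2.castLE h)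

lemma epsA_inj {o : ℕ} (h : o ≤ T) : Function.Injective (epsA h) := by
  rintro ⟨p, i⟩ ⟨p', i'⟩ h
  simpa [epsA] using h

def epsB {j : ℕ} (h : j ≤ T) (κ : Fin 3) (x : (Fin 5 × {b // b ≠ κ}) × Fin j) : N × Fin T :=
  (Sum.inl (x.1.1, x.1.2), x.2.castLE h)

lemma epsB_inj {j : ℕ} (h : j ≤ T) (κ : Fin 3) : Function.Injective (epsB h κ) := by
  rintro ⟨⟨c, b⟩, i⟩ ⟨⟨c', b'⟩, i'⟩ h
  simpa [epsB, Subtype.ext_iff] using h

lemma card_B (κ : Fin 3) (j : ℕ) : Fintype.card ((Fin 5 × {b // b ≠ κ}) × Fin j) = 10 * j := by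
  simp

lemma tri_proj {r : Fin 3 → Fin J → K} {j : ℕ} (hj : j + 1 ≤ T) (hr : ∀ b, j < b → ez r b = 0)
    {κ : Fin 3} (hκ : ∀ w, phM (ez r j) *ᵥ w = 0 → w κ = 0 → w = 0) {η : N × Fin T → K}
    (h : triL r T (j + 1) η = 0) (h0 : ∀ i ∉ Set.range (epsB hj κ), η i = 0) : η = 0 := by
  ext ⟨q, i⟩
  by_contra h1
  obtain ⟨⟨⟨c, b⟩, i'⟩, h2⟩ := not_not.1 (mt (h0 _) h1)
  simp only [epsB, Prod.mk.injEq] at h2
  obtain ⟨rfl, rfl⟩ := h2
  refine h1 (tri_inj hr hκ (fun c hc p => congrFun h (⟨c, by omega⟩, p))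
    (fun c i _ => h0 _ ?_) _ (Nat.lt_succ_iff.1 i'.2) _)
  rintro ⟨⟨⟨c', b'⟩, i''⟩, h3⟩
  simp only [epsB, Prod.mk.injEq, Sum.inl.injEq] at h3
  exact b'.2 h3.1.2

variable {m : ℕ} {f : Fin m → R}

theorem dim_jets {a n : ℕ} (hn : 300 * a ≤ n) :
    DimLE (jet (k := K) f n '' ordSet II a) (30 * (n + 1) - a - 7 * (a / 105)) := by
  obtain ⟨Ψ, hΨ⟩ := exists_Psi (J := 7 * a) (T := n + 1 + 7 * a) f n
  choose Θ hΘ using exists_Theta (J := 7 * a) (T := n + 1 + 7 * a)
  have hc : Fintype.card (N × Fin (n + 1 + 7 * a)) = 30 * (n + 1 + 7 * a) := by simp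
  have ho : a / 105 ≤ n + 1 + 7 * a := by omega
  have hA := dep_section (σ := Fin 3 × Fin (a / 105)) (fun _ => LinearMap.funLeft K K (epsA ho)) (fun x i =>
    ⟨C (LinearMap.funLeft K K (epsA ho) (Pi.single i 1) x), fun _ => by rw [aeval_C]; rfl⟩) (fun x => aeval (Θ (a / 105)) (Ψ x)) (e := a + 30 * (7 * a))
    (D := 30 * (n + 1 + 7 * a) - 15 * (a / 105)) (D' := 30 * (n + 1) - a - 7 * (a / 105))
    (by simp; omega)
  have hB := fun j : {j : Fin (7 * a) // a / 105 ≤ j} => dep_section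
    (fun ρ => triL (rr (7 * a) ρ) (n + 1 + 7 * a) (j.1 + 1)) (fun x i => poly_tri _ _ _ _)
    (fun x => aeval (Θ (j.1 + 1)) (Ψ x)) (e := a + 30 * (7 * a))
    (D := 30 * (n + 1 + 7 * a) - 10 * (j.1 + 1)) (D' := 30 * (n + 1) - a - 7 * (a / 105))
    (by have := j.2; have := j.1.2; simp; omega)
  have hU := Dep.iUnion (α := Bool) (C := fun b => bif b then _ else _)
    (fun b => Bool.rec (Dep.iUnion hB) hA b)
  refine (hU.subset ?_).dimLE
  rw [jets_eq le_rfl le_rfl (by omega)]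
  rintro _ ⟨z, hz, rfl⟩
  have hn' : (300 * a : ℚ) ≤ n := by exact_mod_cast hn
  have ha : (0 : ℚ) ≤ a := Nat.cast_nonneg a
  obtain ⟨M, hM, hM'⟩ := exists_M (s := n + 1 - a) hz rfl (by omega) (by linarith) le_rfl
  have key : ∀ η', η' - z ∘ Sum.inr ∈ M → OrdV a (tw (rz z) (lf η')) ∧ ∀ j, (∀ b, j ≤ b →
      ez (rz z) b = 0) → pmap (fun x => aeval (Θ j) (Ψ x))
        (Sum.elim (fun p => ez (rz z) p.2 p.1) η') = jetV f n (par z) := fun η' h =>
    ⟨OrdV.congr hz (by linarith) ((hM' η').1 h).2, fun j hj => by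
      rw [← pmap_pmap, hΘ, rr_ez hj, hΨ, par_mkz]; exact jetV_eq ((hM' η').1 h).2⟩
  by_cases h : ∃ b, a / 105 ≤ b ∧ ez (rz z) b ≠ 0
  · obtain ⟨j, hj, h1, h2, h3⟩ := exists_level h
    obtain ⟨κ, hκ⟩ := exists_kappa h2
    refine Set.mem_iUnion.2 ⟨false, Set.mem_iUnion.2 ⟨⟨⟨j, hj⟩, h1⟩,
      fun p => ez (rz z) p.2 p.1, z ∘ Sum.inr, M, hM, ?_, fun η' h' => ?_⟩⟩
    · rw [rr_ez (j := j + 1) h3]
      have := finrank_add_le (LinearMap.ker (triL (rz z) (n + 1 + 7 * a) (j + 1)))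
        (epsB_inj (j := j + 1) (by omega) κ) fun w hw => tri_proj _ h3 hκ hw
      rw [card_B, hc] at this
      exact Nat.le_sub_of_add_le this
    · rw [rr_ez (j := j + 1) h3]
      exact ⟨funext fun x => tri_eq_zero (key η' h').1.1 _ _, (key η' h').2 _ h3⟩
  · push Not at h
    refine Set.mem_iUnion.2 ⟨true, fun p => ez (rz z) p.2 p.1, z ∘ Sum.inr, M, hM, ?_,
      fun η' h' => ⟨?_, (key η' h').2 _ h⟩⟩
    · have := finrank_add_le (LinearMap.ker (LinearMap.funLeft K K (epsA ho))) (epsA_inj ho)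
        fun w hw h0 => funext fun i => by
          by_cases hi : i ∈ Set.range (epsA ho)
          · obtain ⟨x, rfl⟩ := hi; exact congrFun hw x
          · exact h0 i hi
      rw [hc] at this
      simp only [Fintype.card_prod, Fintype.card_fin] at this
      omega
    · obtain ⟨o, -, h1, h2, -⟩ := (key η' h').1.exists_good fun p => lf_mem _ _
      ext ⟨p, i⟩
      have := h2 p (i : ℕ) (by exact_mod_cast (by omega : (i : ℕ) < o))
      rw [tw, act_inl, lf_coeff, dif_pos (by omega)] at this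
      exact this

lemma IsStable.mono {k R δ : Type} [Field k] [CommRing R] [Algebra k R] {f : Fin m → R}
    {A : Set (R →ₐ[k] PowerSeries k)} {n n' : ℕ} (h : IsStable δ f A n) (hn : n ≤ n') :
    IsStable δ f A n' := fun l hl => h l (hn.trans hl)

theorem exists_integral (hf : Algebra.adjoin K (Set.range f) = ⊤) (b : Bool) {ρ : ℕ}
    (hρ : 0 < ρ) : ∃ M : MotHat K b ρ, IsIntegralOrd N f II b ρ M := by
  choose n₀ _ hn₀ using exists_stable hf
  refine (summable_of_Fil (fun a => cl b ρ (jet f (n₀ a + 300 * a) '' ordSet II a)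
    (ρ * (a - (n₀ a + 300 * a : ℕ) * Nat.card N))) fun s => ?_).imp fun M hM =>
      ⟨fun a => n₀ a + 300 * a, fun a => (hn₀ a).mono (Nat.le_add_right _ _), hM⟩
  filter_upwards [eventually_ge_atTop (105 * (s.toNat + 30))] with a ha
  refine cl_mem_Fil (isCons_jets (by omega)) (dim_jets (by omega)) ?_
  have h1 : Nat.card N = 30 := by simp
  have h2 : ((30 * (n₀ a + 300 * a + 1) - a - 7 * (a / 105) : ℕ) : ℤ) +
      (a - (n₀ a + 300 * a : ℕ) * Nat.card N) ≤ -s.toNat := by rw [h1]; omega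
  have h3 : (1 : ℤ) ≤ ρ := by exact_mod_cast hρ
  nlinarith [Int.self_le_toNat s, Int.natCast_nonneg s.toNat]

end Pool.Agent.MP_536a45_ag_b

end
end

section

/-!
Points on the supersingular cubic over a finite field of characteristic two.
-/

noncomputable section

namespace Pool.Agent.MP_536a45_ag_b

open Finset

variable {F : Type} [Field F] [Fintype F] [DecidableEq F] [CharP F 2]

def wp (F : Type) [Field F] [CharP F 2] : F →+ F where
  toFun y := y ^ 2 + y
  map_zero' := by simp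
  map_add' x y := by rw [CharTwo.add_sq]; ring

def eps (c : F) : ℤ := if c ∈ (wp F).range then 1 else -1

omit [Fintype F] [DecidableEq F] in
lemma wp_eq_iff (x y : F) : y ^ 2 + y = x ^ 2 + x ↔ y = x ∨ y = x + 1 := by
  have h2 : (2 : F) = 0 := CharTwo.two_eq_zero
  constructor
  · intro h
    have : (y - x) * (y - (x + 1)) = 0 := by grind
    simpa [sub_eq_zero] using this
  · rintro (rfl | rfl) <;> grind

omit [DecidableEq F] in
lemma index_wp : (wp F).range.index = 2 := by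
  rw [AddSubgroup.index_range]
  have : ((wp F).ker : Set F) = {0, 1} := by
    ext y; simpa [wp] using wp_eq_iff 0 y
  rw [← SetLike.coe_sort_coe, this, Nat.card_coe_set_eq, Set.ncard_pair zero_ne_one]

lemma eps_add (c d : F) : eps (c + d) = eps c * eps d := by
  simp only [eps, AddSubgroup.add_mem_iff_of_index_two index_wp]
  by_cases hc : c ∈ (wp F).range <;> by_cases hd : d ∈ (wp F).range <;> simp only [hc, hd] <;> simp

lemma eps_wp (y : F) : eps (y ^ 2 + y) = 1 := if_pos ⟨y, rfl⟩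

lemma eps_sq (c : F) : eps (c ^ 2) = eps c := by
  have : c ^ 2 = c ^ 2 + c + c := by rw [add_assoc, CharTwo.add_self_eq_zero, add_zero]
  rw [this, eps_add, eps_wp, one_mul]

lemma sum_eps : ∑ c : F, eps c = 0 := by
  obtain ⟨d, hd⟩ : ∃ d, d ∉ (wp F).range := by
    by_contra! h
    have := index_wp (F := F)
    rw [(AddSubgroup.eq_top_iff' _).2 h, AddSubgroup.index_top] at this
    omega
  have h1 : eps d = -1 := if_neg hd
  have := Equiv.sum_comp (Equiv.addRight d) eps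
  simp only [Equiv.coe_addRight, eps_add, h1, ← sum_mul] at this
  omega

lemma card_fib (c : F) : ∑ y : F, (if y ^ 2 + y = c then 1 else 0 : ℤ) = 1 + eps c := by
  by_cases h : c ∈ (wp F).range
  · obtain ⟨x, rfl⟩ := h
    change ∑ y : F, (if y ^ 2 + y = x ^ 2 + x then 1 else 0 : ℤ) = 1 + eps (x ^ 2 + x)
    rw [eps_wp, sum_boole, show filter (fun y : F => y ^ 2 + y = x ^ 2 + x) univ = {x, x + 1} by
      ext y; simp [wp_eq_iff], card_pair (by simp)]
    rfl
  · rw [eps, if_neg h]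
    exact sum_eq_zero fun y _ => if_neg fun h' => h ⟨y, h'⟩

lemma sum_eps_sq (c : F) : ∑ x : F, eps (c * x ^ 2) = if c = 0 then (Fintype.card F : ℤ) else 0 := by
  split_ifs with h
  · have := eps_wp (0 : F)
    simp_all
  · rw [← sum_eps (F := F)]
    refine Fintype.sum_bijective _ (Finite.injective_iff_bijective.1 fun x y hxy => ?_) _ _
      fun _ => rfl
    exact frobenius_inj F 2 (mul_left_cancel₀ h hxy)

lemma sq_sum_eps {ω : F} (hω : ω ^ 2 + ω + 1 = 0) :
    (∑ x : F, eps (x ^ 3)) ^ 2 = 4 * Fintype.card F := by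
  have h2 : (2 : F) = 0 := CharTwo.two_eq_zero
  have h1 : ∀ x : F, eps (x ^ 3) * ∑ y : F, eps (y ^ 3) =
      ∑ h : F, eps (h ^ 3) * eps ((h + h ^ 4) * x ^ 2) := fun x => by
    rw [← Equiv.sum_comp (Equiv.addLeft x), mul_sum]
    refine sum_congr rfl fun h _ => ?_
    rw [add_mul, eps_add, show h ^ 4 * x ^ 2 = (h ^ 2 * x) ^ 2 by ring, eps_sq, ← eps_add,
      ← eps_add, ← eps_add]
    congr 1
    simp only [Equiv.coe_addLeft]
    grind
  rw [sq, sum_mul, sum_congr rfl fun x _ => h1 x, sum_comm]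
  simp only [← mul_sum, sum_eps_sq, mul_ite, mul_zero]
  have e0 : eps (0 : F) = 1 := by simpa using eps_wp (0 : F)
  have e1 : eps (1 : F) = 1 := by rw [← eps_wp ω]; congr 1; grind
  rw [← sum_filter, show filter (fun h : F => h + h ^ 4 = 0) univ = {0, 1, ω, ω + 1} by
    ext h
    have : h + h ^ 4 = h * (h - 1) * (h - ω) * (h - (ω + 1)) := by grind
    simp [this, sub_eq_zero, or_assoc]]
  rw [sum_insert (by simp; grind), sum_insert (by simp; grind), sum_pair (by simp),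
    show ω ^ 3 = 1 by grind, show (ω + 1) ^ 3 = 1 by grind]
  simp [e0, e1]
  ring

lemma card_cone (t : F) : (∑ u : Fin 3 → F, if (u 0 + t * u 1) ^ 3 +
      (u 1 + t * u 2) * u 2 * (u 1 + t * u 2 + u 2) = 0 then 1 else 0 : ℤ) =
    Fintype.card F + (Fintype.card F - 1) * (Fintype.card F + ∑ x : F, eps (x ^ 3)) := by
  have h2 : (2 : F) = 0 := CharTwo.two_eq_zero
  let e : (Fin 3 → F) ≃ F × F × F :=
    { toFun := fun u => (u 2, u 0 + t * u 1, u 1 + t * u 2)
      invFun := fun p => ![p.2.1 - t * (p.2.2 - t * p.1), p.2.2 - t * p.1, p.1]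
      left_inv := fun u => by ext i; fin_cases i <;> simp
      right_inv := fun p => by simp }
  refine (Fintype.sum_equiv e _ (fun p => if p.2.1 ^ 3 + p.2.2 * p.1 * (p.2.2 + p.1) = 0 then 1
    else 0) fun _ => rfl).trans ?_
  rw [Fintype.sum_prod_type, ← add_sum_erase _ _ (mem_univ 0)]
  congr 1
  · simp [Fintype.sum_prod_type_right, -sum_boole]
  rw [sum_congr rfl (g := fun _ => (Fintype.card F : ℤ) + ∑ x : F, eps (x ^ 3)) fun z hz => ?_]
  · simp [Fintype.card_pos]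
  have hz0 := ne_of_mem_erase hz
  rw [← Equiv.sum_comp ((Equiv.mulLeft₀ z hz0).prodCongr (Equiv.mulLeft₀ z hz0)),
    Fintype.sum_prod_type]
  have : ∀ x y : F, (z * x) ^ 3 + z * y * z * (z * y + z) = 0 ↔ y ^ 2 + y = x ^ 3 := fun x y => by
    rw [show (z * x) ^ 3 + z * y * z * (z * y + z) = z ^ 3 * (y ^ 2 + y - x ^ 3) by grind]
    simp [hz0, sub_eq_zero]
  simp [this, card_fib, sum_add_distrib, -sum_boole]

end Pool.Agent.MP_536a45_ag_b

end
end

section

/-!
General counting lemmas.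
-/

noncomputable section

namespace Pool.Agent.MP_536a45_ag_b

open Matrix Filter

variable {ι κ : Type} {j : ℕ}

lemma cnt_fiberwise [Finite ι] {β : Type} [DecidableEq β] (C : Set (ι → K)) (π : (ι → K) → β)
    (t : Finset β) (h : ∀ z ∈ C, fr j ∘ z = z → π z ∈ t) :
    cnt j C = ∑ x ∈ t, cnt j (C ∩ π ⁻¹' {x}) := by
  have hf : (C ∩ fixs j ι).Finite := (finite_fixs j).inter_of_right _
  rw [cnt, Set.ncard_eq_toFinset_card _ hf, Finset.card_eq_sum_card_fiberwise (f := π) (t := t)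
    fun z hz => by
      have := hf.mem_toFinset.1 hz
      exact h z this.1 this.2]
  refine Finset.sum_congr rfl fun x _ => ?_
  rw [cnt, ← Set.ncard_coe_finset]
  congr 1
  ext z
  simp [and_right_comm]

lemma cnt_biUnion [Finite ι] {α : Type} (t : Finset α) (C : α → Set (ι → K))
    (h : (t : Set α).PairwiseDisjoint C) : cnt j (⋃ a ∈ t, C a) = ∑ a ∈ t, cnt j (C a) := by
  classical
  induction t using Finset.induction_on with
  | empty => simp [cnt]
  | insert a t ha ih =>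
    rw [Finset.coe_insert, Set.pairwiseDisjoint_insert_of_notMem (by simpa using ha)] at h
    rw [Finset.set_biUnion_insert, cnt_union, ih h.1, Finset.sum_insert ha]
    simpa using h.2

lemma cnt_mono [Finite ι] {C D : Set (ι → K)} (h : C ⊆ D) : cnt j C ≤ cnt j D :=
  Set.ncard_le_ncard (Set.inter_subset_inter_left _ h) ((finite_fixs j).inter_of_right _)

lemma cnt_union_le (C D : Set (ι → K)) : cnt j (C ∪ D) ≤ cnt j C + cnt j D := by
  rw [cnt, Set.union_inter_distrib_right]; exact Set.ncard_union_le _ _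

lemma cnt_iUnion_le {α : Type} [Fintype α] (C : α → Set (ι → K)) :
    cnt j (⋃ a, C a) ≤ ∑ a, cnt j (C a) := by
  rw [cnt, Set.iUnion_inter]; exact Set.ncard_iUnion_le_of_fintype _

lemma cnt_le_of_proj [Finite κ] (π : κ → ι) {C : Set (ι → K)} {D : Set (κ → K)}
    (h1 : Set.MapsTo (· ∘ π) C D) (h2 : Set.InjOn (· ∘ π) C) : cnt j C ≤ cnt j D :=
  Set.ncard_le_ncard_of_injOn (· ∘ π) (fun _ hz => ⟨h1 hz.1, congrArg (· ∘ π) hz.2⟩)
    (h2.mono Set.inter_subset_left) ((finite_fixs j).inter_of_right _)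

lemma cnt_eq_of_proj (π : κ → ι) {C : Set (ι → K)} {D : Set (κ → K)}
    (h : Set.BijOn (· ∘ π) C D) (hs : ∀ z ∈ C, fr j ∘ (z ∘ π) = z ∘ π → fr j ∘ z ∈ C) :
    cnt j C = cnt j D := by
  refine Set.BijOn.ncard_eq (f := (· ∘ π)) ⟨fun z hz => ⟨h.1 hz.1, congrArg (· ∘ π) hz.2⟩,
    h.2.1.mono Set.inter_subset_left, fun y hy => ?_⟩
  obtain ⟨z, hz, rfl⟩ := h.2.2 hy.1
  exact ⟨z, ⟨hz, h.2.1 (hs z hz hy.2) hz hy.2⟩, rfl⟩

lemma card_compl_add [Fintype ι] {α : Type} [Fintype α] {ε : α → ι} (hε : Function.Injective ε) :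
    Nat.card ↥(Set.range ε)ᶜ = Fintype.card ι - Fintype.card α := by
  classical
  rw [Nat.card_eq_fintype_card, Fintype.card_compl_set, Set.card_range_of_injective hε]

lemma cnt_le_compl [Fintype ι] {α : Type} [Fintype α] {ε : α → ι} (hε : Function.Injective ε)
    {C : Set (ι → K)} (h : ∀ w ∈ C, ∀ w' ∈ C, (∀ i ∉ Set.range ε, w i = w' i) → w = w') :
    cnt j C ≤ qq j ^ (Fintype.card ι - Fintype.card α) := by
  rw [← card_compl_add hε, ← cnt_univ]
  exact cnt_le_of_proj Subtype.val (Set.mapsTo_univ _ _) fun w hw w' hw' e =>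
    h w hw w' hw' fun i hi => congrFun e ⟨i, hi⟩

lemma cnt_eq_compl [Fintype ι] {α : Type} [Fintype α] {ε : α → ι} (hε : Function.Injective ε)
    {C : Set (ι → K)} (h : ∀ w ∈ C, ∀ w' ∈ C, (∀ i ∉ Set.range ε, w i = w' i) → w = w')
    (h' : ∀ c : ι → K, ∃ w ∈ C, ∀ i ∉ Set.range ε, w i = c i) (hs : ∀ z ∈ C, fr j ∘ z ∈ C) :
    cnt j C = qq j ^ (Fintype.card ι - Fintype.card α) := by
  classical
  rw [← card_compl_add hε, ← cnt_univ]
  refine cnt_eq_of_proj Subtype.val ⟨Set.mapsTo_univ _ _, fun w hw w' hw' e =>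
    h w hw w' hw' fun i hi => congrFun e ⟨i, hi⟩, fun c _ => ?_⟩ fun z hz _ => hs z hz
  obtain ⟨w, hw, e⟩ := h' fun i => if h : i ∈ (Set.range ε)ᶜ then c ⟨i, h⟩ else 0
  exact ⟨w, hw, funext fun i => (e i i.2).trans (dif_pos i.2)⟩

lemma cnt_zero [Fintype ι] {α : Type} [Fintype α] {ε : α → ι} (hε : Function.Injective ε) :
    cnt j {w : ι → K | w ∘ ε = 0} = qq j ^ (Fintype.card ι - Fintype.card α) := by
  classical
  refine cnt_eq_compl hε (fun w hw w' hw' h => funext fun i => ?_) (fun c => ?_) fun z hz => ?_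
  · by_cases hi : i ∈ Set.range ε
    · obtain ⟨a, rfl⟩ := hi
      exact (congrFun hw a).trans (congrFun hw' a).symm
    · exact h i hi
  · exact ⟨fun i => if i ∈ Set.range ε then 0 else c i, funext fun a => if_pos ⟨a, rfl⟩,
      fun i hi => if_neg hi⟩
  · ext a
    have := congrFun hz a
    simp_all

lemma cnt_sigma [Finite ι] [Finite κ] (C : Set (ι → K)) (W : (ι → K) → Set (κ → K)) :
    cnt j {z : ι ⊕ κ → K | z ∘ Sum.inl ∈ C ∧ z ∘ Sum.inr ∈ W (z ∘ Sum.inl)} =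
      ∑ r ∈ ((finite_fixs j).inter_of_right C).toFinset, cnt j (W r) := by
  classical
  rw [cnt_fiberwise _ (· ∘ Sum.inl) ((finite_fixs j).inter_of_right C).toFinset fun z hz hz' => by
    simpa using ⟨hz.1, congrArg (· ∘ Sum.inl) hz'⟩]
  refine Finset.sum_congr rfl fun r hr => ?_
  have hr' := (Set.Finite.mem_toFinset _).1 hr
  refine cnt_eq_of_proj Sum.inr ⟨?_, ?_, fun y hy => ⟨Sum.elim r y, ⟨⟨hr'.1, hy⟩, rfl⟩, rfl⟩⟩ ?_
  · rintro z ⟨h1, rfl⟩; exact h1.2
  · intro z hz z' hz' e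
    ext (i | i)
    · exact congrFun (hz.2.trans hz'.2.symm) i
    · exact congrFun e i
  · rintro z ⟨h1, rfl⟩ h2
    have : fr j ∘ z = z := by
      ext (i | i)
      · exact congrFun hr'.2 i
      · exact congrFun h2 i
    rw [this]
    exact ⟨h1, rfl⟩

lemma cnt_sigma_eq [Finite ι] [Finite κ] {C : Set (ι → K)} {W : (ι → K) → Set (κ → K)} {c : ℕ}
    (h : ∀ r ∈ C, fr j ∘ r = r → cnt j (W r) = c) :
    cnt j {z : ι ⊕ κ → K | z ∘ Sum.inl ∈ C ∧ z ∘ Sum.inr ∈ W (z ∘ Sum.inl)} = cnt j C * c := by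
  rw [cnt_sigma, Finset.sum_const_nat (m := c) fun r hr =>
    h r ((Set.Finite.mem_toFinset _).1 hr).1 ((Set.Finite.mem_toFinset _).1 hr).2,
    cnt, Set.ncard_eq_toFinset_card _ ((finite_fixs j).inter_of_right C)]

lemma cnt_sigma_le [Finite ι] [Finite κ] {C : Set (ι → K)} {W : (ι → K) → Set (κ → K)} {c : ℕ}
    (h : ∀ r ∈ C, cnt j (W r) ≤ c) :
    cnt j {z : ι ⊕ κ → K | z ∘ Sum.inl ∈ C ∧ z ∘ Sum.inr ∈ W (z ∘ Sum.inl)} ≤ cnt j C * c := by
  rw [cnt_sigma, cnt, Set.ncard_eq_toFinset_card _ ((finite_fixs j).inter_of_right C)]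
  exact Finset.sum_le_card_nsmul _ _ _ fun r hr => h r ((Set.Finite.mem_toFinset _).1 hr).1

lemma cnt_single {z : ι → K} (h : fr j ∘ z = z) : cnt j {z} = 1 := by
  rw [cnt, Set.inter_eq_left.2 (Set.singleton_subset_iff.2 (show z ∈ fixs j ι from h)),
    Set.ncard_singleton]

lemma cnt_diff_zero [Finite ι] {C : Set (ι → K)} (h : 0 ∈ C) : cnt j (C \ {0}) + 1 = cnt j C := by
  rw [← cnt_single (j := j) (z := (0 : ι → K)) (by ext; simp), ← cnt_union j Set.disjoint_sdiff_left,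
    Set.sdiff_union_of_subset (Set.singleton_subset_iff.2 h)]

/-- The cone over the cubic. -/
def Cone : Set (Fin 3 → K) := {u | (phM u).det = 0}

lemma cnt_cone : ∀ᶠ j in atTop, ∃ a : ℤ, a ^ 2 = 4 * qq j ∧
    (cnt j Cone : ℤ) = qq j + (qq j - 1) * (qq j + a) := by
  classical
  obtain ⟨ω, hω⟩ := exists_as_K 1
  filter_upwards [ev_fix tt, ev_fix ω] with j ht hw
  let F := (fr j).eqLocusField (RingHom.id K)
  have : Finite F := (finite_Fq j).to_subtype
  have := Fintype.ofFinite F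
  have hc : Fintype.card F = qq j := by
    rw [← ncard_Fq, ← Nat.card_eq_fintype_card]; rfl
  have h1 := sq_sum_eps (F := F) (ω := ⟨ω, hw⟩) (Subtype.ext (by
    change ω ^ 2 + ω + 1 = 0
    rw [hω, CharTwo.add_self_eq_zero]))
  have h2 := card_cone (F := F) ⟨tt, ht⟩
  rw [hc] at h1 h2
  refine ⟨_, h1, Eq.trans ?_ h2⟩
  rw [Finset.sum_boole, ← Set.ncard_coe_finset, cnt, Nat.cast_inj]
  symm
  refine Set.BijOn.ncard_eq (f := fun u : Fin 3 → F => fun i => (u i : K))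
    ⟨fun u hu => ⟨?_, funext fun i => (u i).2⟩, fun u _ u' _ h => funext fun i =>
      Subtype.ext (congrFun h i), fun u hu => ⟨fun i => ⟨u i, congrFun hu.2 i⟩, ?_, rfl⟩⟩
  · simp only [Finset.coe_filter, Finset.mem_univ, true_and, Set.mem_ofPred_eq] at hu
    rw [Cone, Set.mem_ofPred_eq, det_phM]
    exact congrArg Subtype.val hu
  · simp only [Finset.coe_filter, Finset.mem_univ, true_and, Set.mem_ofPred_eq]
    exact Subtype.ext ((det_phM u).symm.trans hu.1)

end Pool.Agent.MP_536a45_ag_b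

end
end

section

/-!
Counting jets through twisted parameters.
-/

noncomputable section

namespace Pool.Agent.MP_536a45_ag_b

open MvPolynomial Matrix Module Filter

attribute [-simp] MvPolynomial.aeval_eq_bind₁

variable {J T j : ℕ}

def actT (u : Fin 3 → K) (η : N × Fin T → K) : N × Fin T → K :=
  fun p => act u (fun q => η (q, p.2)) p.1

lemma actT_actT (u u' : Fin 3 → K) (η : N × Fin T → K) : actT u (actT u' η) = actT (u + u') η := by
  ext p; exact congrFun (act_act u u' fun q => η (q, p.2)) p.1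

lemma actT_self (u : Fin 3 → K) (η : N × Fin T → K) : actT u (actT u η) = η := by
  ext p; exact congrFun (act_self u fun q => η (q, p.2)) p.1

def actL (T : ℕ) (u : Fin 3 → K) : (N × Fin T → K) ≃ₗ[K] (N × Fin T → K) where
  toFun := actT u
  invFun := actT u
  left_inv := actT_self u
  right_inv := actT_self u
  map_add' η η' := by
    ext ⟨p | p, i⟩
    · rfl
    · simp [actT, mxv, mul_add, Finset.sum_add_distrib]; ring
  map_smul' c η := by
    ext ⟨p | p, i⟩
    · rfl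
    · simp [actT, mxv, mul_add, Finset.mul_sum, mul_left_comm]

lemma lf_actT (u : Fin 3 → K) (η : N × Fin T → K) :
    lf (actT u η) = act (fun i => algebraMap K H (u i)) (lf η) := by
  ext1 (p | p)
  · simp [lf_eq, actT]
  · simp only [act_inr, mxv, lf, ← toH.commutes, ← map_mul, ← map_sum, ← map_add]
    congr 1
    ext i
    simp only [coeff_liftP, map_add, map_sum, ← Algebra.smul_def, map_smul]
    split_ifs <;> simp [actT, mxv]

/-- Twisting the parameters. -/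
def tu (u : Fin 3 → K) (z : Pm J T → K) : Pm J T → K := mkz (rz z) (actT u (z ∘ Sum.inr))

lemma tu_tu (u u' : Fin 3 → K) (z : Pm J T → K) : tu u (tu u' z) = tu (u + u') z :=
  congrArg (mkz (rz z)) (actT_actT u u' _)

lemma par_tu (g : G0) (z : Pm J T → K) : par (tu (emb K g) z) = act (emb H g) (par z) := by
  rw [tu, par_mkz, lf_actT, par, tw, tw, act_act, act_act, add_comm]
  rfl

lemma fr_Mx (ht : fr j tt = tt) (i a b : Fin 3) : fr j (Mx i a b) = Mx i a b := by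
  fin_cases i <;> fin_cases a <;> fin_cases b <;> simp [Mx, ht]

lemma fr_tu (ht : fr j tt = tt) (u : Fin 3 → K) (z : Pm J T → K) :
    fr j ∘ tu u z = tu (fr j ∘ u) (fr j ∘ z) := by
  ext (p | p)
  · rfl
  · exact congrFun (map_act' (fr j) (fr_Mx ht) u fun q => z (Sum.inr (q, p.2))) p.1

lemma mapH_alg (c : K) : mapH (fr j) (algebraMap K H c) = algebraMap K H (fr j c) :=
  mapH_single _ _ _

lemma map_actH (ht : fr j tt = tt) (u : Fin 3 → H) (w : N → H) :
    mapH (fr j) ∘ act u w = act (mapH (fr j) ∘ u) (mapH (fr j) ∘ w) :=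
  map_act' _ (fun i a b => by rw [mapH_alg, fr_Mx ht]) u w

lemma par_fr (ht : fr j tt = tt) (z : Pm J T → K) : par (fr j ∘ z) = mapH (fr j) ∘ par z := by
  rw [par, par, tw, tw, map_actH ht]
  congr 1
  · ext1 i; exact (map_al j _).symm
  · ext1 q; simp [lf_eq, mapH_single]

lemma fr_emb (g : G0) (i : Fin 3) : fr j (emb K g i) = emb K g i :=
  RingHom.congr_fun (Subsingleton.elim ((fr j).comp (algebraMap (ZMod 2) K))
    (algebraMap (ZMod 2) K)) (g i)

lemma exists_lang (j : ℕ) (c : K) : ∃ u, fr j u = u + c := by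
  have h1 : (Polynomial.X + Polynomial.C c : Polynomial K).degree <
      (Polynomial.X ^ qq j : Polynomial K).degree := by
    rw [Polynomial.degree_X_add_C, Polynomial.degree_X_pow]
    exact_mod_cast two_le_qq j
  obtain ⟨u, hu⟩ := IsAlgClosed.exists_root (Polynomial.X ^ qq j -
    (Polynomial.X + Polynomial.C c) : Polynomial K) (by
      rw [Polynomial.degree_sub_eq_left_of_degree_lt h1, Polynomial.degree_X_pow]
      have := two_le_qq j
      exact_mod_cast (by omega : qq j ≠ 0))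
  exact ⟨u, by simpa [sub_eq_zero, fr_apply] using hu⟩

def ug (j : ℕ) (g : G0) (i : Fin 3) : K := (exists_lang j (emb K g i)).choose

lemma fr_ug (j : ℕ) (g : G0) : fr j ∘ ug j g = emb K g + ug j g :=
  funext fun i => (exists_lang j (emb K g i)).choose_spec.trans (add_comm _ _)

/-- Nearby points. -/
def Nr (s : ℚ) (v w : N → H) : Prop := ∀ q, Ge s (w q - v q)

lemma Nr.symm {s : ℚ} {v w : N → H} (h : Nr s v w) : Nr s w v := fun q => by
  simpa using (h q).neg

lemma Nr.trans {s : ℚ} {u v w : N → H} (h : Nr s u v) (h' : Nr s v w) : Nr s u w := fun q => by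
  simpa using (h' q).add (h q)

lemma Nr.act {s : ℚ} {v w : N → H} (h : Nr s v w) (g : G0) :
    Nr s (act (emb H g) v) (act (emb H g) w) := fun q => by
  have := ge_act (w := w - v) le_rfl h (ge_emb g) q
  rwa [act_sub, zero_add] at this

lemma Nr.fr (ht : fr j tt = tt) {s : ℚ} {v w : N → H} {g : G0}
    (h : Nr s (Pool.Agent.MP_536a45_ag_b.act (emb H g) v) w) :
    Nr s (Pool.Agent.MP_536a45_ag_b.act (emb H g) (mapH (fr j) ∘ v)) (mapH (fr j) ∘ w) := by
  have e : mapH (Pool.Agent.MP_536a45_ag_b.fr j) ∘ emb H g = emb H g :=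
    funext fun i => (mapH_alg _).trans (congrArg _ (fr_emb g i))
  rw [← e, ← map_actH ht]
  intro q γ hγ
  rw [Function.comp_apply, Function.comp_apply, ← map_sub, mapH_coeff, h q γ hγ, map_zero]

variable {m : ℕ} {f : Fin m → R}

lemma near_of_jet (hf : Algebra.adjoin K (Set.range f) = ⊤) {a n : ℕ} (hn : 21 * a + J ≤ n)
    {z z' : Pm J T → K} (hz : z ∈ Zs J T a) (hz' : z' ∈ Zs J T a)
    (h : jetV f n (par z) = jetV f n (par z')) :
    rz z = rz z' ∧ ∃ g, Nr (n + 1 - 14 * a) (act (emb H g) (par z)) (par z') := by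
  obtain ⟨o, ho, -, -, c, s, -, hg⟩ := hz.exists_good fun _ => lf_mem _ _
  have hg' := hg.mono (o' := a) (by exact_mod_cast ho)
  obtain ⟨g, h1⟩ := exists_near hz.1 hz'.1 (Nat.cast_nonneg a) hg'
    (ge_of_jetV hf (lf_mem _) (lf_mem _) hz.1 hz'.1 h)
  have hn' : (21 * a + J : ℚ) ≤ n := by exact_mod_cast hn
  exact ⟨eq_of_near (lf_mem _) (lf_mem _) (fun _ => lf_ge _ _) (Nat.cast_nonneg a) hg'
    (by linarith) h1, g, h1⟩

lemma sep_of_near {a : ℕ} {z : Pm J T → K} (hz : z ∈ Zs J T a) {s : ℚ} (hs : a < s) {g g' : G0}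
    {w : N → H} (h : Nr s (act (emb H g) (par z)) w) (h' : Nr s (act (emb H g') (par z)) w) :
    g = g' := by
  obtain ⟨o, ho, -, -, c, s, -, hg⟩ := hz.exists_good fun _ => lf_mem _ _
  exact (hg.mono (o' := a) (by exact_mod_cast ho)).sep hs (h'.trans h.symm)

lemma cnt_fibre (hf : Algebra.adjoin K (Set.range f) = ⊤) {a n : ℕ} (hT : T = n + 1 + J)
    (hn : 28 * a + 30 * J ≤ n) (ht : fr j tt = tt)
    (h2 : ∀ z : Pm J T → K, jetV f n (par (fr j ∘ z)) = fr j ∘ jetV f n (par z))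
    (h3 : ∀ z ∈ Zs J T a, fr j ∘ z ∈ Zs J T a) {z0 : Pm J T → K} (hz0 : z0 ∈ Zs J T a)
    (hx : fr j ∘ jetV f n (par z0) = jetV f n (par z0)) :
    ∑ g, cnt j (tu (ug j g) ⁻¹' Zs J T a ∩
      (fun z => jetV f n (par (tu (ug j g) z))) ⁻¹' {jetV f n (par z0)}) =
      8 * qq j ^ (a + 30 * J) := by
  have hn' : (28 * a + 30 * J : ℚ) ≤ n := by exact_mod_cast hn
  have ha : (0 : ℚ) ≤ a := Nat.cast_nonneg a
  have hJ : (0 : ℚ) ≤ J := Nat.cast_nonneg J
  have hs : (a : ℚ) < n + 1 - 14 * a := by linarith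
  obtain ⟨hr, g0, hg0⟩ := near_of_jet hf (n := n) (by omega) hz0 (h3 _ hz0) ((h2 _).trans hx).symm
  have key : ∀ {g} {y : Pm J T → K}, Nr (n + 1 - 14 * a) (act (emb H g) (par z0)) (par y) →
      Nr (n + 1 - 14 * a) (act (emb H (g + g0)) (par z0)) (par (fr j ∘ y)) := fun {g y} h => by
    have := hg0.act g
    rw [act_act, ← emb_add, par_fr ht] at this
    rw [par_fr ht]
    exact this.trans (h.fr ht)
  have hinv : ∀ g (z : Pm J T → K), jetV f n (act (emb H g) (par z)) = jetV f n (par z) :=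
    fun g z => jetV_eq fun h => by rw [inv_eval, sub_self]; exact ge_zero _
  rw [Finset.sum_eq_single g0 (fun g _ hg => ?_) (by simp)]
  swap
  · rw [cnt, Set.ncard_eq_zero ((finite_fixs j).inter_of_right _), Set.eq_empty_iff_forall_notMem]
    rintro z ⟨⟨hz, hz'⟩, hz''⟩
    obtain ⟨-, g', h⟩ := near_of_jet hf (n := n) (by omega) hz0 hz hz'.symm
    have h4 := key h
    have h5 := h.act g
    rw [fr_tu ht, hz'', fr_ug, ← tu_tu, par_tu] at h4
    rw [act_act, ← emb_add] at h5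
    exact hg (by simpa [add_comm g'] using sep_of_near hz0 hs h5 h4)
  set u := ug j g0
  choose M hM hM' using fun g : G0 => exists_M (r := rz z0) (η := actT (emb K g) (z0 ∘ Sum.inr))
    (a := a) (n := n) (s := n + 1 - 14 * a) (by
      have := hz0.act g
      rwa [← par_tu] at this) hT (by omega) (by linarith) (by linarith)
  simp only [← par_mkz] at hM'
  have hM'' : ∀ g η, η - actT (emb K g) (z0 ∘ Sum.inr) ∈ M g ↔ mkz (rz z0) η ∈ Zs J T a ∧
      jetV f n (par (mkz (rz z0) η)) = jetV f n (par z0) ∧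
      Nr (n + 1 - 14 * a) (act (emb H g) (par z0)) (par (mkz (rz z0) η)) := fun g η => by
    rw [hM', ← tu, par_tu]
    refine ⟨fun h => ⟨(hz0.act g).congr (by linarith) h.2, (jetV_eq h.2).trans (hinv _ _), h.1⟩,
      fun h => ⟨h.2.2, fun p => ?_⟩⟩
    rw [inv_eval]
    exact ge_of_jetV hf (lf_mem _) (lf_mem _) hz0.1 h.1.1 h.2.1.symm p
  let A : G0 → Set (N × Fin T → K) := fun g =>
    {η | η - actT u (actT (emb K g) (z0 ∘ Sum.inr)) ∈ (M g).map (actL T u).toLinearMap}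
  have hA : ∀ g η, η ∈ A g ↔ actT u η - actT (emb K g) (z0 ∘ Sum.inr) ∈ M g := fun g η => by
    simp only [A, Set.mem_ofPred_eq, Submodule.mem_map_equiv, map_sub]
    change actT u η - actT u (actT u _) ∈ _ ↔ _
    rw [actT_self]
  have e : tu u ⁻¹' Zs J T a ∩ (fun z => jetV f n (par (tu u z))) ⁻¹' {jetV f n (par z0)} =
      prodSet {z0 ∘ Sum.inl} (⋃ g ∈ Finset.univ, A g) := by
    ext z
    simp only [prodSet, Set.mem_inter_iff, Set.mem_preimage, Set.mem_singleton_iff,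
      Set.mem_ofPred_eq, Set.mem_iUnion, hA, hM'', Finset.mem_univ, exists_const]
    constructor
    · rintro ⟨h4, h5⟩
      obtain ⟨h6, g, h7⟩ := near_of_jet hf (n := n) (by omega) hz0 h4 h5.symm
      refine ⟨funext fun p => (congrFun (congrFun h6 p.1) p.2).symm, g, ?_⟩
      rw [h6]
      exact ⟨h4, h5, h7⟩
    · rintro ⟨h4, g, h5, h6, -⟩
      have : rz z0 = rz z := funext fun l => funext fun b => (congrFun h4 (l, b)).symm
      rw [this] at h5 h6
      exact ⟨h5, h6⟩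
  have hr' : fr j ∘ (z0 ∘ Sum.inl) = z0 ∘ Sum.inl :=
    _root_.funext fun p => (congrFun (congrFun hr p.1) p.2).symm
  rw [e, cnt_prod, cnt_single hr', one_mul,
    cnt_biUnion, Finset.sum_congr rfl (g := fun _ => qq j ^ (a + 30 * J)) fun g _ => ?_]
  · simp
  · rw [← hM g, ← LinearEquiv.finrank_map_eq (actL T u)]
    refine cnt_affine j _ _ fun y hy => (hA _ _).2 ((hM'' _ _).2 ?_)
    obtain ⟨h4, h5, h6⟩ := (hM'' _ _).1 ((hA _ _).1 hy)
    have e1 : mkz (rz z0) (actT u (fr j ∘ y)) =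
        tu (emb K g0) (fr j ∘ mkz (rz z0) (actT u y)) := by
      have := fr_tu ht u (mkz (rz z0) y)
      rw [fr_ug] at this
      change _ = tu _ (fr j ∘ tu u (mkz (rz z0) y))
      rw [this, tu_tu, ← add_assoc, ← emb_add, show g0 + g0 = 0 from funext fun i =>
        CharTwo.add_self_eq_zero _, emb_zero, zero_add]
      exact congrArg (mkz · _) hr
    rw [e1]
    refine ⟨?_, ?_, ?_⟩
    · have := (h3 _ h4).act g0
      rwa [← par_tu] at this
    · rw [par_tu, hinv, h2, h5, hx]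
    · have := (key h6).act g0
      rw [par_tu]
      rwa [act_act, ← emb_add, add_comm g, ← add_assoc, show g0 + g0 = 0 from
        funext fun i => CharTwo.add_self_eq_zero _, zero_add] at this
  · intro g _ g' _ hne
    refine Set.disjoint_left.2 fun y hy hy' => hne ?_
    exact sep_of_near hz0 hs ((hM'' _ _).1 ((hA _ _).1 hy)).2.2 ((hM'' _ _).1 ((hA _ _).1 hy')).2.2

theorem cnt_jets (hf : Algebra.adjoin K (Set.range f) = ⊤) {a n : ℕ} (hT : T = n + 1 + J)
    (hn : 28 * a + 30 * J ≤ n) (hJ : 7 * a ≤ J) : ∀ᶠ j in atTop,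
    ∑ g, cnt j (tu (ug j g) ⁻¹' Zs J T a) =
      cnt j (jet f n '' ordSet II a) * (8 * qq j ^ (a + 30 * J)) := by
  classical
  obtain ⟨Ψ, hΨ⟩ := exists_Psi (J := J) (T := T) f n
  filter_upwards [ev_fix tt, (isCons_Zs (J := J) (T := T) a).ev_stable,
    eventually_all.2 fun i => ev_fix_poly (Ψ i)] with j ht h3 h4
  have h2 : ∀ z : Pm J T → K, jetV f n (par (fr j ∘ z)) = fr j ∘ jetV f n (par z) := fun z => by
    rw [← hΨ, ← hΨ]; exact funext fun i => fr_aeval (h4 i) z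
  have hfin : (jet f n '' ordSet II a ∩ fixs j _).Finite := (finite_fixs j).inter_of_right _
  have hj := jets_eq (f := f) hJ hT.ge (show a ≤ n by omega)
  rw [Finset.sum_congr rfl fun g _ => cnt_fiberwise _ (fun z => jetV f n (par (tu (ug j g) z)))
    hfin.toFinset fun z hz hz' => hfin.mem_toFinset.2 ⟨hj ▸ ⟨_, hz, rfl⟩, ?_⟩, Finset.sum_comm,
    cnt, Set.ncard_eq_toFinset_card _ hfin]
  · refine Finset.sum_const_nat fun x hx => ?_
    obtain ⟨h5, h6⟩ := hfin.mem_toFinset.1 hx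
    rw [hj] at h5
    obtain ⟨z0, hz0, rfl⟩ := h5
    exact cnt_fibre hf hT hn ht h2 h3 hz0 h6
  · change fr j ∘ _ = _
    rw [← h2, fr_tu ht, hz', fr_ug, ← tu_tu, par_tu]
    exact jetV_eq fun h => by rw [inv_eval, sub_self]; exact ge_zero _

end Pool.Agent.MP_536a45_ag_b

end
end

section

/-!
Counting the parameters.
-/

noncomputable section

namespace Pool.Agent.MP_536a45_ag_b

open MvPolynomial Matrix Module Filter

attribute [-simp] MvPolynomial.aeval_eq_bind₁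

variable {J T j : ℕ}

def rc (r : Fin 3 × Fin J → K) (l : Fin 3) (b : Fin J) : K := r (l, b)

def Lv (J i : ℕ) (D : Set (Fin 3 × Fin i → K)) : Set (Fin 3 × Fin J → K) :=
  {r | (∀ b, i ≤ b → ez (rc r) b = 0) ∧ (fun p : Fin 3 × Fin i => ez (rc r) p.2 p.1) ∈ D}

lemma ez_fr (r : Fin 3 × Fin J → K) (b : ℕ) : ez (rc (fr j ∘ r)) b = fr j ∘ ez (rc r) b := by
  ext l; simp only [ez, rc, Function.comp_apply]; split_ifs <;> simp

lemma cnt_Lv {i : ℕ} (hi : i ≤ J) (D : Set (Fin 3 × Fin i → K)) : cnt j (Lv J i D) = cnt j D := by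
  have e : ∀ r : Fin 3 × Fin J → K, (fun p : Fin 3 × Fin i => ez (rc r) p.2 p.1) =
      r ∘ fun p => (p.1, p.2.castLE hi) := fun r => funext fun p => dif_pos (p.2.2.trans_le hi)
  refine cnt_eq_of_proj (fun p => (p.1, p.2.castLE hi)) ⟨fun r hr => by simpa only [e] using hr.2,
    fun r hr r' hr' h => ?_, fun ρ hρ => ?_⟩ fun r hr h => ⟨fun b hb => ?_, ?_⟩
  · have : rc r = rc r' := by rw [← rr_ez hr.1, ← rr_ez hr'.1, e, e]; exact congrArg _ h
    exact funext fun p => congrFun (congrFun this p.1) p.2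
  · have : (fun p : Fin 3 × Fin J => rr J ρ p.1 p.2) ∘ (fun p : Fin 3 × Fin i =>
        (p.1, p.2.castLE hi)) = ρ := funext fun p => dif_pos p.2.2
    refine ⟨fun p => rr J ρ p.1 p.2, ⟨fun b hb => funext fun l => ?_, by rwa [e, this]⟩, this⟩
    simp only [ez, rc, rr, Pi.zero_apply]
    split_ifs <;> first | rfl | omega
  · rw [ez_fr, hr.1 b hb]; ext; simp
  · rw [e]; exact h.symm ▸ e r ▸ hr.2

def Sg {ι κ : Type} (C : Set (ι → K)) (W : (ι → K) → Set (κ → K)) : Set (ι ⊕ κ → K) :=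
  {z | z ∘ Sum.inl ∈ C ∧ z ∘ Sum.inr ∈ W (z ∘ Sum.inl)}

/-- Vanishing of the first coefficients of `x`. -/
def Xz (T o : ℕ) : Set (N × Fin T → K) := {η | ∀ p, ∀ i : Fin T, (i : ℕ) < o → η (Sum.inl p, i) = 0}

lemma cnt_Xz {o : ℕ} (h : o ≤ T) : cnt j (Xz T o) = qq j ^ (30 * T - 15 * o) := by
  have := cnt_zero (j := j) (epsA_inj h)
  simp only [Fintype.card_prod, Fintype.card_sum, Fintype.card_fin] at this
  convert this using 2
  ext η
  exact ⟨fun h => funext fun x => h _ _ x.2.2, fun h p i hi => congrFun h (p, ⟨i, hi⟩)⟩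

def W2 (T : ℕ) (u : Fin 3 → K) : Set (N × Fin T → K) :=
  Xz T 1 ∩ {η | ∀ c, ∀ i : Fin T, (i : ℕ) = 1 → (phM u *ᵥ fun b => η (Sum.inl (c, b), i)) = 0}

lemma fr_phM (ht : fr j tt = tt) {u : Fin 3 → K} (hu : fr j ∘ u = u) (w : Fin 3 → K) :
    phM u *ᵥ (fr j ∘ w) = fr j ∘ (phM u *ᵥ w) := by
  ext a
  have : ∀ i, fr j (u i) = u i := congrFun hu
  simp [phM, mulVec, dotProduct, Matrix.sum_apply, fr_Mx ht, this]

lemma cnt_W2 (hT : 2 ≤ T) (ht : fr j tt = tt) {u : Fin 3 → K} (hu : u ∈ Cone \ {0})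
    (hu' : fr j ∘ u = u) : cnt j (W2 T u) = qq j ^ (30 * T - 25) := by
  obtain ⟨κ, hκ⟩ := exists_kappa hu.2
  obtain ⟨w, hw, hw'⟩ := exists_mulVec_eq_zero_iff.2 hu.1
  have hw0 : w κ ≠ 0 := fun h => hw (hκ w hw' h)
  let ε : I5 ⊕ (Fin 5 × {b // b ≠ κ}) → N × Fin T := Sum.elim (fun p => (Sum.inl p, ⟨0, by omega⟩))
    fun p => (Sum.inl (p.1, p.2), ⟨1, hT⟩)
  have hε : ∀ q i, (q, i) ∈ Set.range ε ↔
      ∃ p, q = Sum.inl p ∧ ((i : ℕ) = 0 ∨ (i : ℕ) = 1 ∧ p.2 ≠ κ) := by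
    intro q i
    constructor
    · rintro ⟨p | p, h⟩ <;> obtain ⟨rfl, rfl⟩ := Prod.ext_iff.1 h
      · exact ⟨p, rfl, Or.inl rfl⟩
      · exact ⟨_, rfl, Or.inr ⟨rfl, p.2.2⟩⟩
    · rintro ⟨p, rfl, h | h⟩
      · exact ⟨Sum.inl p, Prod.ext rfl (Fin.ext h.symm)⟩
      · exact ⟨Sum.inr (p.1, ⟨p.2, h.2⟩), Prod.ext rfl (Fin.ext h.1.symm)⟩
  have := cnt_eq_compl (j := j) (ε := ε) (C := W2 T u) (by
      rintro (p | p) (p' | p') h <;> simp_all [ε, Prod.ext_iff, Subtype.ext_iff])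
    (fun η hη η' hη' h => funext fun ⟨q, i⟩ => by
      by_contra hne
      obtain ⟨p, rfl, h1 | h1⟩ := (hε _ _).1 (not_not.1 (mt (h _) hne))
      · exact hne ((hη.1 p i (by omega)).trans (hη'.1 p i (by omega)).symm)
      · refine hne (sub_eq_zero.1 (congrFun (hκ ((fun b => η (Sum.inl (p.1, b), i)) -
          fun b => η' (Sum.inl (p.1, b), i)) ?_ (sub_eq_zero.2 (h _ ?_))) p.2))
        · rw [mulVec_sub, hη.2 _ _ h1.1, hη'.2 _ _ h1.1, sub_self]
        · simp [hε, h1.1])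
    (fun c => ⟨fun x => Sum.elim (fun p => if (x.2 : ℕ) = 0 then 0 else if (x.2 : ℕ) = 1 then
        c (Sum.inl (p.1, κ), x.2) / w κ * w p.2 else c x) (fun _ => c x) x.1,
      ⟨fun p i hi => if_pos (Nat.lt_one_iff.1 hi), fun d i hi => by
        have : (fun b => c (Sum.inl (d, κ), i) / w κ * w b) = (c (Sum.inl (d, κ), i) / w κ) • w :=
          rfl
        simp [hi, this, mulVec_smul, hw']⟩, by
      rintro ⟨p | p, i⟩ hi
      · simp only [hε, Sum.inl.injEq, exists_eq_left', not_or, not_and, not_not] at hi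
        simp only [Sum.elim_inl, if_neg hi.1]
        split_ifs with h
        · rw [← hi.2 h, div_mul_cancel₀ _ (hi.2 h ▸ hw0)]
        · rfl
      · rfl⟩)
    fun η hη => ⟨fun p i hi => by simp [hη.1 p i hi], fun d i hi =>
      (fr_phM ht hu' _).trans (by rw [hη.2 d i hi]; ext; simp)⟩
  simpa using this

def D2 : Set (Fin 3 × Fin 2 → K) := {ρ | (fun l => ρ (l, 1)) ∈ Cone \ {0}}

lemma cnt_D2 : cnt j D2 = qq j ^ 3 * cnt j (Cone \ {0}) := by
  rw [cnt_eq_of_proj (C := D2) (Sum.elim (fun l => (l, 0)) fun l => (l, 1))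
    (D := prodSet (Set.univ : Set (Fin 3 → K)) (Cone \ {0})) ⟨fun ρ hρ => ⟨trivial, hρ⟩,
      fun ρ _ ρ' _ h => funext fun ⟨l, b⟩ => by
        fin_cases b
        exacts [congrFun h (Sum.inl l), congrFun h (Sum.inr l)],
      fun y hy => ⟨fun p => ![y (Sum.inl p.1), y (Sum.inr p.1)] p.2, hy.2, by ext (l | l) <;> rfl⟩⟩
    fun ρ hρ h => ?_, cnt_prod, cnt_univ]
  · simp
  · have : (fun l => (fr j ∘ ρ) (l, 1)) = fun l => ρ (l, 1) := funext fun l => congrFun h (Sum.inr l)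
    rwa [D2, Set.mem_ofPred_eq, this]

def L0 (J T : ℕ) : Set (Pm J T → K) := Sg (Lv J 0 Set.univ) fun _ => Set.univ
def L1 (J T : ℕ) : Set (Pm J T → K) := Sg (Lv J 1 (Set.univ \ {0})) fun _ => Xz T 1
def L2 (J T : ℕ) : Set (Pm J T → K) := Sg (Lv J 2 D2) fun r => W2 T (ez (rc r) 1)
def E1 (J T : ℕ) : Set (Pm J T → K) := Sg (Lv J 2 Set.univ) fun _ => Xz T 2
def E2 (J T i : ℕ) : Set (Pm J T → K) :=
  Sg (Lv J (i + 1) Set.univ ∩ {r | ez (rc r) i ≠ 0}) fun r => {η | triL (rc r) T (i + 1) η = 0}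

lemma cnt_Sg_eq {ι κ : Type} [Finite ι] [Finite κ] {C : Set (ι → K)} {W : (ι → K) → Set (κ → K)}
    {c : ℕ} (h : ∀ r ∈ C, fr j ∘ r = r → cnt j (W r) = c) : cnt j (Sg C W) = cnt j C * c :=
  cnt_sigma_eq h

lemma cnt_Sg_le {ι κ : Type} [Finite ι] [Finite κ] {C : Set (ι → K)} {W : (ι → K) → Set (κ → K)}
    {c : ℕ} (h : ∀ r ∈ C, cnt j (W r) ≤ c) : cnt j (Sg C W) ≤ cnt j C * c :=
  cnt_sigma_le h

lemma cnt_L (hJ : 2 ≤ J) (hT : 2 ≤ T) (ht : fr j tt = tt) :
    cnt j (L0 J T ∪ L1 J T ∪ L2 J T) = qq j ^ (30 * T) +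
      cnt j ((Set.univ : Set (Fin 3 × Fin 1 → K)) \ {0}) * qq j ^ (30 * T - 15) +
      qq j ^ 3 * cnt j (Cone \ {0}) * qq j ^ (30 * T - 25) := by
  rw [cnt_union, cnt_union, L0, L1, L2, cnt_Sg_eq fun _ _ _ => cnt_univ j,
    cnt_Sg_eq fun _ _ _ => cnt_Xz (by omega), cnt_Sg_eq fun r hr hr' =>
      cnt_W2 hT ht hr.2 (by rw [← ez_fr, hr']), cnt_Lv (by omega), cnt_Lv (by omega), cnt_Lv hJ,
    cnt_univ, cnt_D2]
  · simp
  · refine Set.disjoint_left.2 fun z h0 h1 => h1.1.2.2 (funext fun p => ?_)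
    exact congrFun (h0.1.1 _ (Nat.zero_le _)) _
  · refine Set.disjoint_left.2 fun z h0 h1 => h1.1.2.2 ?_
    exact h0.elim (fun h => h.1.1 1 (by omega)) fun h => h.1.1 1 le_rfl

lemma cnt_E1 (hJ : 2 ≤ J) (hT : 2 ≤ T) : cnt j (E1 J T) ≤ qq j ^ (30 * T - 21) := by
  rw [E1, cnt_Sg_eq fun _ _ _ => cnt_Xz hT, cnt_Lv hJ, cnt_univ, ← pow_add]
  exact Nat.pow_le_pow_right (by have := two_le_qq j; omega) (by simp; omega)

lemma cnt_E2 {i : ℕ} (h2 : 2 ≤ i) (hJ : i < J) (hT : J ≤ T) :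
    cnt j (E2 J T i) ≤ qq j ^ (30 * T - 21) := by
  rw [E2]
  refine (cnt_Sg_le (c := qq j ^ (30 * T - 10 * (i + 1))) fun r hr => ?_).trans ?_
  · obtain ⟨κ, hκ⟩ := exists_kappa hr.2
    have := cnt_le_compl (j := j) (epsB_inj (j := i + 1) (T := T) (by omega) κ)
      (C := {η | triL (rc r) T (i + 1) η = 0}) fun w hw w' hw' h => sub_eq_zero.1
        (tri_proj _ hr.1.1 hκ (by rw [map_sub, hw, hw', sub_self]) fun x hx => sub_eq_zero.2 (h x hx))
    rw [card_B] at this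
    simpa using this
  · refine (Nat.mul_le_mul_right _ (cnt_mono Set.inter_subset_left)).trans ?_
    rw [cnt_Lv (by omega), cnt_univ, ← pow_add]
    exact Nat.pow_le_pow_right (by have := two_le_qq j; omega) (by simp; omega)

end Pool.Agent.MP_536a45_ag_b

end
end

section

/-!
The point count of the stringy motive.
-/

noncomputable section

namespace Pool.Agent.MP_536a45_ag_b

open MvPolynomial Matrix Module Filter

attribute [-simp] MvPolynomial.aeval_eq_bind₁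

variable {J T j : ℕ}

lemma eq_zero_of_ez {r : Fin 3 → Fin J → K} (h : ∀ b, ez r b = 0) : r = 0 := by
  ext l b; exact (dif_pos b.2).symm.trans (congrFun (h b) l)

lemma ge_lf_of_Xz {η : N × Fin T → K} {o : ℕ} (h : η ∈ Xz T o) (p : I5) :
    Ge o (lf η (Sum.inl p)) := ge_of_coeff (lf_mem _ _) (lf_ge _ _) fun i hi => by
  rw [lf_coeff]; split_ifs with h'; exacts [h p ⟨i, h'⟩ hi, rfl]

lemma Xz_of_int {r : Fin 3 → Fin J → K} {η : N × Fin T → K} (h : ∀ q, Ge 0 (tw r (lf η) q))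
    {b : ℕ} (hr : ez r b ≠ 0) : η ∈ Xz T 1 := by
  intro p i hi
  by_contra h0
  obtain ⟨c, s, -, hg⟩ := exists_lam (v := lf η) (o := (i : ℕ)) (p := p)
    (by rw [lf_coeff, dif_pos i.2]; exact h0)
  rw [show (i : ℕ) = 0 by omega, Nat.cast_zero] at hg
  have := eq_of_ge_sum (r := 0) (r' := r) (fun _ => lf_mem _ _) (fun _ => lf_ge _ _) le_rfl hg
    fun p => by simpa [al_zero] using (tw_split (lf_mem η) h).2 p
  subst this
  exact hr (funext fun l => by simp [ez])

lemma sub_of_int {z : Pm J T → K} (h : ∀ q, Ge 0 (par z q)) : z ∈ L0 J T ∪ L1 J T ∪ L2 J T ∪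
    (E1 J T ∪ ⋃ i : {i : Fin J // 2 ≤ (i : ℕ)}, E2 J T i.1) := by
  by_cases h2 : ∃ b, 2 ≤ b ∧ ez (rz z) b ≠ 0
  · obtain ⟨i, hi, h3, h4, h5⟩ := exists_level h2
    exact Or.inr (Or.inr (Set.mem_iUnion.2 ⟨⟨⟨i, hi⟩, h3⟩, ⟨⟨h5, trivial⟩, h4⟩,
      funext fun x => tri_eq_zero h _ _⟩))
  push Not at h2
  by_cases h1 : ez (rz z) 1 = 0
  · have h3 : ∀ b, 1 ≤ b → ez (rz z) b = 0 := fun b hb => by
      rcases hb.eq_or_lt with rfl | hb
      exacts [h1, h2 b hb]
    by_cases h0 : ez (rz z) 0 = 0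
    · refine Or.inl (Or.inl (Or.inl ⟨⟨fun b _ => ?_, trivial⟩, trivial⟩))
      rcases b with _ | b
      exacts [h0, h3 _ (by omega)]
    · exact Or.inl (Or.inl (Or.inr ⟨⟨h3, trivial, fun h => h0 (funext fun l =>
        congrFun h (l, 0))⟩, Xz_of_int h h0⟩))
  have hx := Xz_of_int h h1
  have h4 : ∀ c, ∀ i : Fin T, (i : ℕ) = 1 →
      (phM (ez (rz z) 1) *ᵥ fun b => z (Sum.inr (Sum.inl (c, b), i))) = 0 := fun c i hi => by
    ext a
    have := tri_eq_zero h 0 (c, a)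
    rw [tri, Finset.sum_eq_single i, hi] at this
    · exact this
    · intro i' _ hi'
      have : (i' : ℕ) ≠ 1 := fun h => hi' (Fin.ext (h.trans hi.symm))
      by_cases h5 : (i' : ℕ) = 0
      · rw [show (fun b => (z ∘ Sum.inr) (Sum.inl (c, b), i')) = 0 from
          funext fun b => hx _ _ (by omega)]
        simp
      · rw [h2 _ (by omega), phM_zero]; simp
    · simp
  by_cases hd : (phM (ez (rz z) 1)).det = 0
  · exact Or.inl (Or.inr ⟨⟨h2, hd, h1⟩, hx, h4⟩)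
  · refine Or.inr (Or.inl ⟨⟨h2, trivial⟩, fun p i hi => ?_⟩)
    by_cases h5 : (i : ℕ) = 1
    · exact congrFun (eq_zero_of_mulVec_eq_zero hd (h4 p.1 i h5)) p.2
    · exact hx p i (by omega)

lemma ge_al_sub {r : Fin 3 → Fin J → K} (h : ∀ b, 2 ≤ b → ez r b = 0) (l : Fin 3) :
    Ge (-1) (al (r l) - HahnSeries.single (-3 / 2) (ez r 1 l)) := by
  intro γ hγ
  rw [HahnSeries.coeff_sub, sub_eq_zero, HahnSeries.coeff_single]
  split_ifs with h1
  · have := al_coeff_half (r l) 1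
    norm_num at this
    rw [h1, ez, ← this]; norm_num
  · rw [al, HahnSeries.coeff_sum]
    refine Finset.sum_eq_zero fun b _ => ?_
    by_cases hb : 2 ≤ (b : ℕ)
    · rw [show r l b = 0 from (dif_pos b.2).symm.trans (congrFun (h b hb) l), root_zero]; rfl
    refine root_coeff_zero (fun n hn => ?_) _
    have h2 : ((b : ℕ) : ℚ) = 0 ∨ ((b : ℕ) : ℚ) = 1 := by
      exact_mod_cast (by omega : (b : ℕ) = 0 ∨ (b : ℕ) = 1)
    rcases n with _ | n
    · rw [ex_apply] at hn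
      rcases h2 with h2 | h2 <;> rw [h2] at hn
      · linarith
      · exact h1 (by linarith)
    · have := (ex b).monotone (show 1 ≤ n + 1 by omega)
      rw [hn, ex_apply] at this
      rcases h2 with h2 | h2 <;> rw [h2] at this <;> linarith

lemma int_of_L (hT : 2 ≤ T) {z : Pm J T → K} (h : z ∈ L0 J T ∪ L1 J T ∪ L2 J T) (p : I5) :
    Ge 0 (∑ l, al (rz z l) * mxv l (lf (z ∘ Sum.inr)) p) := by
  rcases h with (h | h) | h
  · rw [show rz z = 0 from eq_zero_of_ez fun b => h.1.1 b (Nat.zero_le _)]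
    simpa [al_zero] using ge_zero 0
  · refine Ge.sum fun l _ => ((al_ge_of (c := 0) fun b hb => ?_).mul
      (ge_mxv (ge_lf_of_Xz h.2) l p)).mono (by norm_num)
    exact (dif_pos b.2).symm.trans (congrFun (h.1.1 b hb) l)
  have h1 := fun l => ge_mxv (ge_lf_of_Xz h.2.1) l p
  have h2 := Ge.sum (t := Finset.univ) fun l _ => (ge_al_sub (r := rz z) h.1.1 l).mul (h1 l)
  have h3 : Ge (2 : ℕ) (∑ l, algebraMap K H (ez (rz z) 1 l) * mxv l (lf (z ∘ Sum.inr)) p) := by
    have h4 := Ge.sum (t := Finset.univ) fun l _ => (ge_alg (ez (rz z) 1 l)).mul_left (h1 l)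
    refine ge_of_coeff (sum_mem fun l _ => mul_mem (algebraMap_mem _ _)
      (mxv_mem ZS (fun _ => lf_mem _ _) _ _)) (h4.mono (by norm_num)) fun i hi => ?_
    by_cases h5 : i = 1
    · subst h5
      refine Eq.trans ?_ (congrFun (h.2.2 p.1 ⟨1, hT⟩ rfl) p.2)
      refine Eq.trans ?_ (sum_mxv_K _ (fun q => z (Sum.inr (q, ⟨1, hT⟩))) p)
      simp only [HahnSeries.coeff_sum, coeff_alg_mul, mxv, lf_coeff, dif_pos (show 1 < T from hT)]
      rfl
    · exact h4 _ (by exact_mod_cast (by omega : i < 1))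
  have h5 := ((ge_single (-3 / 2) 1).mul h3).mono (show 0 ≤ _ by norm_num)
  convert (h2.mono (by norm_num)).add h5 using 1
  simp only [Finset.mul_sum, ← mul_assoc, algebraMap_H, HahnSeries.single_mul_single, add_zero,
    one_mul, sub_mul, Finset.sum_sub_distrib, sub_add_cancel]

lemma exists_ord {z : Pm J T → K} (h : ∀ q, Ge 0 (par z q)) (hx : z ∘ Sum.inr ∉ Xz T 2) :
    ∃ a ≤ 105, z ∈ Zs J T a := by
  simp only [Xz, Set.mem_ofPred_eq, not_forall] at hx
  obtain ⟨p, i, hi, h0⟩ := hx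
  obtain ⟨c, s, -, hg⟩ := exists_lam (v := par z) (o := (i : ℕ)) (p := p)
    (by rw [par, tw, act_inl, lf_coeff, dif_pos i.2]; exact h0)
  have h1 := hg.le_Jac
  obtain ⟨a, ha, g, hg'⟩ := exists_min (x := fun g : N → R => aeval (par z) (Jac g : B))
    (fun g => (tw_mem_ZS _ (lf_mem _) _).1) (fun g => ge_aeval h _)
    fun h0 => h1.ne_zero (congrFun h0 _)
  have : a ≤ 105 * (i : ℕ) := by exact_mod_cast (ha _).le_of_le h1
  exact ⟨a, by omega, h, ha, g, a, le_rfl, hg'⟩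

/-- Twisted parameters of bounded order. -/
def Pu (J T A : ℕ) (u : Fin 3 → K) : Set (Pm J T → K) := ⋃ a ∈ Finset.range A, tu u ⁻¹' Zs J T a

lemma cnt_Pu (A : ℕ) (u : Fin 3 → K) :
    cnt j (Pu J T A u) = ∑ a ∈ Finset.range A, cnt j (tu u ⁻¹' Zs J T a) :=
  cnt_biUnion _ _ fun a _ a' _ hne => Set.disjoint_left.2 fun z h h' => hne (by
    obtain ⟨g, hg⟩ := h.2.2
    obtain ⟨g', hg'⟩ := h'.2.2
    exact_mod_cast ((h.2.1 g').le_of_le hg').antisymm ((h'.2.1 g).le_of_le hg))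

lemma cnt_Pu_bound {A : ℕ} (hA : 105 < A) (hJ : 2 ≤ J) (hT : J ≤ T) (u : Fin 3 → K) :
    |(cnt j (Pu J T A u) : ℤ) - cnt j (L0 J T ∪ L1 J T ∪ L2 J T)| ≤
      (J + 1) * qq j ^ (30 * T - 21) := by
  have h1 : Pu J T A u ⊆ L0 J T ∪ L1 J T ∪ L2 J T ∪
      (E1 J T ∪ ⋃ i : {i : Fin J // 2 ≤ (i : ℕ)}, E2 J T i.1) := fun z hz => by
    obtain ⟨a, -, ha⟩ := Set.mem_iUnion₂.1 hz
    refine sub_of_int ?_
    rintro (p | p)
    · exact lf_ge _ _
    · have := (tw_split (lf_mem _) ha.1).2 p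
      rw [tu, show mkz (rz z) (actT u (z ∘ Sum.inr)) ∘ Sum.inr = actT u (z ∘ Sum.inr) from rfl,
        lf_actT] at this
      exact (lf_ge _ _).add this
  have h2 : L0 J T ∪ L1 J T ∪ L2 J T ⊆ Pu J T A u ∪ E1 J T := fun z hz => by
    by_cases hx : z ∘ Sum.inr ∈ Xz T 2
    · exact Or.inr ⟨⟨fun b hb => hz.elim (fun h => h.elim (fun h => h.1.1 b (by omega))
        fun h => h.1.1 b (by omega)) fun h => h.1.1 b hb, trivial⟩, hx⟩
    obtain ⟨a, ha, h⟩ := exists_ord (z := tu u z) (by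
      rintro (p | p)
      · exact lf_ge _ _
      · refine (lf_ge _ _).add ?_
        rw [tu, show mkz (rz z) (actT u (z ∘ Sum.inr)) ∘ Sum.inr = actT u (z ∘ Sum.inr) from rfl,
          lf_actT]
        exact int_of_L (by omega) hz p) hx
    exact Or.inl (Set.mem_iUnion₂.2 ⟨a, Finset.mem_range.2 (by omega), h⟩)
  have h3 := (cnt_mono (j := j) h2).trans ((cnt_union_le _ _).trans
    (Nat.add_le_add_left (cnt_E1 hJ (by omega)) _))
  have h4 := (cnt_mono (j := j) h1).trans ((cnt_union_le _ _).trans (Nat.add_le_add_left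
    ((cnt_union_le _ _).trans (Nat.add_le_add (cnt_E1 hJ (by omega)) ((cnt_iUnion_le _).trans
      ((Finset.sum_le_card_nsmul _ _ _ fun i _ => cnt_E2 i.2 i.1.2 hT).trans
        (Nat.mul_le_mul_right _ (show _ ≤ J from
          (Fintype.card_subtype_le _).trans (by simp))))))) _))
  zify at h3 h4
  rw [abs_le]
  have : (0 : ℤ) ≤ J * qq j ^ (30 * T - 21) := by positivity
  constructor <;> linarith

variable {m : ℕ} {f : Fin m → R}

theorem count (hf : Algebra.adjoin K (Set.range f) = ⊤) {A n : ℕ} (hA : 105 < A)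
    (hn : 300 * A ≤ n) : ∃ C : ℝ, ∀ᶠ j in atTop, ∃ α : ℤ, α ^ 2 = 4 * qq j ∧
      |∑ a ∈ Finset.range A, (cnt j (jet f n '' ordSet II a) : ℝ) * (qq j : ℝ) ^ (a - n * 30 : ℤ) -
        (qq j ^ 30 + qq j ^ 18 - qq j ^ 15 + qq j ^ 10 + α * qq j ^ 9)| ≤ C * qq j ^ 9 := by
  refine ⟨7 * A + 4, ?_⟩
  filter_upwards [(eventually_all_finset (Finset.range A)).2 fun a ha =>
    cnt_jets (J := 7 * A) (T := n + 1 + 7 * A) (a := a) (n := n) hf rfl
      (by have := Finset.mem_range.1 ha; omega) (by have := Finset.mem_range.1 ha; omega),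
    cnt_cone, ev_fix tt] with j h1 ⟨α, hα, h2⟩ ht
  refine ⟨α, hα, ?_⟩
  have h3 := fun g => cnt_Pu_bound (j := j) (J := 7 * A) (T := n + 1 + 7 * A) hA (by omega)
    (by omega) (ug j g)
  have h4 := cnt_diff_zero (j := j) (C := Cone) (by simp [Cone, phM_zero])
  have h5 := cnt_diff_zero (j := j) (C := (Set.univ : Set (Fin 3 × Fin 1 → K))) trivial
  rw [cnt_L (by omega) (by omega) ht] at h3
  rw [cnt_univ] at h5
  simp only [Nat.card_eq_fintype_card, Fintype.card_prod, Fintype.card_fin] at h5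
  have hq : (2 : ℝ) ≤ qq j := by exact_mod_cast two_le_qq j
  have e1 : 30 * (n + 1 + 7 * A) = 30 * (n + 7 * A) + 30 := by ring
  have e2 : ∀ k ≤ 30, 30 * (n + 1 + 7 * A) - k = 30 * (n + 7 * A) + (30 - k) := fun k hk => by omega
  rw [e2 _ (by omega), e2 _ (by omega), e2 _ (by omega), e1] at h3
  generalize cnt j (Cone \ {0}) = c1 at h3 h4
  generalize cnt j ((Set.univ : Set (Fin 3 × Fin 1 → K)) \ {0}) = c2 at h3 h5
  have h6 : (c1 : ℝ) = qq j + (qq j - 1) * (qq j + α) - 1 := by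
    rw [← h4] at h2
    exact_mod_cast eq_sub_of_add_eq h2
  have h7 : (c2 : ℝ) = qq j ^ 3 - 1 := eq_sub_of_add_eq (by exact_mod_cast h5)
  have h8 : ∑ a ∈ Finset.range A, (cnt j (jet f n '' ordSet II a) : ℝ) *
      (qq j : ℝ) ^ (a - n * 30 : ℤ) = (∑ g, (cnt j (Pu (7 * A) (n + 1 + 7 * A) A (ug j g)) : ℝ)) /
        (8 * qq j ^ (30 * (n + 7 * A))) := by
    simp only [cnt_Pu, Nat.cast_sum]
    rw [Finset.sum_comm, Finset.sum_div]
    refine Finset.sum_congr rfl fun a ha => ?_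
    rw [← Nat.cast_sum, h1 a ha, zpow_sub₀ (by linarith), ← Nat.cast_ofNat (R := ℤ), ← Nat.cast_mul,
      zpow_natCast, zpow_natCast]
    push_cast
    field_simp
    ring
  have h9 : ∀ g, |(cnt j (Pu (7 * A) (n + 1 + 7 * A) A (ug j g)) : ℝ) -
      qq j ^ (30 * (n + 7 * A)) * (qq j ^ 30 + c2 * qq j ^ 15 + qq j ^ 3 * c1 * qq j ^ 5)| ≤
      qq j ^ (30 * (n + 7 * A)) * ((7 * A + 1) * qq j ^ 9) := fun g => by
    have := (Int.cast_le (R := ℝ)).2 (h3 g)
    push_cast at this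
    simp only [pow_add] at this
    generalize (qq j : ℝ) ^ (30 * (n + 7 * A)) = Q at this ⊢
    refine le_of_eq_of_le ?_ (this.trans_eq ?_)
    · congr 1; ring
    · ring
  have h10 : |(α : ℝ)| ≤ 2 * qq j := abs_le_of_sq_le_sq (by
    have : (α : ℝ) ^ 2 = 4 * qq j := by exact_mod_cast hα
    nlinarith) (by linarith)
  rw [h8]
  generalize (qq j : ℝ) = q at *
  have hQ : 0 < q ^ (30 * (n + 7 * A)) := by positivity
  generalize q ^ (30 * (n + 7 * A)) = Q at *
  have h11 := (Finset.abs_sum_le_sum_abs _ _).trans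
    (Finset.sum_le_card_nsmul Finset.univ _ _ fun g _ => h9 g)
  rw [Finset.sum_sub_distrib, Finset.sum_const, show (Finset.univ : Finset G0).card = 8 by simp,
    nsmul_eq_mul, nsmul_eq_mul, Nat.cast_ofNat, abs_le] at h11
  generalize ∑ g, (cnt j (Pu (7 * A) (n + 1 + 7 * A) A (ug j g)) : ℝ) = S at *
  obtain ⟨s, rfl⟩ : ∃ s, S = s * (8 * Q) := ⟨S / (8 * Q), by field_simp⟩
  rw [mul_div_cancel_right₀ _ (by positivity), abs_le]
  rw [abs_le] at h10
  have h12 : 0 < q ^ 8 := by positivity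
  have h13 : s - (q ^ 30 + c2 * q ^ 15 + q ^ 3 * c1 * q ^ 5) ≤ (7 * A + 1) * q ^ 9 :=
    le_of_mul_le_mul_left (by linarith [h11.2]) (show 0 < 8 * Q by positivity)
  have h14 : -((7 * A + 1) * q ^ 9) ≤ s - (q ^ 30 + c2 * q ^ 15 + q ^ 3 * c1 * q ^ 5) :=
    le_of_mul_le_mul_left (by linarith [h11.1]) (show 0 < 8 * Q by positivity)
  rw [h6, h7] at h13 h14
  constructor <;> nlinarith [mul_le_mul_of_nonneg_right h10.1 h12.le,
    mul_le_mul_of_nonneg_right h10.2 h12.le, mul_le_mul_of_nonneg_right hq h12.le]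

end Pool.Agent.MP_536a45_ag_b

end
end

section

/-!
The stringy motive is not a rational function.
-/

noncomputable section

namespace Pool.Agent.MP_536a45_ag_b

open Filter Topology Asymptotics Polynomial

lemma tendsto_inv_pow {W : ℕ → ℝ} (hW : Tendsto W atTop atTop) {k : ℕ} (hk : k ≠ 0) :
    Tendsto (fun j => ((W j : ℂ) ^ k)⁻¹) atTop (𝓝 0) := by
  have := (Complex.continuous_ofReal.tendsto 0).comp
    (tendsto_inv_atTop_zero.comp ((tendsto_pow_atTop hk).comp hW))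
  simpa [Function.comp_def] using this

lemma poly_tendsto {W : ℕ → ℝ} (hW : Tendsto W atTop atTop) {U : ℂ[X]} {κ : ℕ}
    (hU : U.natDegree ≤ κ) (ζ : ℂ) :
    Tendsto (fun j => U.eval (ζ * W j) / (W j : ℂ) ^ κ) atTop (𝓝 (U.coeff κ * ζ ^ κ)) := by
  simp only [eval_eq_sum_range' (Nat.lt_succ_of_le hU), Finset.sum_range_succ, add_div,
    Finset.sum_div]
  have h0 : ∀ᶠ j in atTop, (W j : ℂ) ≠ 0 := (hW.eventually_gt_atTop 0).mono fun j hj => by
    exact_mod_cast hj.ne'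
  rw [← zero_add (U.coeff κ * ζ ^ κ), ← Finset.sum_const_zero (s := Finset.range κ)]
  refine (tendsto_finsetSum _ fun i hi => ?_).add (tendsto_const_nhds.congr' ?_)
  · obtain ⟨k, rfl⟩ := Nat.exists_eq_add_of_lt (Finset.mem_range.1 hi)
    have := (tendsto_inv_pow hW (k := k + 1) (by omega)).const_mul (U.coeff i * ζ ^ i)
    rw [mul_zero] at this
    refine this.congr' (h0.mono fun j hj => ?_)
    field_simp
    ring
  · refine h0.mono fun j hj => ?_
    field_simp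
    ring

lemma analytic {W S α : ℕ → ℝ} (hW : Tendsto W atTop atTop) {C : ℝ} {P Q : ℂ[X]} (hQ : Q ≠ 0)
    (hα : ∀ᶠ j in atTop, α j ^ 2 = 4 * W j ^ 8 ∧ |S j - (W j ^ 240 + W j ^ 144 - W j ^ 120 +
      W j ^ 80 + α j * W j ^ 72)| ≤ C * W j ^ 72)
    (h : ∀ ζ : ℂ, ζ ^ 8 = 1 →
      (fun j => Q.eval (ζ * W j) * S j - P.eval (ζ * W j)) =O[atTop] fun _ => (1 : ℝ)) : False := by
  set U := P - Q * (X ^ 240 + X ^ 144 - X ^ 120 + X ^ 80) with hU
  have h0 := hW.eventually_gt_atTop 0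
  let β : ℕ → ℂ := fun j => α j / W j ^ 4
  have hβ : ∀ᶠ j in atTop, β j ^ 2 = 4 := by
    filter_upwards [hα, h0] with j h1 h2
    have : (W j : ℂ) ≠ 0 := by exact_mod_cast h2.ne'
    have h3 : (α j : ℂ) ^ 2 = 4 * W j ^ 8 := by exact_mod_cast h1.1
    simp only [β]
    field_simp
    exact h3.trans (mul_comm _ _)
  have hβ' : β =O[atTop] fun _ => (1 : ℝ) := IsBigO.of_bound 2 (hβ.mono fun j hj => by
    have := congrArg norm hj
    rw [norm_pow] at this
    simp only [Complex.norm_ofNat, norm_one, mul_one] at this ⊢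
    exact le_of_sq_le_sq (by rw [this]; norm_num) (by norm_num))
  have h1 : ∀ ζ : ℂ, ζ ^ 8 = 1 → Tendsto (fun j => U.eval (ζ * W j) / W j ^ (Q.natDegree + 76) -
      Q.eval (ζ * W j) / W j ^ Q.natDegree * β j) atTop (𝓝 0) := fun ζ hζ => by
    let e : ℕ → ℂ := fun j => ((S j - (W j ^ 240 + W j ^ 144 - W j ^ 120 + W j ^ 80 +
      α j * W j ^ 72)) / W j ^ 72 : ℝ)
    have he : e =O[atTop] fun _ => (1 : ℝ) := IsBigO.of_bound C (by
      filter_upwards [hα, h0] with j h1 h2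
      simp only [e, Complex.norm_real, Real.norm_eq_abs, abs_div, abs_one, mul_one]
      rw [abs_of_pos (pow_pos h2 _), div_le_iff₀ (pow_pos h2 _)]
      exact h1.2)
    have h2 := ((poly_tendsto hW (le_refl Q.natDegree) ζ).isBigO_one ℝ).mul_isLittleO
      (he.mul_isLittleO ((isLittleO_one_iff ℝ).2 (tendsto_inv_pow hW (k := 4) (by omega))))
    have h3 := (h ζ hζ).mul_isLittleO ((isLittleO_one_iff ℝ).2
      (tendsto_inv_pow hW (k := Q.natDegree + 76) (by omega)))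
    simp only [mul_one] at h2 h3
    refine ((isLittleO_one_iff ℝ).1 (h2.sub h3)).congr' (h0.mono fun j hj => ?_)
    have h4 : (W j : ℂ) ≠ 0 := by exact_mod_cast hj.ne'
    have h5 : ∀ k, (ζ * W j) ^ (8 * k) = W j ^ (8 * k) := fun k => by
      rw [mul_pow, pow_mul, hζ, one_pow, one_mul]
    simp only [hU, e, β, eval_sub, eval_mul, eval_add, eval_pow, eval_X, h5 30, h5 18, h5 15, h5 10]
    push_cast
    field_simp
    ring
  have hd : U.natDegree ≤ Q.natDegree + 76 := by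
    by_contra! hlt
    obtain ⟨k, hk⟩ := Nat.exists_eq_add_of_lt hlt
    have h2 := ((h1 1 (one_pow _)).isBigO_one ℝ).add
      (by simpa only [mul_one] using ((poly_tendsto hW (le_refl Q.natDegree) 1).isBigO_one ℝ).mul hβ')
    have h3 := h2.mul_isLittleO ((isLittleO_one_iff ℝ).2 (tendsto_inv_pow hW (k := k + 1) (by omega)))
    simp only [mul_one, sub_add_cancel] at h3
    have h4 := tendsto_nhds_unique (poly_tendsto hW (le_refl U.natDegree) 1)
      (((isLittleO_one_iff ℝ).1 h3).congr fun j => by rw [hk]; ring)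
    rw [one_pow, mul_one, coeff_natDegree, leadingCoeff_eq_zero] at h4
    simp [h4] at hlt
  have hc : Q.coeff Q.natDegree ≠ 0 := by simpa using hQ
  have h2 : ∀ ζ : ℂ, ζ ^ 8 = 1 → Tendsto β atTop
      (𝓝 (U.coeff (Q.natDegree + 76) * ζ ^ 76 / Q.coeff Q.natDegree)) := fun ζ hζ => by
    have hζ0 : ζ ≠ 0 := by rintro rfl; simp at hζ
    have h3 := poly_tendsto hW (le_refl Q.natDegree) ζ
    have h4 := mul_ne_zero hc (pow_ne_zero Q.natDegree hζ0)
    have h5 := ((poly_tendsto hW hd ζ).sub (h1 ζ hζ)).div h3 h4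
    convert h5.congr' ((h3.eventually_ne h4).mono fun j hj => ?_) using 2
    · field_simp
      ring
    · simp only [Pi.div_apply, sub_sub_cancel]
      exact mul_div_cancel_left₀ _ hj
  obtain ⟨ζ, hζ⟩ := IsAlgClosed.exists_pow_nat_eq (-1 : ℂ) (n := 4) (by norm_num)
  have h3 := tendsto_nhds_unique (h2 1 (one_pow _)) (h2 ζ (by rw [pow_mul ζ 4 2, hζ]; norm_num))
  have h4 := (h2 1 (one_pow _)).pow 2
  rw [pow_mul ζ 4 19, hζ] at h3
  have h5 := tendsto_nhds_unique h4 (tendsto_const_nhds.congr' (hβ.mono fun j hj => hj.symm))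
  generalize U.coeff (Q.natDegree + 76) = u at h3 h5
  have : u = 0 := by field_simp at h3; linear_combination h3 / 2
  simp [this] at h5

lemma tendsto_th {ρ : ℕ} (hρ : ρ ≠ 0) : Tendsto (th ρ) atTop atTop := by
  refine (tendsto_rpow_atTop (by positivity)).comp (tendsto_natCast_atTop_atTop.comp
    (tendsto_atTop_mono (fun j => ?_) tendsto_id))
  exact (Nat.self_le_factorial j).trans Nat.lt_two_pow_self.le

variable {m : ℕ} {f : Fin m → R}

theorem not_isRatFun (hf : Algebra.adjoin K (Set.range f) = ⊤) {b : Bool} {k : ℕ} (hk : k ≠ 0)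
    {M : MotHat K b (8 * k)} (hM : IsIntegralOrd N f II b (8 * k) M) :
    ¬ IsRatFun b (8 * k) k M := by
  intro hR
  obtain ⟨n, hn, hM⟩ := hM
  have hρ : 8 * k ≠ 0 := by omega
  rcases of_isRatFun hM hR with h | ⟨P, Q, hQ, h⟩
  · obtain ⟨u, hu, hu'⟩ := real_Fil hρ (one_pow _) (h 1)
    rw [map_one, ← Germ.coe_one, Germ.coe_eq] at hu
    have h1 := hu'.trans_tendsto (by
      simpa [Function.comp_def] using tendsto_inv_atTop_zero.comp (tendsto_th hρ))
    exact one_ne_zero (tendsto_nhds_unique (tendsto_const_nhds.congr' hu) h1)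
  obtain ⟨A, hA, h⟩ := ((eventually_gt_atTop 105).and (h 0)).exists
  let l := 300 * A + ∑ a ∈ Finset.range A, n a
  have hl : ∀ a ∈ Finset.range A, n a ≤ l := fun a ha =>
    (Finset.single_le_sum (fun _ _ => Nat.zero_le _) ha).trans (Nat.le_add_left _ _)
  rw [Finset.sum_congr rfl fun a ha => ((hn a).cl_eq (hl a ha) a).symm] at h
  obtain ⟨C, hC⟩ := count hf (n := l) hA (Nat.le_add_right _ _)
  obtain ⟨α, hα⟩ := hC.choice
  have hq : ∀ j, (qq j : ℝ) = (th (8 * k) j ^ k) ^ 8 := fun j => by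
    rw [← pow_mul, mul_comm k, th_pow hρ]
  refine analytic (W := fun j => th (8 * k) j ^ k) (C := C) (α := fun j => α j)
    (S := fun j => ∑ a ∈ Finset.range A, (cnt j (jet f l '' ordSet II a) : ℝ) *
      (qq j : ℝ) ^ (a - l * 30 : ℤ)) (P := P.map (Int.castRingHom ℂ))
    (Q := Q.map (Int.castRingHom ℂ)) ((tendsto_pow_atTop hk).comp (tendsto_th hρ))
    ((Polynomial.map_ne_zero_iff Int.cast_injective).2 hQ) ?_ fun ζ hζ => ?_
  · filter_upwards [hα] with j ⟨h1, h2⟩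
    refine ⟨by rw [← hq]; exact_mod_cast h1, ?_⟩
    generalize ∑ a ∈ Finset.range A, (cnt j (jet f l '' ordSet II a) : ℝ) *
      (qq j : ℝ) ^ (a - l * 30 : ℤ) = S at h2 ⊢
    simpa only [hq, ← pow_mul (th (8 * k) j ^ k)] using h2
  obtain ⟨ξ, hξ⟩ := IsAlgClosed.exists_pow_nat_eq ζ (Nat.pos_of_ne_zero hk)
  have hξ0 : ξ ≠ 0 := by
    rintro rfl
    rw [zero_pow hk] at hξ
    simp [← hξ] at hζ
  have hξ1 : Units.mk0 ξ hξ0 ^ (8 * k) = 1 := Units.ext (by simp [mul_comm 8, pow_mul, hξ, hζ])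
  obtain ⟨u, hu, hu'⟩ := real_Fil hρ hξ1 h
  have e : ∀ p : ℤ[X], real b hρ hξ1 (p.eval₂ (Int.castRingHom _)
      (cl b (8 * k) (Set.univ : Set (Empty → K)) k)) = ((fun j => (p.map (Int.castRingHom ℂ)).eval
        (ζ * (th (8 * k) j ^ k : ℝ)) : ℕ → ℂ) : Gm) := fun p => by
    let c : (ℕ → ℂ) →+* Gm := Germ.coeRingHom atTop
    rw [hom_eval₂, real_cl hρ hξ1 isCons_univ, Subsingleton.elim (RingHom.comp _ _)
      (c.comp (Int.castRingHom _))]
    refine (hom_eval₂ p _ c _).symm.trans (congrArg c (_root_.funext fun j => ?_))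
    refine (hom_eval₂ p _ (Pi.evalRingHom (fun _ : ℕ => ℂ) j) _).trans ?_
    rw [eval_map, Subsingleton.elim (RingHom.comp _ _) (Int.castRingHom ℂ)]
    simp [cnt_univ, mul_pow, hξ]
  rw [map_sub, map_mul, e, e, map_sum, Finset.sum_congr rfl fun a ha =>
    real_cl hρ hξ1 ((hn a l (hl a ha)).1) _] at hu
  refine (hu'.congr_right fun j => by simp).congr' (EventuallyEq.symm ?_) EventuallyEq.rfl
  rw [← Germ.coe_eq, ← hu]
  refine Eq.trans ?_ (congrArg (_ * · - _) (map_sum (Germ.coeRingHom atTop) _ _))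
  refine congrArg (Germ.coeRingHom atTop) (funext fun j => ?_)
  have h1 : ((ξ : ℂ) * th (8 * k) j) ^ (8 * k) = qq j := by
    rw [mul_pow, mul_comm 8, pow_mul, hξ, hζ, one_mul, mul_comm k]
    exact_mod_cast th_pow hρ j
  rw [pow_mul] at h1
  simp [zpow_mul, h1]

end Pool.Agent.MP_536a45_ag_b

end
end
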